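import Pool.Agent.Helper44K9.FU.Stm
import Pool.Agent.H373R2.T7.LamMaj

/-!
# Project FU, leaf CHB: dyadic blocks of primes, from the prime number theorem.
-/

set_option autoImplicit false

namespace Pool.Agent.Helper44K9.FU

open Finset
open Pool.Agent.H373R2.T7 (lam1 lam1_eq pnt_lam)

namespace ChbL

theorem pnt_eps (δ : ℝ) (hδ : 0 < δ) : ∃ N₀ : ℕ, ∀ y ≥ N₀, |lam1 y - y| ≤ δ * y := by
  obtain ⟨C, N1, hC, h⟩ := pnt_lam 1
  have hlog := Real.tendsto_log_atTop.comp tendsto_natCast_atTop_atTop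
  obtain ⟨N2, hN2⟩ := (hlog.eventually_ge_atTop (2 * C / δ)).exists_forall_of_atTop
  refine ⟨max (max N1 N2) (max ⌈4 / δ⌉₊ 2), fun y hy => ?_⟩
  have h1 : N1 ≤ y := le_trans (le_trans (le_max_left _ _) (le_max_left _ _)) hy
  have h2 : N2 ≤ y := le_trans (le_trans (le_max_right _ _) (le_max_left _ _)) hy
  have h3 : ⌈4 / δ⌉₊ ≤ y := le_trans (le_trans (le_max_left _ _) (le_max_right _ _)) hy
  have h4 : 2 ≤ y := le_trans (le_trans (le_max_right _ _) (le_max_right _ _)) hy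
  have hy0 : (0 : ℝ) < y := by exact_mod_cast (by omega : 0 < y)
  have h5 : 4 / δ ≤ y := (Nat.le_ceil _).trans (by exact_mod_cast h3)
  have h6 := hN2 y h2
  simp only [Function.comp] at h6
  have hL : 0 < Real.log y := Real.log_pos (by exact_mod_cast (by omega : 1 < y))
  have h7 := h y h1
  rw [pow_one] at h7
  have h8 : C * (y / Real.log y) ≤ δ / 2 * y := by
    rw [← mul_div_assoc, div_le_iff₀ hL]
    rw [div_le_iff₀ hδ] at h6
    nlinarith
  have h9 : 2 ≤ δ / 2 * y := by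
    rw [div_le_iff₀ hδ] at h5
    linarith
  linarith

theorem sqrt_log : ∃ N₀ : ℕ, ∀ x ≥ N₀, 2 * √(x : ℝ) * Real.log x ≤ x / 16 := by
  have h1 := (isLittleO_log_rpow_atTop (r := 1 / 2) (by norm_num)).bound
    (c := 1 / 32) (by norm_num)
  obtain ⟨N, hN⟩ := (tendsto_natCast_atTop_atTop (R := ℝ)).eventually h1 |>.exists_forall_of_atTop
  refine ⟨max N 1, fun x hx => ?_⟩
  have h2 := hN x (le_trans (le_max_left _ _) hx)
  have hx1 : (1 : ℝ) ≤ x := by exact_mod_cast le_trans (le_max_right _ _) hx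
  rw [Real.norm_of_nonneg (Real.log_nonneg hx1), Real.norm_of_nonneg (by positivity),
    ← Real.sqrt_eq_rpow] at h2
  have h3 : √(x : ℝ) * √(x : ℝ) = x := Real.mul_self_sqrt (by linarith)
  have h4 : 0 ≤ √(x : ℝ) := Real.sqrt_nonneg _
  nlinarith

theorem lam_block (N : ℕ) : ∑ n ∈ Ioc N (2 * N), ArithmeticFunction.vonMangoldt n =
    lam1 (2 * N) - lam1 N := by
  unfold lam1
  have h1 : Icc 1 (2 * N) = Icc 1 N ∪ Ioc N (2 * N) := by
    ext x
    simp only [mem_Icc, mem_union, mem_Ioc]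
    omega
  have h2 : Disjoint (Icc 1 N) (Ioc N (2 * N)) := by
    rw [disjoint_left]
    intro x hx hx'
    rw [mem_Icc] at hx
    rw [mem_Ioc] at hx'
    omega
  rw [h1, sum_union h2]
  ring

theorem theta_block (N : ℕ) : Chebyshev.theta ((2 * N : ℕ) : ℝ) - Chebyshev.theta (N : ℝ) =
    ∑ p ∈ (Ioc N (2 * N)).filter Nat.Prime, Real.log p := by
  unfold Chebyshev.theta
  rw [Nat.floor_natCast, Nat.floor_natCast]
  have h1 : (Ioc 0 (2 * N)).filter Nat.Prime =
      (Ioc 0 N).filter Nat.Prime ∪ (Ioc N (2 * N)).filter Nat.Prime := by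
    ext x
    simp only [mem_filter, mem_union, mem_Ioc]
    constructor
    · rintro ⟨h, hp⟩
      by_cases hx : x ≤ N
      · exact Or.inl ⟨⟨h.1, hx⟩, hp⟩
      · exact Or.inr ⟨⟨by omega, h.2⟩, hp⟩
    · rintro (⟨h, hp⟩ | ⟨h, hp⟩)
      · exact ⟨⟨h.1, by omega⟩, hp⟩
      · exact ⟨⟨by omega, h.2⟩, hp⟩
  have h2 : Disjoint ((Ioc 0 N).filter Nat.Prime) ((Ioc N (2 * N)).filter Nat.Prime) := by
    rw [disjoint_left]
    intro x hx hx'
    simp only [mem_filter, mem_Ioc] at hx hx'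
    omega
  rw [h1, sum_union h2]
  ring

end ChbL

open ChbL

theorem chb : S_CHB := by
  obtain ⟨N₁, h1⟩ := pnt_eps (1 / 8) (by norm_num)
  obtain ⟨N₂, h2⟩ := sqrt_log
  constructor
  · refine ⟨1 / 8, by norm_num, max (max N₁ N₂) 1, fun k hk => ?_⟩
    have hk1 : N₁ ≤ k := le_trans (le_trans (le_max_left _ _) (le_max_left _ _)) hk
    have hk2 : N₂ ≤ k := le_trans (le_trans (le_max_right _ _) (le_max_left _ _)) hk
    have hk3 : 1 ≤ k := le_trans (le_max_right _ _) hk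
    obtain ⟨N, hN⟩ : ∃ N, N = 2 ^ k := ⟨_, rfl⟩
    have hkN : k < N := by rw [hN]; exact Nat.lt_two_pow_self
    have e : 2 ^ (k + 1) = 2 * N := by rw [hN, pow_succ]; ring
    rw [e, ← hN]
    have hN0 : (0 : ℝ) < N := by exact_mod_cast (by omega : 0 < N)
    have a1 := h1 N (by omega)
    have a2 := h1 (2 * N) (by omega)
    have a3 := h2 (2 * N) (by omega)
    rw [lam1_eq, abs_le] at a1 a2
    have a4 := Chebyshev.psi_sub_theta_le (x := ((2 * N : ℕ) : ℝ)) (by exact_mod_cast (by omega))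
    have a5 := Chebyshev.theta_le_psi (N : ℝ)
    have a6 := theta_block N
    have e2 : ((2 * N : ℕ) : ℝ) = 2 * N := by push_cast; ring
    have a7 : (N : ℝ) / 2 ≤ ∑ p ∈ (Ioc N (2 * N)).filter Nat.Prime, Real.log p := by
      rw [← a6]
      rw [e2] at a2 a3 a4 ⊢
      linarith [a1.2, a2.1]
    have hlog : Real.log ((2 * N : ℕ) : ℝ) = (k + 1) * Real.log 2 := by
      rw [← e]
      push_cast
      rw [Real.log_pow]
      push_cast
      ring
    have hl2 : 0 < Real.log 2 := Real.log_pos (by norm_num)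
    have hk0 : (1 : ℝ) ≤ k := by exact_mod_cast hk3
    have hL : 0 < Real.log ((2 * N : ℕ) : ℝ) := by rw [hlog]; positivity
    have a8 : ∑ p ∈ (Ioc N (2 * N)).filter Nat.Prime, Real.log p ≤
        (2 * N * Real.log ((2 * N : ℕ) : ℝ)) *
          ∑ p ∈ (Ioc N (2 * N)).filter Nat.Prime, 1 / (p : ℝ) := by
      rw [mul_sum]
      refine sum_le_sum fun p hp => ?_
      rw [mem_filter, mem_Ioc] at hp
      have hp0 : (0 : ℝ) < p := by exact_mod_cast (by omega : 0 < p)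
      have hp1 : (p : ℝ) ≤ ((2 * N : ℕ) : ℝ) := by exact_mod_cast hp.1.2
      have b1 : Real.log p ≤ Real.log ((2 * N : ℕ) : ℝ) := Real.log_le_log hp0 hp1
      rw [mul_one_div, le_div_iff₀ hp0]
      rw [e2] at hp1
      have b2 : 0 ≤ Real.log p := Real.log_nonneg (by exact_mod_cast hp.2.one_lt.le)
      calc Real.log p * p ≤ Real.log ((2 * N : ℕ) : ℝ) * (2 * N) :=
            mul_le_mul b1 hp1 hp0.le hL.le
        _ = _ := by ring
    obtain ⟨S, hS⟩ : ∃ S, S = ∑ p ∈ (Ioc N (2 * N)).filter Nat.Prime, 1 / (p : ℝ) := ⟨_, rfl⟩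
    rw [← hS] at a8 ⊢
    rw [hlog] at a8
    have a9 : (N : ℝ) / 2 ≤ (2 * N * ((k + 1) * Real.log 2)) * S := a7.trans a8
    have hl2' := Real.log_two_lt_d9
    have hS0 : 0 ≤ S := by
      rw [hS]
      exact sum_nonneg fun _ _ => by positivity
    rw [div_le_iff₀ (by linarith)]
    have b3 : 1 / 2 * N ≤ 2 * ((k + 1) * Real.log 2) * S * N := by linarith
    have b4 : 1 / 2 ≤ 2 * ((k + 1) * Real.log 2) * S := le_of_mul_le_mul_right b3 hN0
    have b5 : ((k : ℝ) + 1) * Real.log 2 ≤ 2 * k := by nlinarith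
    have b6 : 2 * ((k + 1) * Real.log 2) * S ≤ 2 * (2 * k) * S := by
      apply mul_le_mul_of_nonneg_right _ hS0
      linarith
    linarith
  · refine ⟨N₁ + 1, fun N hN => ?_⟩
    rw [lam_block]
    have a1 := h1 N (by omega)
    have a2 := h1 (2 * N) (by omega)
    rw [abs_le] at a1 a2
    have e2 : ((2 * N : ℕ) : ℝ) = 2 * N := by push_cast; ring
    rw [e2] at a2
    have hN0 : (0 : ℝ) ≤ N := Nat.cast_nonneg _
    linarith [a1.1, a2.2]

end Pool.Agent.Helper44K9.FU
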