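import Pool.Agent.Helper44K9.FU.Stm

/-! [DIL] dilation of doubly logarithmic sums. -/

set_option autoImplicit false

namespace Pool.Agent.Helper44K9.FU

open Finset

namespace DilL

/-- logarithmic sums and division by `p` -/
theorem sum_div_le (p : ℕ) (hp : 1 ≤ p) (g : ℕ → ℝ) (hg : ∀ m, 0 ≤ g m) (S T : Finset ℕ)
    (hS : ∀ n ∈ S, p ≤ n ∧ n / p ∈ T) :
    ∑ n ∈ S, (1 / (n : ℝ)) * g (n / p) ≤ ∑ m ∈ T, (1 / (m : ℝ)) * g m := by
  have h1 : ∑ n ∈ S, (1 / (n : ℝ)) * g (n / p) =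
      ∑ m ∈ T, ∑ n ∈ S.filter (fun n => n / p = m), (1 / (n : ℝ)) * g (n / p) :=
    (Finset.sum_fiberwise_of_maps_to (fun n hn => (hS n hn).2) _).symm
  rw [h1]
  refine Finset.sum_le_sum fun m _ => ?_
  have h2 : ∀ n ∈ S.filter (fun n => n / p = m), (1 / (n : ℝ)) * g (n / p) ≤
      (1 / ((m : ℝ) * p)) * g m := by
    intro n hn
    obtain ⟨h3, h4⟩ := Finset.mem_filter.1 hn
    have h5 := (hS n h3).1
    subst h4
    have h6 : 1 ≤ n / p := (Nat.one_le_div_iff hp).2 h5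
    have h7 : (((n / p) * p : ℕ) : ℝ) ≤ n := by exact_mod_cast Nat.div_mul_le_self n p
    push_cast at h7
    have h8 : (0 : ℝ) < ((n / p : ℕ) : ℝ) * p := by
      have h9 : 0 < (n / p) * p := Nat.mul_pos h6 hp
      exact_mod_cast h9
    exact mul_le_mul_of_nonneg_right (one_div_le_one_div_of_le h8 h7) (hg _)
  refine (Finset.sum_le_card_nsmul _ _ _ h2).trans ?_
  have h3 : (S.filter (fun n => n / p = m)).card ≤ p := by
    have h4 : S.filter (fun n => n / p = m) ⊆ Finset.Ico (m * p) (m * p + p) := by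
      intro n hn
      obtain ⟨-, h5⟩ := Finset.mem_filter.1 hn
      rw [Finset.mem_Ico]
      subst h5
      exact ⟨Nat.div_mul_le_self n p, Nat.lt_div_mul_add (by omega)⟩
    refine (Finset.card_le_card h4).trans ?_
    rw [Nat.card_Ico]
    omega
  rw [nsmul_eq_mul]
  have h5 : 0 ≤ (1 / ((m : ℝ) * p)) * g m := mul_nonneg (by positivity) (hg m)
  refine (mul_le_mul_of_nonneg_right (by exact_mod_cast h3 : ((S.filter
    (fun n => n / p = m)).card : ℝ) ≤ p) h5).trans (le_of_eq ?_)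
  have h6 : (p : ℝ) ≠ 0 := by
    have : p ≠ 0 := by omega
    exact_mod_cast this
  rcases eq_or_ne (m : ℝ) 0 with h7 | h7
  · rw [h7]; simp
  · field_simp

theorem inv_succ_le_log {k : ℕ} (hk : 1 ≤ k) : 1 / ((k : ℝ) + 1) ≤ Real.log ((k + 1 : ℝ) / k) := by
  have hk0 : (0 : ℝ) < k := by exact_mod_cast hk
  have h1 := Real.one_sub_inv_le_log_of_pos (show (0 : ℝ) < (k + 1 : ℝ) / k by positivity)
  refine le_trans (le_of_eq ?_) h1
  field_simp
  ring

/-- logarithmic sums between `a` and `b` -/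
theorem sum_Ico_le {a b : ℕ} (ha : 1 ≤ a) (hab : a ≤ b) :
    ∑ k ∈ Finset.Ico (a + 1) (b + 1), 1 / (k : ℝ) ≤ Real.log (b / a) := by
  have ha0 : (0 : ℝ) < a := by exact_mod_cast ha
  induction b, hab using Nat.le_induction with
  | base =>
    rw [Finset.Ico_self, Finset.sum_empty, div_self ha0.ne', Real.log_one]
  | succ b hab ih =>
    have hb0 : (0 : ℝ) < b := lt_of_lt_of_le ha0 (by exact_mod_cast hab)
    rw [Finset.sum_Ico_succ_top (by omega)]
    have h1 := inv_succ_le_log (ha.trans hab)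
    have h2 : Real.log (((b + 1 : ℕ) : ℝ) / a) = Real.log (b / a) +
        Real.log ((b + 1 : ℝ) / b) := by
      rw [← Real.log_mul (by positivity) (by positivity)]
      congr 1
      push_cast
      field_simp
    rw [h2]
    push_cast at h1 ⊢
    linarith

/-- the inner sum -/
theorem inner_le (p N : ℕ) (hp : 1 ≤ p) (R : ℝ) (g : ℕ → ℝ) (hg : ∀ m, 0 ≤ g m ∧ g m ≤ R) :
    ∑ n ∈ Icc 1 N, (1 / (n : ℝ)) * g (n / p) ≤
      ∑ n ∈ Icc 1 N, (1 / (n : ℝ)) * g n + R * (1 + Real.log p) := by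
  have hR : 0 ≤ R := (hg 0).1.trans (hg 0).2
  have h1 : ∑ n ∈ Icc 1 N, (1 / (n : ℝ)) * g (n / p) =
      ∑ n ∈ (Icc 1 N).filter (fun n => p ≤ n), (1 / (n : ℝ)) * g (n / p) +
      ∑ n ∈ (Icc 1 N).filter (fun n => ¬ p ≤ n), (1 / (n : ℝ)) * g (n / p) :=
    (Finset.sum_filter_add_sum_filter_not _ _ _).symm
  rw [h1]
  refine add_le_add ?_ ?_
  · refine sum_div_le p hp g (fun m => (hg m).1) _ _ fun n hn => ?_
    obtain ⟨h2, h3⟩ := Finset.mem_filter.1 hn
    rw [Finset.mem_Icc] at h2 ⊢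
    exact ⟨h3, (Nat.one_le_div_iff hp).2 h3, (Nat.div_le_self n p).trans h2.2⟩
  · have h2 : ∑ n ∈ (Icc 1 N).filter (fun n => ¬ p ≤ n), (1 / (n : ℝ)) * g (n / p) ≤
        ∑ n ∈ Icc 1 p, (1 / (n : ℝ)) * R := by
      refine (Finset.sum_le_sum fun n _ => mul_le_mul_of_nonneg_left (hg (n / p)).2
        (by positivity)).trans ?_
      refine Finset.sum_le_sum_of_subset_of_nonneg ?_ fun n _ _ => by positivity
      intro n hn
      obtain ⟨h2, h3⟩ := Finset.mem_filter.1 hn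
      rw [Finset.mem_Icc] at h2 ⊢
      omega
    refine h2.trans ?_
    rw [← Finset.sum_mul, mul_comm]
    refine mul_le_mul_of_nonneg_left ?_ hR
    have h3 := sum_Ico_le (le_refl 1) hp
    have h4 : Finset.Icc 1 p = insert 1 (Finset.Ico (1 + 1) (p + 1)) := by
      ext n
      simp only [Finset.mem_Icc, Finset.mem_insert, Finset.mem_Ico]
      omega
    rw [h4, Finset.sum_insert (by simp)]
    simpa using h3

/-- the outer sum -/
theorem outer_le (p H₁ H₂ : ℕ) (hp : 1 ≤ p) (hH : 2 * p ≤ H₁) (h12 : H₁ ≤ H₂) (R : ℝ)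
    (g : ℕ → ℝ) (hg : ∀ m, 0 ≤ g m ∧ g m ≤ R) :
    ∑ H ∈ Ico H₁ H₂, (1 / (H : ℝ)) * g (H / p) ≤
      ∑ H ∈ Ico H₁ H₂, (1 / (H : ℝ)) * g H + R * (2 + Real.log p) := by
  have hR : 0 ≤ R := (hg 0).1.trans (hg 0).2
  have ha : 2 ≤ H₁ / p := (Nat.le_div_iff_mul_le hp).2 (by omega)
  have hle : H₁ / p ≤ H₁ := Nat.div_le_self _ _
  have h1 : ∑ H ∈ Ico H₁ H₂, (1 / (H : ℝ)) * g (H / p) ≤
      ∑ h ∈ Ico (H₁ / p) H₂, (1 / (h : ℝ)) * g h := by
    refine sum_div_le p hp g (fun m => (hg m).1) _ _ fun n hn => ?_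
    rw [Finset.mem_Ico] at hn ⊢
    exact ⟨by omega, Nat.div_le_div_right hn.1, (Nat.div_le_self n p).trans_lt hn.2⟩
  refine h1.trans ?_
  rw [← Finset.sum_Ico_consecutive _ hle h12, add_comm]
  refine add_le_add le_rfl ?_
  refine (Finset.sum_le_sum fun n _ => mul_le_mul_of_nonneg_left (hg n).2
    (show (0 : ℝ) ≤ 1 / (n : ℝ) by positivity)).trans ?_
  rw [← Finset.sum_mul, mul_comm]
  refine mul_le_mul_of_nonneg_left ?_ hR
  -- `∑ 1 / h ≤ 2 + log p`
  obtain ⟨a, ha'⟩ : ∃ a, H₁ / p = a + 1 := ⟨H₁ / p - 1, by omega⟩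
  obtain ⟨b, hb'⟩ : ∃ b, H₁ = b + 1 := ⟨H₁ - 1, by omega⟩
  have ha1 : 1 ≤ a := by omega
  have hab : a ≤ b := by omega
  have h2 := sum_Ico_le ha1 hab
  have h3 : Finset.Ico (H₁ / p) H₁ = Finset.Ico (a + 1) (b + 1) := by rw [ha', hb']
  rw [h3]
  refine h2.trans ?_
  have ha0 : (0 : ℝ) < a := by exact_mod_cast ha1
  have hb0 : (0 : ℝ) < b := lt_of_lt_of_le ha0 (by exact_mod_cast hab)
  have hp0 : (0 : ℝ) < p := by exact_mod_cast hp
  have h4 : b + 1 < (a + 2) * p := by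
    have h5 := Nat.lt_div_mul_add hp (a := H₁)
    rw [ha', ← hb'] at *
    nlinarith
  have h6 : (b : ℝ) / a ≤ 3 * p := by
    rw [div_le_iff₀ ha0]
    have h7 : b ≤ 3 * p * a := by nlinarith
    exact_mod_cast h7
  have h8 : Real.log (b / a) ≤ Real.log (3 * p) := Real.log_le_log (by positivity) h6
  rw [Real.log_mul (by norm_num) hp0.ne'] at h8
  have h9 : Real.log 3 ≤ 2 := by
    have := Real.log_le_sub_one_of_pos (show (0 : ℝ) < 3 by norm_num)
    linarith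
  linarith

end DilL

open DilL

/-- [DIL] -/
theorem dil_ : S_DIL := by
  intro p H₁ H₂ N R F hp hH h12 hF
  have hR : 0 ≤ R := (hF 0 0).1.trans (hF 0 0).2
  have hlog : 0 ≤ Real.log p := Real.log_nonneg (by exact_mod_cast hp)
  set SH : ℝ := ∑ H ∈ Ico H₁ H₂, 1 / (H : ℝ) with hSH
  set SN : ℝ := ∑ n ∈ Icc 1 N, 1 / (n : ℝ) with hSN
  have hSH0 : 0 ≤ SH := Finset.sum_nonneg fun _ _ => by positivity
  have hSN0 : 0 ≤ SN := Finset.sum_nonneg fun _ _ => by positivity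
  have h1 : MM H₁ H₂ N (fun n H => F (n / p) (H / p)) ≤
      ∑ H ∈ Ico H₁ H₂, (1 / (H : ℝ)) * (∑ n ∈ Icc 1 N, (1 / (n : ℝ)) * F n (H / p) +
        R * (1 + Real.log p)) := by
    unfold MM
    exact Finset.sum_le_sum fun H _ => mul_le_mul_of_nonneg_left
      (inner_le p N hp R (fun n => F n (H / p)) (fun n => hF n (H / p))) (by positivity)
  have h2 : ∑ H ∈ Ico H₁ H₂, (1 / (H : ℝ)) * (∑ n ∈ Icc 1 N, (1 / (n : ℝ)) * F n (H / p) +
        R * (1 + Real.log p)) =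
      ∑ H ∈ Ico H₁ H₂, (1 / (H : ℝ)) * (fun h => ∑ n ∈ Icc 1 N, (1 / (n : ℝ)) * F n h) (H / p) +
        SH * (R * (1 + Real.log p)) := by
    rw [hSH, Finset.sum_mul, ← Finset.sum_add_distrib]
    exact Finset.sum_congr rfl fun H _ => by ring
  have h3 := outer_le p H₁ H₂ hp hH h12 (R * SN)
    (fun h => ∑ n ∈ Icc 1 N, (1 / (n : ℝ)) * F n h) (fun h => ⟨Finset.sum_nonneg fun n _ =>
      mul_nonneg (by positivity) (hF n h).1, by
        rw [hSN, Finset.mul_sum]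
        refine Finset.sum_le_sum fun n _ => ?_
        rw [mul_comm]
        exact mul_le_mul_of_nonneg_right (hF n h).2 (by positivity)⟩)
  rw [h2] at h1
  refine h1.trans ((add_le_add_left h3 _).trans ?_)
  change MM H₁ H₂ N F + R * SN * (2 + Real.log p) + SH * (R * (1 + Real.log p)) ≤
    MM H₁ H₂ N F + R * (4 + 2 * Real.log p) * (SH + SN)
  have e1 : 0 ≤ R * SN := mul_nonneg hR hSN0
  have e2 : 0 ≤ R * SH := mul_nonneg hR hSH0
  have e3 : 0 ≤ R * SN * (2 + Real.log p) := mul_nonneg e1 (by linarith)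
  have e4 : 0 ≤ R * SH * (3 + Real.log p) := mul_nonneg e2 (by linarith)
  nlinarith

end Pool.Agent.Helper44K9.FU
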