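import Pool.Agent.Helper44K9.FU.Wr
import Pool.Agent.H373R2.NB.Weyl

/-!
# Project FU, leaf WR: the inverse theorem for Weyl sums of real polynomials.
-/

set_option autoImplicit false

namespace Pool.Agent.Helper44K9.FU

open Finset Polynomial
open Pool.Agent.H373R2.NB (Ph IW IW_all)

/-- [WR] with explicit polynomial constants -/
def S_WR2 : Prop := ∀ d : ℕ, 1 ≤ d → ∃ c k : ℕ, 1 ≤ c ∧ ∀ u : ℕ, 1 ≤ u → ∀ (P : ℝ[X]) (n H : ℕ), P.natDegree ≤ d →
  1 ≤ H → (H : ℝ) ≤ u * ‖∑ m ∈ Ioc n (n + H), Pool.Agent.H807R2.Dav.ee (P.eval (m : ℝ))‖ →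
  ∃ m : ℕ, 1 ≤ m ∧ m ≤ c * u ^ k ∧ ∃ a : ℤ, |m * P.coeff d - a| ≤ ((c * u ^ k : ℕ) : ℝ) / (H : ℝ) ^ d


open WrL

theorem wr2 : S_WR2 := by
  intro d hd
  obtain ⟨c, k, hc, hI⟩ := IW_all d hd
  have hd1 : 1 ≤ d.factorial := Nat.factorial_pos d
  refine ⟨c * d.factorial, k, Nat.mul_pos hc hd1, ?_⟩
  intro u hu P n H hP hH hS
  have h1 : ∑ m ∈ Ioc n (n + H), Pool.Agent.H807R2.Dav.ee (P.eval (m : ℝ)) =
      ∑ i ∈ range H, Pool.Agent.Helper602.MK.ee ((taylor ((n : ℝ) + 1) P).eval (i : ℝ)) := by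
    have e : Ioc n (n + H) = Ico (n + 1) (n + 1 + H) := by
      ext x
      rw [mem_Ioc, mem_Ico]
      omega
    rw [e, Finset.sum_Ico_eq_sum_range]
    have e2 : n + 1 + H - (n + 1) = H := by omega
    rw [e2]
    refine sum_congr rfl fun i _ => ?_
    rw [ee_eq, taylor_eval]
    congr 2
    push_cast
    ring
  rw [h1] at hS
  have hdeg : (taylor ((n : ℝ) + 1) P).natDegree ≤ d := by rw [natDegree_taylor]; exact hP
  have hcoef : (taylor ((n : ℝ) + 1) P).coeff d = P.coeff d := by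
    rw [taylor_coeff]
    have h2 : (hasseDeriv d P).natDegree < 1 := by
      have := natDegree_hasseDeriv_le P d
      omega
    rw [eval_eq_sum_range' h2, sum_range_one, hasseDeriv_coeff]
    simp
  obtain ⟨q, hq1, hq2, a, ha⟩ := hI H u _ _ hH (by exact_mod_cast hu) (ph_real d _ hdeg) hS
  rw [hcoef] at ha
  have hq3 : q ≤ c * u ^ k := by exact_mod_cast hq2
  refine ⟨q * d.factorial, Nat.mul_pos hq1 hd1, ?_, a, ?_⟩
  · calc q * d.factorial ≤ (c * u ^ k) * d.factorial := Nat.mul_le_mul_right _ hq3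
      _ = c * d.factorial * u ^ k := by ring
  · have e : (((q * d.factorial : ℕ) : ℝ)) * P.coeff d = q * ((d.factorial : ℝ) * P.coeff d) := by
      push_cast; ring
    rw [e]
    refine ha.trans ?_
    apply div_le_div_of_nonneg_right _ (by positivity)
    push_cast
    have h1 : (1 : ℝ) ≤ (d.factorial : ℝ) := by exact_mod_cast hd1
    have h2 : (0 : ℝ) ≤ c * (u : ℝ) ^ k := by positivity
    nlinarith

end Pool.Agent.Helper44K9.FU
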