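import Pool.Agent.Helper44K9.FU.Bes
import Pool.Agent.Helper44K9.FU.Wr2

/-!
# Project FU, leaf BES: at most `R` unrelated phases correlate with a bounded function.
-/

set_option autoImplicit false

namespace Pool.Agent.Helper44K9.FU

open Finset Polynomial
open Pool.Agent.H807R2.Dav (ee norm_ee ee_add)

/-- [BES] with explicit polynomial constants -/
def S_BES2 : Prop := ∀ d : ℕ, 1 ≤ d → ∃ c k : ℕ, 1 ≤ c ∧ ∀ T : ℕ, 1 ≤ T → ∀ f : ℕ → ℂ, (∀ n, ‖f n‖ ≤ 1) →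
  ∀ (n H r : ℕ) (P : Fin r → ℝ[X]), 1 ≤ H → (∀ i, (P i).natDegree ≤ d) →
  (∀ i, 1 / (T : ℝ) * H ≤ ‖W f (P i) n H‖) →
  (∀ i j, i ≠ j → ¬ Rel d (c * T ^ k) H ((P i).coeff d) ((P j).coeff d)) → r ≤ 2 * T ^ 2


open BesL

theorem bes2 (hWR : S_WR2) : S_BES2 := by
  intro d hd
  obtain ⟨c₀, k₀, hc₀, hK₀⟩ := hWR d hd
  refine ⟨c₀ * 2 ^ k₀, 2 * k₀, Nat.mul_pos hc₀ (by positivity), ?_⟩
  intro T hT f hf n H r P hH hP hW hrel
  have hTr : (0 : ℝ) < T := by exact_mod_cast hT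
  set t : ℝ := 1 / (T : ℝ) with ht0
  have ht : 0 < t := by positivity
  have hK : ∀ (P : ℝ[X]) (n H : ℕ), P.natDegree ≤ d → 1 ≤ H →
      (H : ℝ) ≤ max 1 (2 / t ^ 2) * ‖∑ m ∈ Ioc n (n + H), ee (P.eval (m : ℝ))‖ →
      ∃ m : ℕ, 1 ≤ m ∧ m ≤ c₀ * 2 ^ k₀ * T ^ (2 * k₀) ∧ ∃ a : ℤ,
        |m * P.coeff d - a| ≤ ((c₀ * 2 ^ k₀ * T ^ (2 * k₀) : ℕ) : ℝ) / (H : ℝ) ^ d := by
    intro P n H hP hH hS
    have e1 : c₀ * 2 ^ k₀ * T ^ (2 * k₀) = c₀ * (2 * T ^ 2) ^ k₀ := by rw [mul_pow, pow_mul]; ring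
    rw [e1]
    refine hK₀ (2 * T ^ 2) (by have : 0 < T ^ 2 := by positivity
                               omega) P n H hP hH (hS.trans ?_)
    refine mul_le_mul_of_nonneg_right (max_le ?_ ?_) (norm_nonneg _)
    · have : 1 ≤ 2 * T ^ 2 := by
        have : 0 < T ^ 2 := by positivity
        omega
      exact_mod_cast this
    · rw [ht0]
      push_cast
      apply le_of_eq
      field_simp
  have hH0 : (0 : ℝ) < H := by exact_mod_cast hH
  -- off the diagonal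
  have hoff : ∀ i j, i ≠ j → ‖∑ m ∈ Ioc n (n + H), ee ((P i).eval (m : ℝ) - (P j).eval (m : ℝ))‖ ≤
      t ^ 2 / 2 * H := by
    intro i j hij
    by_contra hcon
    push Not at hcon
    apply hrel i j hij
    have h1 := hK (P i - P j) n H ((natDegree_sub_le _ _).trans (max_le (hP i) (hP j))) hH (by
      have e : ∀ m : ℕ, (P i - P j).eval (m : ℝ) = (P i).eval (m : ℝ) - (P j).eval (m : ℝ) :=
        fun m => eval_sub _ _ _
      simp only [e]
      have h2 : (2 / t ^ 2) * (t ^ 2 / 2 * H) = H := by field_simp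
      have h3 : (0 : ℝ) < 2 / t ^ 2 := by positivity
      calc (H : ℝ) = (2 / t ^ 2) * (t ^ 2 / 2 * H) := h2.symm
        _ ≤ (2 / t ^ 2) * ‖∑ m ∈ Ioc n (n + H), ee ((P i).eval (m : ℝ) - (P j).eval (m : ℝ))‖ :=
          mul_le_mul_of_nonneg_left hcon.le h3.le
        _ ≤ _ := mul_le_mul_of_nonneg_right (le_max_right _ _) (norm_nonneg _))
    rw [coeff_sub] at h1
    exact h1
  have hdiag : ∀ i, ‖∑ m ∈ Ioc n (n + H), ee ((P i).eval (m : ℝ) - (P i).eval (m : ℝ))‖ ≤ H := by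
    intro i
    refine (norm_sum_le _ _).trans ?_
    simp [norm_ee]
  have hgram : ∑ i, ∑ j, ‖∑ m ∈ Ioc n (n + H), ee ((P i).eval (m : ℝ) - (P j).eval (m : ℝ))‖ ≤
      r * H + (r : ℝ) ^ 2 * (t ^ 2 / 2 * H) := by
    calc _ ≤ ∑ i : Fin r, ∑ j : Fin r, ((if i = j then (H : ℝ) else 0) + t ^ 2 / 2 * H) := by
          refine sum_le_sum fun i _ => sum_le_sum fun j _ => ?_
          have h0 : (0 : ℝ) ≤ t ^ 2 / 2 * H := by positivity
          by_cases hij : i = j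
          · subst hij
            rw [if_pos rfl]
            linarith [hdiag i]
          · rw [if_neg hij, zero_add]
            exact hoff i j hij
      _ = _ := by
          simp only [sum_add_distrib, sum_ite_eq, mem_univ, if_true, sum_const, card_univ,
            Fintype.card_fin, nsmul_eq_mul]
          ring
  obtain ⟨c, hc⟩ : ∃ c : Fin r → ℂ, c = fun i => (starRingEnd ℂ) (W f (P i) n H) /
    (‖W f (P i) n H‖ : ℂ) := ⟨_, rfl⟩
  have hWpos : ∀ i, 0 < ‖W f (P i) n H‖ := fun i => lt_of_lt_of_le (by positivity) (hW i)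
  have hc1 : ∀ i, ‖c i‖ ≤ 1 := by
    intro i
    rw [hc]
    simp only [norm_div, RCLike.norm_conj, Complex.norm_real, norm_norm]
    rw [div_self (hWpos i).ne']
  have hcW : ∀ i, c i * W f (P i) n H = (‖W f (P i) n H‖ : ℂ) := by
    intro i
    rw [hc]
    have h1 : (‖W f (P i) n H‖ : ℂ) ≠ 0 := by
      exact_mod_cast (hWpos i).ne'
    simp only
    rw [div_mul_eq_mul_div, div_eq_iff h1, mul_comm, Complex.mul_conj', pow_two]
  have hsum : ∑ m ∈ Ioc n (n + H), f m * (∑ i, c i * ee ((P i).eval (m : ℝ))) =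
      ((∑ i, ‖W f (P i) n H‖ : ℝ) : ℂ) := by
    push_cast
    rw [sum_congr rfl fun i _ => (hcW i).symm]
    simp only [mul_sum]
    rw [sum_comm]
    refine sum_congr rfl fun i _ => ?_
    unfold W
    rw [mul_sum]
    refine sum_congr rfl fun m _ => ?_
    ring
  have h5 := cs (Ioc n (n + H)) f (fun m => ∑ i, c i * ee ((P i).eval (m : ℝ))) hf
  rw [hsum, Complex.norm_real, Real.norm_eq_abs, sq_abs, Nat.card_Ioc, Nat.add_sub_cancel_left]
    at h5
  have h6 := gram (Ioc n (n + H)) r c hc1 (fun i m => (P i).eval (m : ℝ))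
  have h7 : (r : ℝ) * (t * H) ≤ ∑ i, ‖W f (P i) n H‖ := by
    calc (r : ℝ) * (t * H) = ∑ _i : Fin r, t * H := by
          rw [sum_const, card_univ, Fintype.card_fin, nsmul_eq_mul]
      _ ≤ _ := sum_le_sum fun i _ => hW i
  have h8 : ((r : ℝ) * (t * H)) ^ 2 ≤ H * (r * H + (r : ℝ) ^ 2 * (t ^ 2 / 2 * H)) := by
    calc ((r : ℝ) * (t * H)) ^ 2 ≤ (∑ i, ‖W f (P i) n H‖) ^ 2 :=
          pow_le_pow_left₀ (by positivity) h7 2
      _ ≤ _ := h5
      _ ≤ _ := mul_le_mul_of_nonneg_left (h6.trans hgram) hH0.le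
  have h9 : (r : ℝ) ≤ 2 / t ^ 2 := by
    rcases Nat.eq_zero_or_pos r with h0 | h0
    · rw [h0, Nat.cast_zero]
      positivity
    · have hr0 : (0 : ℝ) < r := by exact_mod_cast h0
      rw [le_div_iff₀ (by positivity)]
      have h10 : (r : ℝ) * t ^ 2 * (r * (H : ℝ) ^ 2) ≤ 2 * (r * (H : ℝ) ^ 2) := by nlinarith
      exact le_of_mul_le_mul_right h10 (by positivity)
  have h11 : (r : ℝ) ≤ ((2 * T ^ 2 : ℕ) : ℝ) := by
    refine h9.trans (le_of_eq ?_)
    rw [ht0]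
    push_cast
    field_simp
  exact_mod_cast h11

end Pool.Agent.Helper44K9.FU
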