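import Pool.Agent.Helper44K9.FU.Trig

/-!
# [TRIG] trigonometric majorants (helper38)
-/

set_option autoImplicit false

namespace Pool.Agent.Helper44K9.FU

open Finset MeasureTheory AddCircle
open Pool.Agent.H807R2.Dav (ee)

/-- [TRIG] with explicit measure -/
def S_TRIG2 : Prop := ∀ K : ℕ, 1 ≤ K → ∀ c : ℝ, 0 < c → ∀ E : Set UnitAddCircle, IsCompact E →
  volume E ≤ ENNReal.ofReal (c / (8 * ((K : ℝ) + 1) ^ 2)) → ∃ (S : Finset ℤ) (a : ℤ → ℂ) (τ : ℝ), 0 < τ ∧ 0 ∈ S ∧
    (∀ x : ℝ, 0 ≤ (∑ j ∈ S, a j * ee (j * x)).re) ∧ (a 0).re ≤ c ∧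
    ∀ x β : ℝ, (β : UnitAddCircle) ∈ E → ∀ m : ℕ, 1 ≤ m → m ≤ K → ∀ b : ℤ, |m * (β - x) - b| ≤ τ →
      1 ≤ (∑ j ∈ S, a j * ee (j * x)).re


open TrigL in
theorem trig2 : S_TRIG2 := by
  classical
  have : Fact ((0 : ℝ) < 1) := ⟨zero_lt_one⟩
  intro K hK c hc E hE hvol
  have hK0 : (0 : ℝ) < ((K : ℝ) + 1) ^ 2 := by positivity
  -- the translates
  obtain ⟨E', hE'⟩ : ∃ E' : Set UnitAddCircle, E' = ⋃ q ∈ range (K + 1) ×ˢ range (K + 1),
      (fun z : UnitAddCircle => z + ((-((q.2 : ℝ) / q.1) : ℝ) : UnitAddCircle)) ⁻¹' E := ⟨_, rfl⟩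
  have hcl : IsClosed E' := by
    rw [hE']
    exact isClosed_biUnion_finset fun q _ => hE.isClosed.preimage (continuous_add_const _)
  have hvol' : volume E' ≤ ENNReal.ofReal (c / 8) := by
    rw [hE']
    refine (measure_biUnion_finset_le _ _).trans ?_
    have h1 : ∀ q ∈ range (K + 1) ×ˢ range (K + 1),
        volume ((fun z : UnitAddCircle => z + ((-((q.2 : ℝ) / q.1) : ℝ) : UnitAddCircle)) ⁻¹' E) ≤
          ENNReal.ofReal (c / (8 * ((K : ℝ) + 1) ^ 2)) := by
      intro q _
      rw [measure_preimage_add_right]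
      exact hvol
    refine (sum_le_sum h1).trans ?_
    rw [sum_const, card_product, card_range, nsmul_eq_mul, ← ENNReal.ofReal_natCast,
      ← ENNReal.ofReal_mul (Nat.cast_nonneg _)]
    apply ENNReal.ofReal_le_ofReal
    push_cast
    apply le_of_eq
    field_simp
  obtain ⟨U, hU1, hU2, hU3⟩ := Set.exists_isOpen_le_add E' volume
    (ε := ENNReal.ofReal (c / 8)) (by
      rw [ne_eq, ENNReal.ofReal_eq_zero, not_le]
      positivity)
  have hUv : (volume : Measure UnitAddCircle).real U ≤ c / 4 := by
    have h1 : volume U ≤ ENNReal.ofReal (c / 4) := by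
      refine hU3.trans ((add_le_add_left hvol' _).trans ?_)
      rw [← ENNReal.ofReal_add (by positivity) (by positivity)]
      apply ENNReal.ofReal_le_ofReal
      linarith
    exact ENNReal.toReal_le_of_le_ofReal (by positivity) h1
  obtain ⟨g, hg0, hg1, hg⟩ := exists_continuous_zero_one_of_isClosed hU2.isClosed_compl hcl
    (Set.disjoint_compl_left_iff_subset.2 hU1)
  -- the trigonometric polynomial
  obtain ⟨G, hG⟩ : ∃ G : C(UnitAddCircle, ℂ), ∀ z, G z = ((2 * g z : ℝ) : ℂ) :=
    ⟨⟨fun z => ((2 * g z : ℝ) : ℂ), by fun_prop⟩, fun z => rfl⟩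
  obtain ⟨a, ha⟩ := approx G (c / 8) (by positivity)
  obtain ⟨p, hp⟩ : ∃ p : UnitAddCircle → ℝ, p = fun z => (∑ j ∈ a.support, a j * fourier j z).re :=
    ⟨_, rfl⟩
  have hpg : ∀ z, |p z - 2 * g z| ≤ c / 8 := by
    intro z
    have h1 := ha z
    rw [hG] at h1
    have h2 := Complex.abs_re_le_norm (∑ j ∈ a.support, a j * fourier j z - ((2 * g z : ℝ) : ℂ))
    rw [Complex.sub_re, Complex.ofReal_re] at h2
    rw [hp]
    exact h2.trans h1
  have hpc : Continuous p := by
    rw [hp]
    exact Complex.continuous_re.comp (continuous_finsetSum _ fun j _ =>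
      (ContinuousMap.continuous (fourier j)).const_mul (a j))
  -- the mean
  have ha0 : (a 0).re ≤ c / 2 + c / 8 := by
    have h1 := mean a
    have hint : Integrable (fun z : UnitAddCircle => ∑ j ∈ a.support, a j * fourier j z) volume :=
      (continuous_finsetSum _ fun j _ =>
        (ContinuousMap.continuous (fourier j)).const_mul (a j)).integrable_of_hasCompactSupport
        (HasCompactSupport.of_compactSpace _)
    have h2 : (a 0).re = ∫ z : UnitAddCircle, p z := by
      rw [← h1, hp]
      exact (integral_re hint).symm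
    have hpi : Integrable p volume :=
      hpc.integrable_of_hasCompactSupport (HasCompactSupport.of_compactSpace _)
    have hgi : Integrable (fun z : UnitAddCircle => U.indicator (fun _ => (2 : ℝ)) z + c / 8) volume :=
      ((integrable_const (2 : ℝ)).indicator hU2.measurableSet).add (integrable_const _)
    have h3 : ∫ z : UnitAddCircle, p z ≤
        ∫ z : UnitAddCircle, (U.indicator (fun _ => (2 : ℝ)) z + c / 8) := by
      refine integral_mono hpi hgi fun z => ?_
      have h4 := (abs_le.1 (hpg z)).2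
      show p z ≤ U.indicator (fun _ => (2 : ℝ)) z + c / 8
      by_cases hz : z ∈ U
      · rw [Set.indicator_of_mem hz]
        have := (hg z).2
        linarith
      · rw [Set.indicator_of_notMem hz]
        have h5 : g z = 0 := hg0 hz
        rw [h5] at h4
        linarith
    have h4 : ∫ z : UnitAddCircle, (U.indicator (fun _ => (2 : ℝ)) z + c / 8) =
        2 * (volume : Measure UnitAddCircle).real U + c / 8 := by
      rw [integral_add ((integrable_const (2 : ℝ)).indicator hU2.measurableSet) (integrable_const _),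
        integral_indicator_const _ hU2.measurableSet, integral_const, smul_eq_mul, smul_eq_mul]
      have h5 : (volume : Measure UnitAddCircle).real Set.univ = 1 := by
        rw [measureReal_def, UnitAddCircle.measure_univ, ENNReal.toReal_one]
      rw [h5]
      ring
    rw [h2]
    linarith
  -- uniform continuity
  have huc := CompactSpace.uniformContinuous_of_continuous hpc
  obtain ⟨τ, hτ, hτ2⟩ := Metric.uniformContinuous_iff.1 huc 1 one_pos
  -- the value at a real number
  obtain ⟨a', ha'⟩ : ∃ a' : ℤ → ℂ, a' = fun j => a j + if j = 0 then ((c / 8 : ℝ) : ℂ) else 0 :=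
    ⟨_, rfl⟩
  have hval : ∀ x : ℝ, (∑ j ∈ insert 0 a.support, a' j * ee (j * x)).re =
      p (x : UnitAddCircle) + c / 8 := by
    intro x
    have h1 : ∑ j ∈ insert 0 a.support, a' j * ee (j * x) =
        ∑ j ∈ a.support, a j * fourier j (x : UnitAddCircle) + ((c / 8 : ℝ) : ℂ) := by
      rw [ha']
      simp only [add_mul, sum_add_distrib]
      congr 1
      · symm
        refine (sum_subset (subset_insert 0 a.support) fun j _ hj => ?_).trans ?_
        · rw [Finsupp.notMem_support_iff.1 hj, zero_mul]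
        · exact sum_congr rfl fun j _ => by rw [ee_fourier]
      · rw [sum_eq_single 0]
        · rw [if_pos rfl, Int.cast_zero, zero_mul, Pool.Agent.H807R2.Dav.ee_zero, mul_one]
        · intro j _ hj
          rw [if_neg hj, zero_mul]
        · intro h
          exact absurd (mem_insert_self 0 _) h
    rw [h1, Complex.add_re, Complex.ofReal_re, hp]
  refine ⟨insert 0 a.support, a', τ / 2, by positivity, mem_insert_self 0 _, fun x => ?_, ?_, ?_⟩
  · rw [hval]
    have h1 := (abs_le.1 (hpg (x : UnitAddCircle))).1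
    have h2 := (hg (x : UnitAddCircle)).1
    linarith
  · rw [ha']
    simp only [if_true]
    rw [Complex.add_re, Complex.ofReal_re]
    linarith
  · intro x β hβ m hm1 hmK b hxb
    rw [hval]
    have hm0 : (0 : ℝ) < m := by exact_mod_cast hm1
    -- the nearby point
    obtain ⟨y, hy⟩ : ∃ y : ℝ, y = β - b / m := ⟨_, rfl⟩
    have hyE : (y : UnitAddCircle) ∈ E' := by
      rw [hE']
      -- the residue of `-b` modulo `m`
      have hmz : (0 : ℤ) < m := by exact_mod_cast hm1
      have hr0 := Int.emod_nonneg (-b) hmz.ne'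
      have hr1 := Int.emod_lt_of_pos (-b) hmz
      obtain ⟨r, hr⟩ := Int.eq_ofNat_of_zero_le hr0
      have hrm : r < m := by
        have : (r : ℤ) < m := by rw [← hr]; exact hr1
        exact_mod_cast this
      refine Set.mem_biUnion (x := (m, r)) (by
        simp only [coe_product, Set.mem_prod, mem_coe, mem_range]
        omega) ?_
      show (y : UnitAddCircle) + ((-((r : ℝ) / m) : ℝ) : UnitAddCircle) ∈ E
      have h1 : (y : ℝ) + -((r : ℝ) / m) = β + ((((-b) / m : ℤ)) : ℝ) := by
        have h2 := Int.emod_add_mul_ediv (-b) m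
        rw [hr] at h2
        have h3 : (r : ℝ) + m * (((-b) / m : ℤ) : ℝ) = -b := by exact_mod_cast h2
        rw [hy]
        have h4 : (r : ℝ) = -b - m * (((-b) / m : ℤ) : ℝ) := by linarith
        rw [h4]
        field_simp
        ring
      rw [← AddCircle.coe_add, h1, AddCircle.coe_add]
      have h2 : ((((-b) / m : ℤ) : ℝ) : UnitAddCircle) = 0 := by
        rw [AddCircle.coe_eq_zero_iff]
        exact ⟨(-b) / m, by simp⟩
      rw [h2, add_zero]
      exact hβ
    have h1 : dist (x : UnitAddCircle) (y : UnitAddCircle) < τ := by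
      rw [dist_eq_norm, ← AddCircle.coe_sub, UnitAddCircle.norm_eq]
      have h2 := round_le (x - y) 0
      rw [Int.cast_zero, sub_zero] at h2
      refine h2.trans_lt ?_
      have h3 : x - y = -(m * (β - x) - b) / m := by
        rw [hy]
        field_simp
        ring
      rw [h3, abs_div, abs_neg, abs_of_pos hm0]
      have h4 : |(m : ℝ) * (β - x) - b| / m ≤ |(m : ℝ) * (β - x) - b| := by
        apply div_le_self (abs_nonneg _)
        exact_mod_cast hm1
      linarith
    have h2 := hτ2 h1
    rw [Real.dist_eq] at h2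
    have h3 : g (y : UnitAddCircle) = 1 := hg1 hyE
    have h4 := (abs_le.1 (hpg (y : UnitAddCircle))).1
    rw [h3] at h4
    have h5 := (abs_lt.1 h2).1
    linarith

end Pool.Agent.Helper44K9.FU
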