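import Pool.Agent.Helper44K9.FU.Eq
import Pool.Agent.Helper44K9.FU.Trig2

/-! [EQ]: few `p^d α` are near a small set without rational points. -/

set_option autoImplicit false

namespace Pool.Agent.Helper44K9.FU

open Finset Polynomial MeasureTheory
open Pool.Agent.H807R2.Dav (ee norm_ee)

open Classical in
/-- [EQ] with explicit measure -/
def S_EQ2 : Prop := ∃ b : ℝ, 0 < b ∧ ∀ d K : ℕ, 1 ≤ d → 1 ≤ K → ∀ c : ℝ, 0 < c → ∀ E : Set UnitAddCircle,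
  IsCompact E → volume E ≤ ENNReal.ofReal (c * b / 12 / (8 * ((K : ℝ) + 1) ^ 2)) → (∀ x ∈ E, addOrderOf x = 0) →
  ∀ (z : ℕ) (A : ℝ), ∃ I : Finset ℕ, (∀ p ∈ I, p.Prime ∧ z < p) ∧ A ≤ ∑ p ∈ I, 1 / (p : ℝ) ∧ ∃ τ : ℝ, 0 < τ ∧
    ∀ α : ℝ, ∑ p ∈ I.filter (fun p : ℕ => ∃ β : ℝ, (β : UnitAddCircle) ∈ E ∧ ∃ m : ℕ, 1 ≤ m ∧ m ≤ K ∧ ∃ a : ℤ,
      |m * (β - (p : ℝ) ^ d * α) - a| ≤ τ), 1 / (p : ℝ) ≤ c * ∑ p ∈ I, 1 / (p : ℝ)


open EqL in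
theorem eq2 (hPW : S_PW) (hTR : S_TRIG2) (hKA : S_KAP) (hCH : S_CHB) : S_EQ2 := by
  classical
  obtain ⟨⟨b, hb, k₀, hk₀⟩, N₁, hN₁⟩ := hCH
  refine ⟨b, hb, ?_⟩
  intro d K hd hK1 c hc E hEc hEv hEt z A
  set c₁ : ℝ := c * b / 12 with hc₁
  have hc₁0 : 0 < c₁ := by positivity
  obtain ⟨S, a, τ₁, hτ₁, h0S, hpos, ha0, hmaj⟩ := hTR K hK1 c₁ hc₁0 E hEc hEv
  set ε₁ : ℝ := c₁ / (∑ j ∈ S, ‖a j‖ + 1) with hε₁
  have hε₁0 : 0 < ε₁ := by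
    have : 0 ≤ ∑ j ∈ S, ‖a j‖ := sum_nonneg fun _ _ => norm_nonneg _
    positivity
  obtain ⟨C, N₀, hC1, hPWN⟩ := hPW d hd ε₁ hε₁0
  set D₀ : ℕ := ∑ j ∈ S, j.natAbs + 1 with hD₀
  set Q : ℕ := C * D₀ with hQ
  have hQ1 : 1 ≤ Q := Nat.mul_pos hC1 (by omega)
  have hCQ : C ≤ Q := Nat.le_mul_of_pos_right _ (by omega)
  obtain ⟨κ, hκ, hκE⟩ := hKA E hEc hEt (K * Q)
  have hQr : (0 : ℝ) < Q := by exact_mod_cast hQ1
  have hKr : (0 : ℝ) < K := by exact_mod_cast hK1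
  set ρ : ℝ := κ / (4 * (K * 2 ^ d)) with hρ
  have hρ0 : 0 < ρ := by positivity
  set τ : ℝ := min τ₁ (κ / (4 * Q)) with hτ
  have hτ0 : 0 < τ := lt_min hτ₁ (by positivity)
  have hτκ : (Q : ℝ) * τ + K * 2 ^ d * ρ < κ := by
    have h1 : (Q : ℝ) * τ ≤ κ / 4 := by
      calc (Q : ℝ) * τ ≤ Q * (κ / (4 * Q)) := mul_le_mul_of_nonneg_left (min_le_right _ _) hQr.le
        _ = κ / 4 := by field_simp
    have h2 : (K : ℝ) * 2 ^ d * ρ = κ / 4 := by rw [hρ]; field_simp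
    linarith
  obtain ⟨B₂, hB₂⟩ : ∃ B₂ : ℕ, (Q : ℝ) / ρ < 2 ^ B₂ := pow_unbounded_of_one_lt _ (by norm_num)
  -- large k
  obtain ⟨k₁, hk₁0, hk₁1, hk₁N0, hk₁N1, hk₁z⟩ : ∃ k₁ : ℕ, k₀ ≤ k₁ ∧ 1 ≤ k₁ ∧ N₀ ≤ 2 ^ k₁ ∧ N₁ ≤ 2 ^ k₁ ∧ z ≤ 2 ^ k₁ := by
    refine ⟨k₀ + N₀ + N₁ + z + 1, by omega, by omega, ?_, ?_, ?_⟩
    all_goals exact le_trans (by omega) (Nat.lt_two_pow_self (n := k₀ + N₀ + N₁ + z + 1)).le
  -- divergence
  obtain ⟨k₂, hk₂, hdiv⟩ : ∃ k₂ : ℕ, k₁ ≤ k₂ ∧ max A (2 * B₂ / c) ≤ b * ∑ k ∈ Ico k₁ k₂, 1 / (k : ℝ) := by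
    have h1 := Real.tendsto_sum_range_one_div_nat_succ_atTop
    obtain ⟨M, hM⟩ := (h1.eventually_ge_atTop (max A (2 * B₂ / c) / b + ∑ k ∈ range k₁, 1 / ((k : ℝ)))).exists
    refine ⟨max k₁ (M + 1), le_max_left _ _, ?_⟩
    have h2 : ∑ i ∈ range M, 1 / ((i : ℝ) + 1) = ∑ k ∈ range (M + 1), 1 / (k : ℝ) := by
      rw [sum_range_succ' (fun k : ℕ => 1 / (k : ℝ)) M]
      push_cast; simp
    rw [h2] at hM
    have h3 : ∑ k ∈ range (M + 1), 1 / (k : ℝ) ≤ ∑ k ∈ range (max k₁ (M + 1)), 1 / (k : ℝ) :=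
      sum_le_sum_of_subset_of_nonneg (range_subset_range.2 (le_max_right _ _)) fun _ _ _ => by positivity
    have h4 : ∑ k ∈ Ico k₁ (max k₁ (M + 1)), 1 / (k : ℝ) =
        ∑ k ∈ range (max k₁ (M + 1)), 1 / (k : ℝ) - ∑ k ∈ range k₁, 1 / (k : ℝ) :=
      sum_Ico_eq_sub _ (le_max_left _ _)
    rw [h4]
    have h5 : max A (2 * B₂ / c) / b ≤ ∑ k ∈ range (max k₁ (M + 1)), 1 / (k : ℝ) - ∑ k ∈ range k₁, 1 / (k : ℝ) := by
      linarith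
    rw [div_le_iff₀ hb] at h5
    linarith
  set I : Finset ℕ := (Ioc (2 ^ k₁) (2 ^ k₂)).filter Nat.Prime with hI
  set L : ℝ := ∑ p ∈ I, 1 / (p : ℝ) with hL
  have hLb : b * ∑ k ∈ Ico k₁ k₂, 1 / (k : ℝ) ≤ L := by
    rw [hL, hI, blocks _ k₁ k₂ hk₂, mul_sum]
    refine sum_le_sum fun k hk => ?_
    rw [mem_Ico] at hk
    rw [mul_one_div]
    exact hk₀ k (by omega)
  refine ⟨I, ?_, ?_, τ, hτ0, fun α => ?_⟩
  · intro p hp
    rw [hI, mem_filter, mem_Ioc] at hp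
    exact ⟨hp.2, lt_of_le_of_lt hk₁z hp.1.1⟩
  · exact (le_max_left _ _).trans (hdiv.trans hLb)
  -- the main estimate
  have e0 : ∑ p ∈ I.filter (fun p : ℕ => ∃ β : ℝ, (β : UnitAddCircle) ∈ E ∧ ∃ m : ℕ, 1 ≤ m ∧ m ≤ K ∧ ∃ a : ℤ,
      |m * (β - (p : ℝ) ^ d * α) - a| ≤ τ), 1 / (p : ℝ) =
      ∑ k ∈ Ico k₁ k₂, ∑ p ∈ ((Ioc (2 ^ k) (2 ^ (k + 1))).filter Nat.Prime).filter (Bad d K E τ α), 1 / (p : ℝ) := by
    have h1 := blocks (fun p => if Bad d K E τ α p then 1 / (p : ℝ) else 0) k₁ k₂ hk₂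
    rw [sum_filter]
    simp only [sum_filter (p := Bad d K E τ α)]
    exact h1
  rw [e0]
  -- exceptional blocks
  set X : Finset ℕ := (Ico k₁ k₂).filter (fun k =>
    (∃ q : ℕ, 1 ≤ q ∧ q ≤ Q ∧ ∃ a : ℤ, |q * α - a| ≤ Q / ((2 : ℝ) ^ k) ^ d) ∧
    ∀ q : ℕ, 1 ≤ q → q ≤ Q → ∀ a : ℤ, ρ / ((2 : ℝ) ^ k) ^ d < |q * α - a|) with hX
  have hXcard : #X ≤ B₂ := by
    rcases X.eq_empty_or_nonempty with h | h
    · rw [h]; simp
    set m := X.min' h with hm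
    have hm1 : m ∈ X := X.min'_mem h
    have hsub : X ⊆ Ico m (m + B₂) := by
      intro l hl
      rw [mem_Ico]
      have hml : m ≤ l := X.min'_le l hl
      refine ⟨hml, ?_⟩
      by_contra hcon
      push Not at hcon
      rw [hX, mem_filter] at hm1 hl
      obtain ⟨q, hq1, hqQ, a', ha'⟩ := hl.2.1
      have h1 := hm1.2.2 q hq1 hqQ a'
      have h2 : ρ / ((2 : ℝ) ^ m) ^ d < Q / ((2 : ℝ) ^ l) ^ d := lt_of_lt_of_le h1 ha'
      rw [div_lt_div_iff₀ (by positivity) (by positivity)] at h2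
      have h3 : ((2 : ℝ) ^ l) ^ d = ((2 : ℝ) ^ m) ^ d * ((2 : ℝ) ^ (l - m)) ^ d := by
        rw [← mul_pow, ← pow_add]
        congr 2; omega
      rw [h3] at h2
      have h4 : (2 : ℝ) ^ B₂ ≤ ((2 : ℝ) ^ (l - m)) ^ d := by
        calc (2 : ℝ) ^ B₂ ≤ 2 ^ (l - m) := pow_le_pow_right₀ (by norm_num) (by omega)
          _ ≤ _ := le_self_pow₀ (one_le_pow₀ (by norm_num)) (by omega)
      rw [div_lt_iff₀ hρ0] at hB₂
      have h5 : (0 : ℝ) < ((2 : ℝ) ^ m) ^ d := by positivity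
      have h6 : ρ * (((2 : ℝ) ^ m) ^ d * ((2 : ℝ) ^ (l - m)) ^ d) < Q * ((2 : ℝ) ^ m) ^ d := h2
      have h7 : (2 : ℝ) ^ B₂ * ρ ≤ ((2 : ℝ) ^ (l - m)) ^ d * ρ := mul_le_mul_of_nonneg_right h4 hρ0.le
      nlinarith
    calc #X ≤ #(Ico m (m + B₂)) := card_le_card hsub
      _ = B₂ := by rw [Nat.card_Ico]; omega
  have hblk : ∀ k ∈ Ico k₁ k₂, ∑ p ∈ ((Ioc (2 ^ k) (2 ^ (k + 1))).filter Nat.Prime).filter (Bad d K E τ α), 1 / (p : ℝ) ≤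
      4 * c₁ / (k * Real.log 2) + (if k ∈ X then 1 else 0) := by
    intro k hk
    have hk' := mem_Ico.1 hk
    have hl2 : 0 < Real.log 2 := Real.log_pos (by norm_num)
    have hk0 : (0 : ℝ) < k := by exact_mod_cast (by omega : 0 < k)
    have hnn : 0 ≤ 4 * c₁ / (k * Real.log 2) := by positivity
    by_cases hkX : k ∈ X
    · rw [if_pos hkX]
      have := block_le_one (Bad d K E τ α) k
      linarith
    rw [if_neg hkX, add_zero]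
    have h2k : (2 : ℕ) ^ k₁ ≤ 2 ^ k := Nat.pow_le_pow_right (by norm_num) hk'.1
    by_cases hnear : ∃ q : ℕ, 1 ≤ q ∧ q ≤ Q ∧ ∃ a : ℤ, |q * α - a| ≤ Q / ((2 : ℝ) ^ k) ^ d
    · -- no bad primes
      have h1 : ¬ ∀ q : ℕ, 1 ≤ q → q ≤ Q → ∀ a : ℤ, ρ / ((2 : ℝ) ^ k) ^ d < |q * α - a| := by
        intro h2
        exact hkX (by rw [hX, mem_filter]; exact ⟨hk, hnear, h2⟩)
      push Not at h1
      obtain ⟨q, hq1, hqQ, a', ha'⟩ := h1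
      have h3 : ((Ioc (2 ^ k) (2 ^ (k + 1))).filter Nat.Prime).filter (Bad d K E τ α) = ∅ := by
        rw [filter_eq_empty_iff]
        intro p hp
        rw [mem_filter, mem_Ioc] at hp
        exact no_bad hκE hτκ hq1 hqQ ha' hp.1.2
      rw [h3, sum_empty]
      exact hnn
    · refine good_block hc₁0 h0S hpos ha0 (fun x β hβ m hm1 hmK b' hb' =>
        hmaj x β hβ m hm1 hmK b' (hb'.trans (min_le_left _ _))) (by omega) ?_ ?_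
      · exact hN₁ (2 ^ k) (hk₁N1.trans h2k)
      · intro j hj hj0
        by_contra hcon
        push Not at hcon
        obtain ⟨q, hq1, hqC, a', ha'⟩ := hPWN (2 ^ k) (hk₁N0.trans h2k) (j * α) hcon.le
        refine hnear ⟨q * j.natAbs, Nat.mul_pos hq1 (Int.natAbs_pos.2 hj0), ?_, (if 0 ≤ j then a' else -a'), ?_⟩
        · rw [hQ]
          refine Nat.mul_le_mul hqC ?_
          have : j.natAbs ≤ ∑ j ∈ S, j.natAbs := single_le_sum (f := fun j : ℤ => j.natAbs) (fun _ _ => Nat.zero_le _) hj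
          omega
        · have h5 : |((q * j.natAbs : ℕ) : ℝ) * α - ((if 0 ≤ j then a' else -a' : ℤ) : ℝ)| = |q * (j * α) - a'| := by
            have h6 : ((j.natAbs : ℕ) : ℝ) = ((|j| : ℤ) : ℝ) := by
              rw [Int.abs_eq_natAbs, Int.cast_natCast]
            split_ifs with hj1
            · push_cast
              rw [h6, abs_of_nonneg hj1]
              congr 1; ring
            · push Not at hj1
              push_cast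
              rw [h6, abs_of_neg hj1]
              push_cast
              rw [show (q : ℝ) * -(j : ℝ) * α - -(a' : ℝ) = -(q * (j * α) - a') by ring, abs_neg]
          rw [h5]
          refine ha'.trans ?_
          push_cast
          have : (C : ℝ) ≤ Q := by exact_mod_cast hCQ
          gcongr
  refine (sum_le_sum hblk).trans ?_
  rw [sum_add_distrib]
  have h1 : ∑ k ∈ Ico k₁ k₂, (if k ∈ X then (1 : ℝ) else 0) ≤ B₂ := by
    rw [← sum_filter, sum_const, nsmul_eq_mul, mul_one]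
    have : (Ico k₁ k₂).filter (fun k => k ∈ X) ⊆ X := fun k hk => (mem_filter.1 hk).2
    exact_mod_cast (card_le_card this).trans hXcard
  have h2 : ∑ k ∈ Ico k₁ k₂, 4 * c₁ / (k * Real.log 2) = 4 * c₁ / Real.log 2 * ∑ k ∈ Ico k₁ k₂, 1 / (k : ℝ) := by
    rw [mul_sum]
    refine sum_congr rfl fun k _ => ?_
    rw [mul_one_div, div_div, mul_comm (k : ℝ)]
  have hl2 := Real.log_two_gt_d9
  have h3 : 4 * c₁ / Real.log 2 * ∑ k ∈ Ico k₁ k₂, 1 / (k : ℝ) ≤ c / 2 * L := by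
    have h4 : 4 * c₁ / Real.log 2 ≤ c / 2 * b := by
      rw [div_le_iff₀ (by linarith), hc₁]
      have : 0 < c * b := by positivity
      nlinarith
    have h5 : 0 ≤ ∑ k ∈ Ico k₁ k₂, 1 / (k : ℝ) := sum_nonneg fun _ _ => by positivity
    calc 4 * c₁ / Real.log 2 * ∑ k ∈ Ico k₁ k₂, 1 / (k : ℝ) ≤ c / 2 * b * ∑ k ∈ Ico k₁ k₂, 1 / (k : ℝ) :=
          mul_le_mul_of_nonneg_right h4 h5
      _ = c / 2 * (b * ∑ k ∈ Ico k₁ k₂, 1 / (k : ℝ)) := by ring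
      _ ≤ c / 2 * L := mul_le_mul_of_nonneg_left hLb (by positivity)
  have h4 : (B₂ : ℝ) ≤ c / 2 * L := by
    have h5 : 2 * B₂ / c ≤ L := (le_max_right _ _).trans (hdiv.trans hLb)
    rw [div_le_iff₀ hc] at h5
    linarith
  rw [h2]
  linarith

end Pool.Agent.Helper44K9.FU
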