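import Pool.Agent.Helper44K9.FU.Stm

/-! [NR] relations after dilation, sharper form (from helper54's nr). -/

set_option autoImplicit false

namespace Pool.Agent.Helper44K9.FU

open Finset

/-- [NR], with `K + 1` -/
def S_NR2 : Prop := ∀ d K B : ℕ, 1 ≤ d → 1 ≤ K → ∃ H₀ : ℕ, ∀ H ≥ H₀, ∀ (α β : ℝ) (p q : ℕ), p.Prime → q.Prime →
  p ≠ q → K < p → K < q → p ≤ B → q ≤ B → Rel d K (H / p) ((p : ℝ) ^ d * α) ((p : ℝ) ^ d * β) →
  Rel d K (H / q) ((q : ℝ) ^ d * α) ((q : ℝ) ^ d * β) → Rel d (K + 1) H α β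

theorem nr2 : S_NR2 := by
  intro d K B hd hK
  refine ⟨2 * (K * (K + 1)) * B ^ (2 * d) + (K + 1) * (d * B) + 2 * B + 1, ?_⟩
  intro H hH α β p q hp hq hpq hKp hKq hpB hqB h1 h2
  obtain ⟨m, hm1, hmK, a, ha⟩ := h1
  obtain ⟨m', hm1', hmK', b, hb⟩ := h2
  set δ := α - β with hδ
  have hH0 : (0 : ℝ) < H := by
    have : 0 < H := by omega
    exact_mod_cast this
  have hHd : (0 : ℝ) < (H : ℝ) ^ d := pow_pos hH0 d
  -- one relation
  have key : ∀ (p m : ℕ) (a : ℤ), p.Prime → p ≤ B →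
      |(m : ℝ) * ((p : ℝ) ^ d * α - (p : ℝ) ^ d * β) - a| ≤ K / ((H / p : ℕ) : ℝ) ^ d →
      |(m : ℝ) * (p : ℝ) ^ d * δ - a| ≤ (K + 1) * (p : ℝ) ^ d / (H : ℝ) ^ d := by
    intro p m a hp hpB h
    have hp0 : 0 < p := hp.pos
    have hp0' : (0 : ℝ) < p := by exact_mod_cast hp0
    have hB0 : (0 : ℝ) ≤ B := Nat.cast_nonneg _
    have hpB' : (p : ℝ) ≤ B := by exact_mod_cast hpB
    have h3 : ((H : ℝ) - B) / p ≤ ((H / p : ℕ) : ℝ) := by
      have h4 : H < (H / p + 1) * p := by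
        nlinarith [Nat.div_mul_le_self H p, Nat.mod_lt H hp0, Nat.div_add_mod H p]
      have h5 : (H : ℝ) < (((H / p : ℕ) : ℝ) + 1) * p := by exact_mod_cast h4
      rw [div_le_iff₀ hp0']
      linarith
    have hHB : (B : ℝ) < H := by exact_mod_cast (by omega : B < H)
    have h8 : (0 : ℝ) < ((H : ℝ) - B) / p := div_pos (by linarith) hp0'
    have h9 : (K : ℝ) / ((H / p : ℕ) : ℝ) ^ d ≤ K / (((H : ℝ) - B) / p) ^ d := by
      gcongr
    have h10 : (K : ℝ) / (((H : ℝ) - B) / p) ^ d ≤ (K + 1) * (p : ℝ) ^ d / (H : ℝ) ^ d := by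
      have hbern := one_add_mul_le_pow (a := -((B : ℝ) / H)) (by
        have : (B : ℝ) / H ≤ 1 := by rw [div_le_one hH0]; exact hHB.le
        linarith) d
      have hx : ((H : ℝ) - B) ^ d = (H : ℝ) ^ d * (1 + -((B : ℝ) / H)) ^ d := by
        rw [← mul_pow]; congr 1; field_simp; ring
      have hlow : (K : ℝ) / (K + 1) ≤ (1 + -((B : ℝ) / H)) ^ d := by
        refine le_trans ?_ hbern
        have h12 : ((K : ℝ) + 1) * (d * B) ≤ H := by
          have : (K + 1) * (d * B) ≤ H := by omega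
          exact_mod_cast this
        have h13 : (d : ℝ) * ((B : ℝ) / H) ≤ 1 / (K + 1) := by
          rw [mul_div_assoc', div_le_div_iff₀ hH0 (by positivity)]
          linarith
        have h14 : (K : ℝ) / (K + 1) = 1 - 1 / (K + 1) := by field_simp; ring
        rw [h14]
        linarith
      rw [div_pow, hx, div_div_eq_mul_div, div_le_div_iff₀ (by
        have : (0 : ℝ) < (1 + -((B : ℝ) / H)) ^ d := by
          refine lt_of_lt_of_le ?_ hlow
          have : (0 : ℝ) < K := by exact_mod_cast hK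
          positivity
        positivity) hHd]
      rw [div_le_iff₀ (by positivity)] at hlow
      have h15 : (0 : ℝ) ≤ (p : ℝ) ^ d * (H : ℝ) ^ d := by positivity
      calc (K : ℝ) * (p : ℝ) ^ d * (H : ℝ) ^ d = K * ((p : ℝ) ^ d * (H : ℝ) ^ d) := by ring
        _ ≤ ((1 + -((B : ℝ) / H)) ^ d * (K + 1)) * ((p : ℝ) ^ d * (H : ℝ) ^ d) := mul_le_mul_of_nonneg_right hlow h15
        _ = _ := by ring
    have h11 : (m : ℝ) * ((p : ℝ) ^ d * α - (p : ℝ) ^ d * β) - a =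
        (m : ℝ) * (p : ℝ) ^ d * δ - a := by rw [hδ]; ring
    rw [h11] at h
    exact (h.trans h9).trans h10
  have ka := key p m a hp hpB ha
  have kb := key q m' b hq hqB hb
  have hp0' : (0 : ℝ) < p := by exact_mod_cast hp.pos
  have hq0' : (0 : ℝ) < q := by exact_mod_cast hq.pos
  have hpB' : (p : ℝ) ≤ B := by exact_mod_cast hpB
  have hqB' : (q : ℝ) ≤ B := by exact_mod_cast hqB
  have hmK2 : (m : ℝ) ≤ K := by exact_mod_cast hmK
  have hmK2' : (m' : ℝ) ≤ K := by exact_mod_cast hmK'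
  -- the fractions agree
  have h3 : |((m' : ℝ) * (q : ℝ) ^ d * a - (m : ℝ) * (p : ℝ) ^ d * b)| < 1 := by
    have e1 : (m' : ℝ) * (q : ℝ) ^ d * a - (m : ℝ) * (p : ℝ) ^ d * b =
        (m : ℝ) * (p : ℝ) ^ d * ((m' : ℝ) * (q : ℝ) ^ d * δ - b) -
        (m' : ℝ) * (q : ℝ) ^ d * ((m : ℝ) * (p : ℝ) ^ d * δ - a) := by ring
    rw [e1]
    refine (abs_sub _ _).trans_lt ?_
    rw [abs_mul ((m : ℝ) * (p : ℝ) ^ d), abs_mul ((m' : ℝ) * (q : ℝ) ^ d),
      abs_of_nonneg (show (0 : ℝ) ≤ (m : ℝ) * (p : ℝ) ^ d by positivity),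
      abs_of_nonneg (show (0 : ℝ) ≤ (m' : ℝ) * (q : ℝ) ^ d by positivity)]
    have f1 : (m : ℝ) * (p : ℝ) ^ d * |(m' : ℝ) * (q : ℝ) ^ d * δ - b| ≤
        K * B ^ d * ((K + 1) * B ^ d / (H : ℝ) ^ d) := by
      refine mul_le_mul ?_ (kb.trans ?_) (abs_nonneg _) (by positivity)
      · gcongr
      · gcongr
    have f2 : (m' : ℝ) * (q : ℝ) ^ d * |(m : ℝ) * (p : ℝ) ^ d * δ - a| ≤
        K * B ^ d * ((K + 1) * B ^ d / (H : ℝ) ^ d) := by
      refine mul_le_mul ?_ (ka.trans ?_) (abs_nonneg _) (by positivity)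
      · gcongr
      · gcongr
    have f3 : (H : ℝ) ≤ (H : ℝ) ^ d := by
      have : (1 : ℝ) ≤ H := by
        have : 1 ≤ H := by omega
        exact_mod_cast this
      exact le_self_pow₀ this (by omega)
    have f4 : 2 * ((K : ℝ) * (K + 1)) * B ^ (2 * d) < H := by
      have : 2 * (K * (K + 1)) * B ^ (2 * d) < H := by omega
      exact_mod_cast this
    have f5 : (K : ℝ) * B ^ d * ((K + 1) * B ^ d / (H : ℝ) ^ d) +
        K * B ^ d * ((K + 1) * B ^ d / (H : ℝ) ^ d) =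
        2 * ((K : ℝ) * (K + 1)) * B ^ (2 * d) / (H : ℝ) ^ d := by
      rw [two_mul d, pow_add]
      ring
    refine (add_le_add f1 f2).trans_lt ?_
    rw [f5, div_lt_one hHd]
    exact f4.trans_le f3
  have h4 : (m' : ℤ) * (q : ℤ) ^ d * a = (m : ℤ) * (p : ℤ) ^ d * b := by
    have h5 : |((m' : ℤ) * (q : ℤ) ^ d * a - (m : ℤ) * (p : ℤ) ^ d * b : ℤ)| < 1 := by
      have h6 : ((|((m' : ℤ) * (q : ℤ) ^ d * a - (m : ℤ) * (p : ℤ) ^ d * b : ℤ)| : ℤ) : ℝ) < 1 := by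
        push_cast
        exact h3
      exact_mod_cast h6
    have := Int.abs_lt_one_iff.1 h5
    omega
  have h5 : (p : ℤ) ^ d ∣ a := by
    have h6 : (p : ℤ) ^ d ∣ (m' : ℤ) * (q : ℤ) ^ d * a := by
      rw [h4]
      exact ⟨(m : ℤ) * b, by ring⟩
    have h7 : IsCoprime ((p : ℤ) ^ d) ((m' : ℤ) * (q : ℤ) ^ d) := by
      refine IsCoprime.mul_right (IsCoprime.pow_left ?_) (IsCoprime.pow ?_)
      · rw [Nat.isCoprime_iff_coprime, Nat.Prime.coprime_iff_not_dvd hp]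
        intro h8
        have := Nat.le_of_dvd (by omega) h8
        omega
      · rw [Nat.isCoprime_iff_coprime]
        exact (Nat.coprime_primes hp hq).2 hpq
    exact h7.dvd_of_dvd_mul_left h6
  obtain ⟨a', rfl⟩ := h5
  refine ⟨m, hm1, by omega, a', ?_⟩
  have h6 : (m : ℝ) * (p : ℝ) ^ d * δ - (((p : ℤ) ^ d * a' : ℤ) : ℝ) =
      (p : ℝ) ^ d * ((m : ℝ) * δ - a') := by
    push_cast
    ring
  rw [h6, abs_mul, abs_of_nonneg (show (0 : ℝ) ≤ (p : ℝ) ^ d by positivity)] at ka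
  have h7 : (p : ℝ) ^ d * |(m : ℝ) * δ - a'| ≤ (p : ℝ) ^ d * ((K + 1) / (H : ℝ) ^ d) := by
    refine ka.trans (le_of_eq ?_)
    ring
  have h8 := le_of_mul_le_mul_left h7 (by positivity)
  push_cast
  exact h8

end Pool.Agent.Helper44K9.FU
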