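import Pool.Agent.Helper44K9.FU.Fin
import Pool.Agent.Helper44K9.FU.Mone2

/-! The final theorem with a power of the measure. -/

set_option autoImplicit false

namespace Pool.Agent.Helper44K9.FU

open Finset Polynomial MeasureTheory
open Pool.Agent.H807R2.Dav (ee norm_ee)

open FL in
open Classical in
/-- from the doubly logarithmic averages to all scales -/
theorem fin_core (hSUB : S_SUB) (hLS : S_LS) (d : ℕ) (hd : 1 ≤ d) (ε ε₁ : ℝ) (hε : 0 < ε) (hε₁ : ε₁ = ε / 16)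
    (E : Set UnitAddCircle) (hEc : IsCompact E) (hEt : ∀ x ∈ E, addOrderOf x = 0)
    (hM : ∃ H₁ H₂ N₀ : ℕ, 1 ≤ H₁ ∧ ∀ N ≥ N₀,
      ∀ f : ℕ → ℂ, Mul1 f → ∃ H ∈ Ico H₁ H₂, ∑ n ∈ Icc 1 N, (1 / (n : ℝ)) *
        (if ∃ P : ℝ[X], P.natDegree ≤ d ∧ ((P.coeff d : ℝ) : UnitAddCircle) ∈ E ∧ ε₁ * H ≤ ‖W f P n H‖ then 1 else 0) ≤
        ε₁ * ∑ n ∈ Icc 1 N, 1 / (n : ℝ)) :
    ∃ H₀ : ℕ, ∀ f : ℕ → ℂ, Mul1 f → ∀ N H : ℕ, H₀ ≤ H → H ≤ N →
        ∑ n ∈ Icc 1 N, (1 / (n : ℝ)) * wSup d E f n H ≤ ε * H * Real.log N := by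
  have hε₁0 : 0 < ε₁ := by rw [hε₁]; positivity
  obtain ⟨H₁, H₂, N₁, hH₁, hmain⟩ := hM
  set ε₂ : ℝ := ε / 32 with hε₂
  have hε₂0 : 0 < ε₂ := by positivity
  obtain ⟨X₀, hX₀⟩ := hLS d hd E hEc hEt ε₂ hε₂0
  obtain ⟨A, hA⟩ := exists_nat_ge (16 * (H₂ : ℝ) / ε)
  obtain ⟨A', hA'⟩ := exists_nat_ge ((X₀ : ℝ) / ε₂)
  obtain ⟨A'', hA''⟩ := exists_nat_ge (Real.exp (1 + 4 / ε))
  refine ⟨N₁ + X₀ + A + A' + A'' + H₂ + 1, fun f hf N H hH hN => ?_⟩
  have hH0 : (0 : ℝ) < H := by exact_mod_cast (by omega : 0 < H)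
  have hHA : 16 * (H₂ : ℝ) / ε ≤ H := hA.trans (by exact_mod_cast (by omega : A ≤ H))
  have hHA' : (X₀ : ℝ) / ε₂ ≤ H := hA'.trans (by exact_mod_cast (by omega : A' ≤ H))
  have hHA'' : Real.exp (1 + 4 / ε) ≤ N := hA''.trans (by exact_mod_cast (by omega : A'' ≤ N))
  obtain ⟨H', hH', hsmall⟩ := hmain N (by omega) f hf
  rw [mem_Ico] at hH'
  have hH'0 : (0 : ℝ) < H' := by exact_mod_cast (by omega : 0 < H')
  set hn : ℝ := ∑ n ∈ Icc 1 N, 1 / (n : ℝ) with hhn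
  have hn0 : 0 ≤ hn := sum_nonneg fun _ _ => by positivity
  have hlog : hn ≤ 1 + Real.log N := by
    have h1 := harmonic_le_one_add_log N
    refine le_trans (le_of_eq ?_) h1
    rw [harmonic_eq_sum_Icc]
    push_cast
    exact sum_congr rfl fun x _ => one_div _
  have hlogN : 1 + 4 / ε ≤ Real.log N := by
    rw [Real.le_log_iff_exp_le (lt_of_lt_of_le (Real.exp_pos _) hHA'')]
    exact hHA''
  -- normalized suprema
  set s : ℕ → ℕ → ℝ := fun H n => wSup d E f n H / H with hs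
  have hs01 : ∀ H n, 0 ≤ s H n ∧ s H n ≤ 1 := by
    intro H n
    simp only [hs]
    refine ⟨div_nonneg (wSup_nonneg n H) (Nat.cast_nonneg _), ?_⟩
    refine div_le_one_of_le₀ (wSup_le (Nat.cast_nonneg _) fun P _ _ => W_le hf.1 P n H) (Nat.cast_nonneg _)
  -- small scale
  have hsm : ∑ n ∈ Icc 1 N, (1 / (n : ℝ)) * s H' n ≤ 2 * ε₁ * hn := by
    have h1 : ∀ n, s H' n ≤ (if ∃ P : ℝ[X], P.natDegree ≤ d ∧ ((P.coeff d : ℝ) : UnitAddCircle) ∈ E ∧
        ε₁ * H' ≤ ‖W f P n H'‖ then 1 else 0) + ε₁ := by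
      intro n
      split_ifs with h
      · linarith [(hs01 H' n).2]
      · push Not at h
        rw [zero_add]
        simp only [hs]
        rw [div_le_iff₀ hH'0]
        exact wSup_le (by positivity) fun P hP hPE => (h P hP hPE).le
    calc ∑ n ∈ Icc 1 N, (1 / (n : ℝ)) * s H' n ≤ ∑ n ∈ Icc 1 N, (1 / (n : ℝ)) *
        ((if ∃ P : ℝ[X], P.natDegree ≤ d ∧ ((P.coeff d : ℝ) : UnitAddCircle) ∈ E ∧
        ε₁ * H' ≤ ‖W f P n H'‖ then 1 else 0) + ε₁) :=
          sum_le_sum fun n _ => mul_le_mul_of_nonneg_left (h1 n) (by positivity)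
      _ = ∑ n ∈ Icc 1 N, (1 / (n : ℝ)) *
        (if ∃ P : ℝ[X], P.natDegree ≤ d ∧ ((P.coeff d : ℝ) : UnitAddCircle) ∈ E ∧
        ε₁ * H' ≤ ‖W f P n H'‖ then 1 else 0) + hn * ε₁ := by
          simp only [mul_add]
          rw [sum_add_distrib, hhn, sum_mul]
      _ ≤ 2 * ε₁ * hn := by linarith
  -- large n
  have hlarge : ∑ n ∈ Ioc (1 * H) N, (1 / (n : ℝ)) * s H n ≤
      (1 + 1 / ((1 : ℕ) : ℝ)) * (∑ n ∈ Icc 1 N, (1 / (n : ℝ)) * s H' n + 1) + ε / 8 * hn := by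
    refine hSUB (s H) (s H') 1 H N (ε / 8) (fun n => hs01 H' n) le_rfl (by omega) (by omega) (by positivity) fun n => ?_
    have h2 : ∀ P : ℝ[X], P.natDegree ≤ d → ((P.coeff d : ℝ) : UnitAddCircle) ∈ E →
        ‖W f P n H‖ ≤ ∑ i ∈ range H, s H' (n + i) + 2 * H' := by
      intro P hP hPE
      have h3 := sub_window hf.1 P n H H'
      have h4 : ∑ i ∈ range H, ‖W f P (n + i) H'‖ ≤ H' * ∑ i ∈ range H, s H' (n + i) := by
        rw [mul_sum]
        refine sum_le_sum fun i _ => ?_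
        simp only [hs]
        rw [mul_div_cancel₀ _ hH'0.ne']
        exact le_wSup hf.1 (n + i) H' hP hPE
      have h5 : (H' : ℝ) * ‖W f P n H‖ ≤ H' * (∑ i ∈ range H, s H' (n + i) + 2 * H') := by
        refine h3.trans ?_
        rw [mul_add]
        nlinarith
      exact le_of_mul_le_mul_left h5 hH'0
    have h6 : wSup d E f n H ≤ ∑ i ∈ range H, s H' (n + i) + 2 * H' :=
      wSup_le (add_nonneg (sum_nonneg fun i _ => (hs01 H' (n + i)).1) (by positivity)) h2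
    show wSup d E f n H / H ≤ _
    rw [div_le_iff₀ hH0, add_mul, mul_comm (1 / (H : ℝ)), mul_assoc, one_div_mul_cancel hH0.ne', mul_one]
    refine h6.trans (add_le_add le_rfl ?_)
    have h7 : (H' : ℝ) ≤ H₂ := by exact_mod_cast hH'.2.le
    rw [div_le_iff₀ hε] at hHA
    linarith
  -- small n
  have hsmalln : ∑ n ∈ Icc 1 H, (1 / (n : ℝ)) * s H n ≤ ε / 8 * hn := by
    have h1 : ∀ n ∈ Icc 1 H, s H n ≤ ε / 8 := by
      intro n hn'
      rw [mem_Icc] at hn'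
      simp only [hs]
      rw [div_le_iff₀ hH0]
      refine wSup_le (by positivity) fun P hP hPE => ?_
      have h2 : W f P n H = W f P 0 (n + H) - W f P 0 n := by
        unfold W
        rw [Nat.zero_add, Nat.zero_add, eq_sub_iff_add_eq, add_comm]
        rw [← sum_union]
        · congr 1
          ext m; simp only [mem_union, mem_Ioc]; omega
        · rw [Finset.disjoint_left]
          intro m hm hm'
          rw [mem_Ioc] at hm hm'
          omega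
      have h3 : ‖W f P 0 (n + H)‖ ≤ ε₂ * ((n + H : ℕ) : ℝ) := hX₀ (n + H) (by omega) f hf P hP hPE
      have h4 : ‖W f P 0 n‖ ≤ ε₂ * H := by
        by_cases hn2 : X₀ ≤ n
        · refine (hX₀ n hn2 f hf P hP hPE).trans ?_
          have : (n : ℝ) ≤ H := by exact_mod_cast hn'.2
          exact mul_le_mul_of_nonneg_left this hε₂0.le
        · push Not at hn2
          refine (W_le hf.1 P 0 n).trans ?_
          rw [div_le_iff₀ hε₂0] at hHA'
          have : (n : ℝ) ≤ X₀ := by exact_mod_cast hn2.le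
          linarith
      rw [h2]
      refine (norm_sub_le _ _).trans ?_
      push_cast at h3
      have h5 : (n : ℝ) ≤ H := by exact_mod_cast hn'.2
      have h6 : ε₂ * ((n : ℝ) + H) ≤ ε₂ * (2 * H) := mul_le_mul_of_nonneg_left (by linarith) hε₂0.le
      rw [hε₂] at h3 h4 h6
      nlinarith
    calc ∑ n ∈ Icc 1 H, (1 / (n : ℝ)) * s H n ≤ ∑ n ∈ Icc 1 H, (1 / (n : ℝ)) * (ε / 8) :=
          sum_le_sum fun n hn' => mul_le_mul_of_nonneg_left (h1 n hn') (by positivity)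
      _ = ε / 8 * ∑ n ∈ Icc 1 H, 1 / (n : ℝ) := by rw [← sum_mul]; ring
      _ ≤ ε / 8 * hn := by
          refine mul_le_mul_of_nonneg_left ?_ (by positivity)
          exact sum_le_sum_of_subset_of_nonneg (Icc_subset_Icc_right hN) fun _ _ _ => by positivity
  -- total
  have htot : ∑ n ∈ Icc 1 N, (1 / (n : ℝ)) * wSup d E f n H = H * (∑ n ∈ Icc 1 H, (1 / (n : ℝ)) * s H n +
      ∑ n ∈ Ioc (1 * H) N, (1 / (n : ℝ)) * s H n) := by
    rw [one_mul, ← sum_union]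
    · rw [mul_sum]
      have h1 : Icc 1 H ∪ Ioc H N = Icc 1 N := by
        ext m; simp only [mem_union, mem_Icc, mem_Ioc]; omega
      rw [h1]
      refine sum_congr rfl fun n _ => ?_
      simp only [hs]
      field_simp
    · rw [Finset.disjoint_left]
      intro m hm hm'
      rw [mem_Icc] at hm
      rw [mem_Ioc] at hm'
      omega
  rw [htot]
  have h9 : ∑ n ∈ Icc 1 H, (1 / (n : ℝ)) * s H n + ∑ n ∈ Ioc (1 * H) N, (1 / (n : ℝ)) * s H n ≤
      ε * Real.log N := by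
    have h10 : (1 + 1 / ((1 : ℕ) : ℝ)) * (∑ n ∈ Icc 1 N, (1 / (n : ℝ)) * s H' n + 1) ≤ 4 * ε₁ * hn + 2 := by
      rw [show (1 + 1 / ((1 : ℕ) : ℝ)) = 2 by norm_num]
      linarith
    have h11 : 4 * ε₁ * hn + 2 + ε / 8 * hn + ε / 8 * hn ≤ ε * Real.log N := by
      have h12 : 4 * ε₁ * hn + 2 + ε / 8 * hn + ε / 8 * hn = ε / 2 * hn + 2 := by rw [hε₁]; ring
      rw [h12]
      have h13 : ε / 2 * hn ≤ ε / 2 * (1 + Real.log N) := mul_le_mul_of_nonneg_left hlog (by positivity)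
      have h14 : ε / 2 * (1 + 4 / ε) ≤ ε / 2 * Real.log N := mul_le_mul_of_nonneg_left hlogN (by positivity)
      have h15 : ε / 2 * (1 + 4 / ε) = ε / 2 + 2 := by field_simp; ring
      linarith
    linarith
  calc (H : ℝ) * _ ≤ H * (ε * Real.log N) := mul_le_mul_of_nonneg_left h9 hH0.le
    _ = ε * H * Real.log N := by ring


open FL in
/-- the theorem, with a power of the measure -/
theorem fin2 (hBES : S_BES2) (hPUSH : S_PUSH) (hNR : S_NR2) (hEQ : S_EQ2) (hDIL : S_DIL) (hPIG : S_PIG)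
    (hSUB : S_SUB) (hLS : S_LS) :
    ∀ d : ℕ, 1 ≤ d → ∃ A : ℕ, 1 ≤ A ∧ ∀ E : Set UnitAddCircle, IsCompact E → (∀ x ∈ E, addOrderOf x = 0) →
      ∀ ε : ℝ, 0 < ε → ∃ H₀ : ℕ, ∀ f : ℕ → ℂ, Mul1 f → ∀ N H : ℕ, H₀ ≤ H → H ≤ N →
        ∑ n ∈ Icc 1 N, (1 / (n : ℝ)) * wSup d E f n H ≤
          (A * (volume E).toReal ^ (1 / (A : ℝ)) + ε) * H * Real.log N := by
  classical
  intro d hd
  obtain ⟨A₀, hA₀, hM⟩ := mone2 hBES hPUSH hNR hEQ hDIL hPIG d hd
  refine ⟨32 * A₀, by omega, fun E hEc hEt ε hε => ?_⟩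
  set v : ℝ := (volume E).toReal with hv
  have hv0 : 0 ≤ v := ENNReal.toReal_nonneg
  have hvE : volume E = ENNReal.ofReal v := by
    rw [hv, ENNReal.ofReal_toReal]
    exact ne_top_of_le_ne_top (measure_ne_top volume Set.univ) (measure_mono (Set.subset_univ E))
  have hv1 : v ≤ 1 := by
    rw [hv]
    have h1 : volume E ≤ 1 := by
      refine (measure_mono (Set.subset_univ E)).trans (le_of_eq ?_)
      exact UnitAddCircle.measure_univ
    exact ENNReal.toReal_le_of_le_ofReal zero_le_one (by simpa using h1)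
  have hA₀r : (1 : ℝ) ≤ A₀ := by exact_mod_cast hA₀
  have hApos : (0 : ℝ) < A₀ := by linarith
  -- any T with small measure
  have hT : ∀ T : ℕ, 1 ≤ T → v ≤ 1 / (A₀ * (T : ℝ) ^ A₀) → ∃ H₀ : ℕ, ∀ f : ℕ → ℂ, Mul1 f →
      ∀ N H : ℕ, H₀ ≤ H → H ≤ N → ∑ n ∈ Icc 1 N, (1 / (n : ℝ)) * wSup d E f n H ≤ (16 / T) * H * Real.log N := by
    intro T hT1 hTv
    have hTr : (0 : ℝ) < T := by exact_mod_cast hT1
    refine fin_core hSUB hLS d hd (16 / T) (1 / T) (by positivity) (by field_simp) E hEc hEt ?_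
    exact hM T (1 / T) hT1 rfl E hEc (by rw [hvE]; exact ENNReal.ofReal_le_ofReal hTv) hEt
  have hweak : ∀ (x y : ℝ), x ≤ y → (∃ H₀ : ℕ, ∀ f : ℕ → ℂ, Mul1 f →
      ∀ N H : ℕ, H₀ ≤ H → H ≤ N → ∑ n ∈ Icc 1 N, (1 / (n : ℝ)) * wSup d E f n H ≤ x * H * Real.log N) →
      ∃ H₀ : ℕ, ∀ f : ℕ → ℂ, Mul1 f →
      ∀ N H : ℕ, H₀ ≤ H → H ≤ N → ∑ n ∈ Icc 1 N, (1 / (n : ℝ)) * wSup d E f n H ≤ y * H * Real.log N := by
    rintro x y hxy ⟨H₀, h⟩
    refine ⟨H₀ + 1, fun f hf N H hH hN => (h f hf N H (by omega) hN).trans ?_⟩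
    have h1 : (0 : ℝ) ≤ H := Nat.cast_nonneg _
    have h2 : 0 ≤ Real.log N := Real.log_natCast_nonneg N
    gcongr
  rcases hv0.eq_or_lt with hz | hpos
  · -- measure zero
    obtain ⟨T, hT'⟩ := exists_nat_ge (16 / ε)
    refine hweak (16 / ((T + 1 : ℕ) : ℝ)) _ ?_ (hT (T + 1) (by omega) (by rw [← hz]; positivity))
    have h1 : 16 / ((T + 1 : ℕ) : ℝ) ≤ ε := by
      rw [div_le_iff₀ (by positivity)]
      rw [div_le_iff₀ hε] at hT'
      push_cast
      nlinarith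
    have h2 : (0 : ℝ) ≤ ((32 * A₀ : ℕ) : ℝ) * v ^ (1 / ((32 * A₀ : ℕ) : ℝ)) := by positivity
    linarith
  -- positive measure
  have hroot : v ^ (1 / (A₀ : ℝ)) ≤ v ^ (1 / ((32 * A₀ : ℕ) : ℝ)) := by
    apply Real.rpow_le_rpow_of_exponent_ge hpos hv1
    push_cast
    apply one_div_le_one_div_of_le hApos
    linarith
  by_cases hbig : A₀ * v ≤ 1
  · -- the largest T
    set x : ℝ := (1 / (A₀ * v)) ^ (1 / (A₀ : ℝ)) with hx
    have hx1 : 1 ≤ x := by
      rw [hx]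
      apply Real.one_le_rpow
      · rw [le_div_iff₀ (by positivity)]
        linarith
      · positivity
    set T : ℕ := ⌊x⌋₊ with hTdef
    have hT1 : 1 ≤ T := Nat.le_floor (by exact_mod_cast hx1)
    have hTx : (T : ℝ) ≤ x := Nat.floor_le (by linarith)
    have hTr : (0 : ℝ) < T := by exact_mod_cast hT1
    have hxT : x ≤ 2 * T := by
      have h1 := Nat.lt_floor_add_one x
      have h2 : (1 : ℝ) ≤ T := by exact_mod_cast hT1
      rw [← hTdef] at h1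
      linarith
    have hxA : x ^ A₀ = 1 / (A₀ * v) := by
      rw [hx, ← Real.rpow_natCast, ← Real.rpow_mul (by positivity), one_div_mul_cancel hApos.ne', Real.rpow_one]
    have hTv : v ≤ 1 / (A₀ * (T : ℝ) ^ A₀) := by
      rw [le_div_iff₀ (by positivity)]
      have h1 : (T : ℝ) ^ A₀ ≤ x ^ A₀ := pow_le_pow_left₀ hTr.le hTx _
      rw [hxA, le_div_iff₀ (by positivity)] at h1
      linarith
    refine hweak (16 / T) _ ?_ (hT T hT1 hTv)
    have h1 : 16 / (T : ℝ) ≤ 32 / x := by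
      rw [div_le_div_iff₀ hTr (by linarith)]
      linarith
    have h2 : 1 / x = (A₀ * v) ^ (1 / (A₀ : ℝ)) := by
      rw [hx, Real.div_rpow zero_le_one (by positivity), Real.one_rpow, one_div_one_div]
    have h3 : (A₀ * v) ^ (1 / (A₀ : ℝ)) ≤ A₀ * v ^ (1 / (A₀ : ℝ)) := by
      rw [Real.mul_rpow hApos.le hv0]
      refine mul_le_mul_of_nonneg_right ?_ (by positivity)
      calc (A₀ : ℝ) ^ (1 / (A₀ : ℝ)) ≤ (A₀ : ℝ) ^ (1 : ℝ) := by
            apply Real.rpow_le_rpow_of_exponent_le hA₀r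
            rw [div_le_one hApos]; exact hA₀r
        _ = A₀ := Real.rpow_one _
    have h4 : 32 / x = 32 * (1 / x) := by ring
    have h5 : (A₀ : ℝ) * v ^ (1 / (A₀ : ℝ)) ≤ A₀ * v ^ (1 / ((32 * A₀ : ℕ) : ℝ)) :=
      mul_le_mul_of_nonneg_left hroot hApos.le
    rw [h4, h2] at h1
    push_cast at h5 ⊢
    linarith
  · -- trivial bound
    push Not at hbig
    refine ⟨3, fun f hf N H hH hN => ?_⟩
    have hNr : (3 : ℝ) ≤ N := by exact_mod_cast hH.trans hN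
    have hlog : 1 ≤ Real.log N := by
      rw [Real.le_log_iff_exp_le (by linarith)]
      linarith [Real.exp_one_lt_d9]
    have h1 : ∑ n ∈ Icc 1 N, (1 / (n : ℝ)) * wSup d E f n H ≤ (1 + Real.log N) * H := by
      calc ∑ n ∈ Icc 1 N, (1 / (n : ℝ)) * wSup d E f n H ≤ ∑ n ∈ Icc 1 N, (1 / (n : ℝ)) * H :=
            sum_le_sum fun n _ => mul_le_mul_of_nonneg_left
              (wSup_le (Nat.cast_nonneg _) fun P _ _ => W_le hf.1 P n H) (by positivity)
        _ = (∑ n ∈ Icc 1 N, 1 / (n : ℝ)) * H := by rw [sum_mul]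
        _ ≤ (1 + Real.log N) * H := by
            refine mul_le_mul_of_nonneg_right ?_ (Nat.cast_nonneg _)
            have h2 := harmonic_le_one_add_log N
            refine le_trans (le_of_eq ?_) h2
            rw [harmonic_eq_sum_Icc]
            push_cast
            exact sum_congr rfl fun x _ => one_div _
    refine h1.trans ?_
    have h2 : 1 / (A₀ : ℝ) ≤ v ^ (1 / (A₀ : ℝ)) := by
      have h3 : 1 / (A₀ : ℝ) ≤ v := by rw [div_le_iff₀ hApos]; linarith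
      refine h3.trans ?_
      calc v = v ^ (1 : ℝ) := (Real.rpow_one v).symm
        _ ≤ v ^ (1 / (A₀ : ℝ)) := by
            apply Real.rpow_le_rpow_of_exponent_ge hpos hv1
            rw [div_le_one hApos]; exact hA₀r
    have h3 : (32 : ℝ) ≤ ((32 * A₀ : ℕ) : ℝ) * v ^ (1 / ((32 * A₀ : ℕ) : ℝ)) := by
      push_cast
      have h4 : 1 / (A₀ : ℝ) ≤ v ^ (1 / (32 * (A₀ : ℝ))) := by
        have := hroot
        push_cast at this
        exact h2.trans this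
      calc (32 : ℝ) = 32 * A₀ * (1 / A₀) := by field_simp
        _ ≤ 32 * A₀ * v ^ (1 / (32 * (A₀ : ℝ))) := mul_le_mul_of_nonneg_left h4 (by positivity)
    have hH0 : (0 : ℝ) ≤ H := Nat.cast_nonneg _
    calc (1 + Real.log N) * H ≤ (2 * Real.log N) * H := mul_le_mul_of_nonneg_right (by linarith) hH0
      _ = 2 * (H * Real.log N) := by ring
      _ ≤ (((32 * A₀ : ℕ) : ℝ) * v ^ (1 / ((32 * A₀ : ℕ) : ℝ)) + ε) * (H * Real.log N) := by
          refine mul_le_mul_of_nonneg_right (by linarith) (by positivity)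
      _ = _ := by ring

end Pool.Agent.Helper44K9.FU
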