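import Pool.Agent.Helper44K9.FU.Stm

/-! [KAP] compactness. -/

set_option autoImplicit false

namespace Pool.Agent.Helper44K9.FU

open Finset

/-- [KAP] -/
theorem kap : S_KAP := by
  intro E hE hord Q
  -- one `q`
  have h1 : ∀ q : ℕ, 1 ≤ q → ∃ κ : ℝ, 0 < κ ∧ ∀ x ∈ E, κ ≤ ‖q • x‖ := by
    intro q hq
    rcases E.eq_empty_or_nonempty with rfl | hne
    · exact ⟨1, one_pos, fun x hx => absurd hx (Set.notMem_empty x)⟩
    · have hc : ContinuousOn (fun x : UnitAddCircle => ‖q • x‖) E :=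
        (continuous_norm.comp (continuous_const_smul q)).continuousOn
      obtain ⟨x₀, hx₀, hmin⟩ := hE.exists_isMinOn hne hc
      refine ⟨‖q • x₀‖, ?_, fun x hx => hmin hx⟩
      rw [norm_pos_iff]
      intro h0
      have h2 := addOrderOf_dvd_of_nsmul_eq_zero h0
      rw [hord x₀ hx₀, zero_dvd_iff] at h2
      omega
  have h2 : ∃ κ : ℝ, 0 < κ ∧ ∀ q : ℕ, 1 ≤ q → q ≤ Q → ∀ x ∈ E, κ ≤ ‖q • x‖ := by
    induction Q with
    | zero => exact ⟨1, one_pos, fun q h3 h4 => by omega⟩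
    | succ Q ih =>
      obtain ⟨κ, hκ, h3⟩ := ih
      obtain ⟨κ', hκ', h4⟩ := h1 (Q + 1) (by omega)
      refine ⟨min κ κ', lt_min hκ hκ', fun q h5 h6 x hx => ?_⟩
      rcases Nat.lt_or_ge q (Q + 1) with h7 | h7
      · exact (min_le_left _ _).trans (h3 q h5 (by omega) x hx)
      · have h8 : q = Q + 1 := by omega
        subst h8
        exact (min_le_right _ _).trans (h4 x hx)
  obtain ⟨κ, hκ, h3⟩ := h2
  refine ⟨κ, hκ, fun β hβ q h4 h5 a => ?_⟩
  refine (h3 q h4 h5 _ hβ).trans ?_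
  have h6 : q • (β : UnitAddCircle) = ((q * β : ℝ) : UnitAddCircle) := by
    rw [← AddCircle.coe_nsmul, nsmul_eq_mul]
  rw [h6, UnitAddCircle.norm_eq]
  exact round_le _ a

end Pool.Agent.Helper44K9.FU
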