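import Pool.Agent.Helper44K9.FU.Push

/-!
# [LS] long sums (Daboussi, Katai) (helper71)
-/

set_option autoImplicit false

namespace Pool.Agent.Helper44K9.FU

open Finset Polynomial
open Pool.Agent.H807R2.Dav (ee)

namespace LsL

/-- the duality principle -/
theorem dual (I S : Finset ℕ) (g : ℕ → ℕ → ℂ) (f c : ℕ → ℂ) (hf : ∀ m, ‖f m‖ ≤ 1) :
    ‖∑ p ∈ I, c p * ∑ m ∈ S, f m * g p m‖ ^ 2 ≤
      S.card * ∑ p ∈ I, ∑ q ∈ I, ‖c p‖ * ‖c q‖ * ‖∑ m ∈ S, g p m * (starRingEnd ℂ) (g q m)‖ := by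
  have h1 : ∑ p ∈ I, c p * ∑ m ∈ S, f m * g p m = ∑ m ∈ S, f m * ∑ p ∈ I, c p * g p m := by
    simp_rw [mul_sum]
    rw [sum_comm]
    exact sum_congr rfl fun m _ => sum_congr rfl fun p _ => by ring
  have h2 : ‖∑ p ∈ I, c p * ∑ m ∈ S, f m * g p m‖ ≤ ∑ m ∈ S, ‖∑ p ∈ I, c p * g p m‖ := by
    rw [h1]
    refine (norm_sum_le _ _).trans (sum_le_sum fun m _ => ?_)
    rw [norm_mul]
    exact mul_le_of_le_one_left (norm_nonneg _) (hf m)
  have h3 : (∑ m ∈ S, ‖∑ p ∈ I, c p * g p m‖) ^ 2 ≤ S.card * ∑ m ∈ S, ‖∑ p ∈ I, c p * g p m‖ ^ 2 :=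
    sq_sum_le_card_mul_sum_sq
  have h4 : ((∑ m ∈ S, ‖∑ p ∈ I, c p * g p m‖ ^ 2 : ℝ) : ℂ) =
      ∑ p ∈ I, ∑ q ∈ I, c p * (starRingEnd ℂ) (c q) * ∑ m ∈ S, g p m * (starRingEnd ℂ) (g q m) := by
    push_cast
    have h5 : ∀ m ∈ S, ((‖∑ p ∈ I, c p * g p m‖ : ℂ)) ^ 2 =
        ∑ p ∈ I, ∑ q ∈ I, c p * (starRingEnd ℂ) (c q) * (g p m * (starRingEnd ℂ) (g q m)) := by
      intro m _
      rw [← Complex.mul_conj', map_sum, sum_mul_sum]
      refine sum_congr rfl fun p _ => sum_congr rfl fun q _ => ?_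
      rw [map_mul]
      ring
    rw [sum_congr rfl h5, sum_comm]
    refine sum_congr rfl fun p _ => ?_
    rw [sum_comm]
    refine sum_congr rfl fun q _ => ?_
    rw [mul_sum]
  have h5 : ∑ m ∈ S, ‖∑ p ∈ I, c p * g p m‖ ^ 2 ≤
      ∑ p ∈ I, ∑ q ∈ I, ‖c p‖ * ‖c q‖ * ‖∑ m ∈ S, g p m * (starRingEnd ℂ) (g q m)‖ := by
    have h6 : ∑ m ∈ S, ‖∑ p ∈ I, c p * g p m‖ ^ 2 =
        ‖((∑ m ∈ S, ‖∑ p ∈ I, c p * g p m‖ ^ 2 : ℝ) : ℂ)‖ := by
      rw [Complex.norm_real, Real.norm_of_nonneg (sum_nonneg fun m _ => by positivity)]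
    rw [h6, h4]
    refine (norm_sum_le _ _).trans (sum_le_sum fun p _ => ?_)
    refine (norm_sum_le _ _).trans (sum_le_sum fun q _ => ?_)
    rw [norm_mul, norm_mul, RCLike.norm_conj]
  calc ‖∑ p ∈ I, c p * ∑ m ∈ S, f m * g p m‖ ^ 2 ≤ (∑ m ∈ S, ‖∑ p ∈ I, c p * g p m‖) ^ 2 :=
        pow_le_pow_left₀ (norm_nonneg _) h2 2
    _ ≤ _ := h3.trans (mul_le_mul_of_nonneg_left h5 (Nat.cast_nonneg _))

theorem W_le (f : ℕ → ℂ) (hf : ∀ n, ‖f n‖ ≤ 1) (P : ℝ[X]) (n H : ℕ) : ‖W f P n H‖ ≤ H := by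
  unfold W
  refine (norm_sum_le _ _).trans ?_
  calc ∑ m ∈ Ioc n (n + H), ‖f m * ee (P.eval (m : ℝ))‖ ≤ ∑ m ∈ Ioc n (n + H), (1 : ℝ) := by
        refine sum_le_sum fun m _ => ?_
        rw [norm_mul, Pool.Agent.H807R2.Dav.norm_ee, mul_one]
        exact hf m
    _ = _ := by simp

theorem ee_neg (x : ℝ) : (starRingEnd ℂ) (ee x) = ee (-x) := by
  rw [Pool.Agent.H807R2.Dav.ee_eq, Pool.Agent.H807R2.Dav.ee_eq, ← Complex.exp_conj]
  congr 1
  rw [map_mul, Complex.conj_I, Complex.conj_ofReal]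
  push_cast
  ring

/-- the second moment of the correlations with the dilated phases -/
theorem second (I : Finset ℕ) (hI : ∀ p ∈ I, p.Prime) (P : ℝ[X]) (f : ℕ → ℂ) (hf : ∀ n, ‖f n‖ ≤ 1) (X : ℕ)
    (u : ℝ) (hu : (I.card : ℝ) ^ 2 ≤ u) (hu0 : 0 < u)
    (hE : ∀ p ∈ I, ∀ q ∈ I, p ≠ q →
      u * ‖∑ m ∈ Ioc 0 (0 + min (X / p) (X / q)), ee ((dil p P - dil q P).eval (m : ℝ))‖ ≤ X) :
    ∑ p ∈ I, (p : ℝ) * ‖W f (dil p P) 0 (X / p)‖ ^ 2 ≤ 2 * (X : ℝ) ^ 2 := by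
  classical
  set T : ℝ := ∑ p ∈ I, (p : ℝ) * ‖W f (dil p P) 0 (X / p)‖ ^ 2 with hT
  have hT0 : 0 ≤ T := sum_nonneg fun p _ => by positivity
  obtain ⟨g, hg⟩ : ∃ g : ℕ → ℕ → ℂ, g = fun p m => if m ≤ X / p then ee ((dil p P).eval (m : ℝ)) else 0 := ⟨_, rfl⟩
  obtain ⟨c, hc⟩ : ∃ c : ℕ → ℂ, c = fun p : ℕ => (p : ℂ) * (starRingEnd ℂ) (W f (dil p P) 0 (X / p)) := ⟨_, rfl⟩
  have hW : ∀ p, W f (dil p P) 0 (X / p) = ∑ m ∈ Ioc 0 X, f m * g p m := by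
    intro p
    unfold W
    rw [Nat.zero_add]
    have h1 : Ioc 0 (X / p) = (Ioc 0 X).filter (fun m => m ≤ X / p) := by
      ext m
      rw [mem_filter, mem_Ioc, mem_Ioc]
      have := Nat.div_le_self X p
      generalize X / p = y at this ⊢
      omega
    rw [h1, sum_filter]
    refine sum_congr rfl fun m _ => ?_
    rw [hg]
    simp only
    split_ifs
    · rfl
    · rw [mul_zero]
  have hcn : ∀ p ∈ I, ‖c p‖ ≤ X := by
    intro p hp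
    rw [hc]
    simp only
    rw [norm_mul, RCLike.norm_conj, Complex.norm_natCast]
    have h1 := W_le f hf (dil p P) 0 (X / p)
    have h2 : ((X / p : ℕ) : ℝ) ≤ (X : ℝ) / p := Nat.cast_div_le
    have hp0 : (0 : ℝ) < p := by exact_mod_cast (hI p hp).pos
    calc (p : ℝ) * ‖W f (dil p P) 0 (X / p)‖ ≤ p * ((X : ℝ) / p) :=
          mul_le_mul_of_nonneg_left (h1.trans h2) hp0.le
      _ = X := by field_simp
  have hTc : ((T : ℝ) : ℂ) = ∑ p ∈ I, c p * ∑ m ∈ Ioc 0 X, f m * g p m := by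
    rw [hT]
    push_cast
    refine sum_congr rfl fun p _ => ?_
    rw [← hW p, hc]
    simp only
    rw [mul_assoc, ← Complex.conj_mul']
  have h1 := dual I (Ioc 0 X) g f c hf
  rw [← hTc, Complex.norm_real, Real.norm_of_nonneg hT0, Nat.card_Ioc] at h1
  have hgg : ∀ p q : ℕ, ∑ m ∈ Ioc 0 X, g p m * (starRingEnd ℂ) (g q m) =
      ∑ m ∈ Ioc 0 (0 + min (X / p) (X / q)), ee ((dil p P - dil q P).eval (m : ℝ)) := by
    intro p q
    have h2 : Ioc 0 (0 + min (X / p) (X / q)) = (Ioc 0 X).filter (fun m => m ≤ X / p ∧ m ≤ X / q) := by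
      ext m
      rw [mem_filter, mem_Ioc, mem_Ioc]
      have := Nat.div_le_self X p
      generalize X / p = y at this ⊢
      generalize X / q = z at this ⊢
      omega
    rw [h2, sum_filter]
    refine sum_congr rfl fun m _ => ?_
    rw [hg]
    simp only
    by_cases h3 : m ≤ X / p
    · by_cases h4 : m ≤ X / q
      · rw [if_pos h3, if_pos h4, if_pos ⟨h3, h4⟩, ee_neg, ← Pool.Agent.H807R2.Dav.ee_add, eval_sub]
        congr 1
      · rw [if_neg h4, if_neg (fun h : m ≤ X / p ∧ m ≤ X / q => h4 h.2), map_zero, mul_zero]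
    · rw [if_neg h3, if_neg (fun h : m ≤ X / p ∧ m ≤ X / q => h3 h.1), zero_mul]
  have hdiag : ∀ p ∈ I, ∑ q ∈ I, ‖c p‖ * ‖c q‖ * ‖∑ m ∈ Ioc 0 X, g p m * (starRingEnd ℂ) (g q m)‖ ≤
      X * ((p : ℝ) * ‖W f (dil p P) 0 (X / p)‖ ^ 2) + I.card * ((X : ℝ) ^ 3 / u) := by
    intro p hp
    have hp0 : (0 : ℝ) < p := by exact_mod_cast (hI p hp).pos
    rw [← add_sum_erase I _ hp]
    apply add_le_add
    · rw [hgg p p, min_self, sub_self, Nat.zero_add]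
      simp only [eval_zero, Pool.Agent.H807R2.Dav.ee_zero, sum_const, Nat.card_Ioc, Nat.sub_zero, nsmul_eq_mul,
        mul_one, Complex.norm_natCast]
      have h2 : ((X / p : ℕ) : ℝ) ≤ (X : ℝ) / p := Nat.cast_div_le
      have h3 : ‖c p‖ = p * ‖W f (dil p P) 0 (X / p)‖ := by
        rw [hc]
        simp only
        rw [norm_mul, RCLike.norm_conj, Complex.norm_natCast]
      rw [h3]
      calc (p : ℝ) * ‖W f (dil p P) 0 (X / p)‖ * (p * ‖W f (dil p P) 0 (X / p)‖) * ((X / p : ℕ) : ℝ)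
          ≤ (p : ℝ) * ‖W f (dil p P) 0 (X / p)‖ * (p * ‖W f (dil p P) 0 (X / p)‖) * ((X : ℝ) / p) :=
            mul_le_mul_of_nonneg_left h2 (by positivity)
        _ = _ := by field_simp
    · calc ∑ q ∈ I.erase p, ‖c p‖ * ‖c q‖ * ‖∑ m ∈ Ioc 0 X, g p m * (starRingEnd ℂ) (g q m)‖
          ≤ ∑ q ∈ I.erase p, (X : ℝ) ^ 3 / u := by
            refine sum_le_sum fun q hq => ?_
            rw [mem_erase] at hq
            rw [hgg p q]
            have h3 := hE p hp q hq.2 (fun h => hq.1 h.symm)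
            have h4 : ‖∑ m ∈ Ioc 0 (0 + min (X / p) (X / q)), ee ((dil p P - dil q P).eval (m : ℝ))‖ ≤ X / u := by
              rw [le_div_iff₀ hu0]
              linarith
            calc ‖c p‖ * ‖c q‖ * _ ≤ (X : ℝ) * X * (X / u) := by
                  apply mul_le_mul _ h4 (norm_nonneg _) (by positivity)
                  exact mul_le_mul (hcn p hp) (hcn q hq.2) (norm_nonneg _) (by positivity)
              _ = _ := by ring
        _ ≤ I.card * ((X : ℝ) ^ 3 / u) := by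
            rw [sum_const, nsmul_eq_mul]
            apply mul_le_mul_of_nonneg_right _ (by positivity)
            exact_mod_cast card_le_card (erase_subset p I)
  have h2 : T ^ 2 ≤ X * (X * T + X ^ 3) := by
    refine h1.trans ?_
    simp only [Nat.sub_zero]
    apply mul_le_mul_of_nonneg_left _ (Nat.cast_nonneg _)
    refine (sum_le_sum hdiag).trans ?_
    rw [sum_add_distrib, ← mul_sum, ← hT, sum_const, nsmul_eq_mul]
    have h3 : (I.card : ℝ) * (I.card * ((X : ℝ) ^ 3 / u)) ≤ (X : ℝ) ^ 3 := by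
      have h4 : (I.card : ℝ) * (I.card * ((X : ℝ) ^ 3 / u)) = (X : ℝ) ^ 3 * ((I.card : ℝ) ^ 2 / u) := by ring
      rw [h4]
      exact mul_le_of_le_one_right (by positivity) ((div_le_one hu0).2 hu)
    linarith
  by_contra hcon
  push Not at hcon
  have hX : (0 : ℝ) ≤ (X : ℝ) ^ 2 := by positivity
  nlinarith

/-- finite sets of primes with a large sum of the reciprocals -/
theorem exists_primes (A : ℝ) : ∃ I : Finset ℕ, (∀ p ∈ I, p.Prime) ∧ A ≤ ∑ p ∈ I, 1 / (p : ℝ) := by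
  have h := not_summable_one_div_on_primes
  by_contra hcon
  push Not at hcon
  apply h
  apply summable_of_sum_le (c := A)
  · intro n
    exact Set.indicator_nonneg (fun n _ => by positivity) n
  · intro u
    classical
    have h1 : ∑ x ∈ u, {p : ℕ | p.Prime}.indicator (fun n : ℕ => (1 : ℝ) / n) x =
        ∑ p ∈ u.filter Nat.Prime, 1 / (p : ℝ) := by
      rw [sum_filter]
      refine sum_congr rfl fun x _ => ?_
      rw [Set.indicator_apply]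
      rfl
    rw [h1]
    exact (hcon (u.filter Nat.Prime) fun p hp => (mem_filter.1 hp).2).le

/-- the leading coefficient of the difference of two dilations -/
theorem coeff_dil (d p q : ℕ) (P : ℝ[X]) :
    (dil p P - dil q P).coeff d = ((p : ℝ) ^ d - (q : ℝ) ^ d) * P.coeff d := by
  unfold dil
  rw [coeff_sub, comp_C_mul_X_coeff, comp_C_mul_X_coeff]
  ring

theorem natDegree_dil (d p q : ℕ) (P : ℝ[X]) (hP : P.natDegree ≤ d) : (dil p P - dil q P).natDegree ≤ d := by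
  have h : ∀ r : ℕ, (dil r P).natDegree ≤ d := by
    intro r
    unfold dil
    rw [natDegree_comp]
    calc P.natDegree * (C (r : ℝ) * X).natDegree ≤ P.natDegree * 1 :=
          Nat.mul_le_mul_left _ ((natDegree_C_mul_le _ _).trans natDegree_X_le)
      _ ≤ d := by omega
  exact (natDegree_sub_le _ _).trans (max_le (h p) (h q))

end LsL

open LsL in
/-- [LS] -/
theorem ls : S_WR → S_TK → S_KAP → S_LS := by
  intro hwr htk hkap d hd E hE hEo ε hε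
  -- constants
  have hsum : Summable fun n : ℕ => 1 / (n : ℝ) ^ 2 := Real.summable_one_div_nat_pow.2 (by norm_num)
  set Z : ℝ := ∑' n : ℕ, 1 / (n : ℝ) ^ 2 with hZ
  have hZ0 : 0 ≤ Z := tsum_nonneg fun n => by positivity
  obtain ⟨I, hI, hIA⟩ := exists_primes ((24 + 100 * Z) / ε ^ 2)
  set u : ℝ := (I.card : ℝ) ^ 2 + 1 with hu
  have hu1 : 1 ≤ u := by
    rw [hu]
    have : (0 : ℝ) ≤ (I.card : ℝ) ^ 2 := by positivity
    linarith
  obtain ⟨K, hK, hWR⟩ := hwr d hd u hu1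
  obtain ⟨B, hB⟩ : ∃ B : ℕ, ∀ p ∈ I, p ≤ B := ⟨I.sup id, fun p hp => le_sup (f := id) hp⟩
  obtain ⟨κ, hκ, hKAP⟩ := hkap E hE hEo (K * B ^ d)
  obtain ⟨H₀, hTK⟩ := htk I hI
  obtain ⟨H₁, hH₁⟩ := exists_nat_gt ((K : ℝ) / κ)
  refine ⟨max H₀ (max (B * (H₁ + 1)) (B ^ 2)), fun X hX f hf P hP hPE => ?_⟩
  have hX0 : H₀ ≤ X := (le_max_left _ _).trans hX
  have hX1 : B * (H₁ + 1) ≤ X := ((le_max_left _ _).trans (le_max_right _ _)).trans hX
  have hX2 : B ^ 2 ≤ X := ((le_max_right _ _).trans (le_max_right _ _)).trans hX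
  -- the second moment
  have hT := second I hI P f hf.1 X u (by rw [hu]; linarith) (by linarith) (by
    intro p hp q hq hpq
    have hdiv : ∀ r ∈ I, H₁ + 1 ≤ X / r := by
      intro r hr
      rw [Nat.le_div_iff_mul_le (hI r hr).pos]
      calc (H₁ + 1) * r ≤ (H₁ + 1) * B := Nat.mul_le_mul_left _ (hB r hr)
        _ = B * (H₁ + 1) := mul_comm _ _
        _ ≤ X := hX1
    obtain ⟨H, hH⟩ : ∃ H, H = min (X / p) (X / q) := ⟨_, rfl⟩
    have hH1 : H₁ + 1 ≤ H := by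
      rw [hH]
      exact le_min (hdiv p hp) (hdiv q hq)
    have hHX : H ≤ X := by
      rw [hH]
      exact (min_le_left _ _).trans (Nat.div_le_self _ _)
    rw [← hH]
    by_contra hcon
    push Not at hcon
    have hHX' : (H : ℝ) ≤ X := by exact_mod_cast hHX
    obtain ⟨m, hm1, hm2, a, ha⟩ := hWR (dil p P - dil q P) 0 H (natDegree_dil d p q P hP) (by omega)
      (by linarith)
    rw [coeff_dil] at ha
    have hHr : (H₁ : ℝ) + 1 ≤ H := by exact_mod_cast hH1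
    have hH0 : (1 : ℝ) ≤ H := by
      have : (0 : ℝ) ≤ (H₁ : ℝ) := Nat.cast_nonneg _
      linarith
    have hsmall : (K : ℝ) / (H : ℝ) ^ d < κ := by
      rw [div_lt_iff₀ (by positivity)]
      have h1 : (H : ℝ) ≤ (H : ℝ) ^ d := by
        calc (H : ℝ) = (H : ℝ) ^ 1 := (pow_one _).symm
          _ ≤ (H : ℝ) ^ d := pow_le_pow_right₀ hH0 hd
      have h2 : (K : ℝ) < κ * H := by
        have := (div_lt_iff₀ hκ).1 hH₁
        nlinarith
      nlinarith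
    -- the multiplier
    have hkey : ∀ p q : ℕ, q < p → p ≤ B → ∀ a : ℤ, κ ≤ |(m : ℝ) * (((p : ℝ) ^ d - (q : ℝ) ^ d) * P.coeff d) - a| := by
      intro p q hqp hpB a
      have h1 : q ^ d < p ^ d := Nat.pow_lt_pow_left hqp (by omega)
      have h2 := hKAP (P.coeff d) hPE (m * (p ^ d - q ^ d)) (Nat.mul_pos hm1 (Nat.sub_pos_of_lt h1))
        (by
          apply Nat.mul_le_mul hm2
          exact (Nat.sub_le _ _).trans (Nat.pow_le_pow_left hpB d)) a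
      rw [Nat.cast_mul, Nat.cast_sub h1.le, Nat.cast_pow, Nat.cast_pow] at h2
      rwa [mul_assoc] at h2
    rcases lt_or_gt_of_ne hpq with h | h
    · have h1 := hkey q p h (hB q hq) (-a)
      have h2 : |(m : ℝ) * (((q : ℝ) ^ d - (p : ℝ) ^ d) * P.coeff d) - ((-a : ℤ) : ℝ)| =
          |(m : ℝ) * (((p : ℝ) ^ d - (q : ℝ) ^ d) * P.coeff d) - a| := by
        rw [← abs_neg]
        congr 1
        push_cast
        ring
      rw [h2] at h1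
      linarith
    · have h1 := hkey p q h (hB p hp) a
      linarith)
  -- Turan-Kubilius
  have hee : ∀ x : ℝ, ‖ee x‖ = 1 := fun x => Pool.Agent.H807R2.Dav.norm_ee x
  have h1 := hTK X hX0 0 (fun m => f m * ee (P.eval (m : ℝ))) (fun m => by
    rw [norm_mul, hee, mul_one]
    exact hf.1 m)
  obtain ⟨A, hA⟩ : ∃ A, A = W f P 0 X := ⟨_, rfl⟩
  have hA' : ∑ m ∈ Ioc 0 (0 + X), f m * ee (P.eval (m : ℝ)) = A := by
    rw [hA]
    rfl
  rw [hA'] at h1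
  rw [← hA]
  obtain ⟨D, hD⟩ : ∃ D : ℕ → ℂ, D = fun p => ∑ m ∈ (Ioc 0 (0 + X)).filter (fun m => p ∣ m),
    f m * ee (P.eval (m : ℝ)) := ⟨_, rfl⟩
  have h1' : ∑ p ∈ I, (1 / (p : ℝ)) * ‖(p : ℂ) * D p - A‖ ^ 2 ≤ 8 * (X : ℝ) ^ 2 := by
    rw [hD]
    exact h1
  have hDp : ∀ p ∈ I, (1 / (p : ℝ)) * ‖(p : ℂ) * D p‖ ^ 2 ≤
      2 * ((p : ℝ) * ‖W f (dil p P) 0 (X / p)‖ ^ 2) + 50 * (X : ℝ) ^ 2 * (1 / (p : ℝ) ^ 2) := by
    intro p hp
    have hp1 : (1 : ℝ) ≤ p := by exact_mod_cast (hI p hp).one_lt.le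
    have hp0 : (0 : ℝ) < p := by linarith
    have h2 := PushL.main hf P 0 X p (hI p hp)
    rw [Nat.zero_div] at h2
    have h2' : ‖D p‖ ≤ ‖W f (dil p P) 0 (X / p)‖ + 3 + 2 * ((X : ℝ) / (p * p)) := by
      rw [hD]
      exact h2
    have hpX : (p : ℝ) * p ≤ X := by
      have h3 : p * p ≤ X := by
        calc p * p ≤ B * B := Nat.mul_le_mul (hB p hp) (hB p hp)
          _ = B ^ 2 := by ring
          _ ≤ X := hX2
      exact_mod_cast h3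
    have h3 : (1 : ℝ) ≤ (X : ℝ) / (p * p) := by
      rw [le_div_iff₀ (by positivity)]
      linarith
    obtain ⟨w, hw⟩ : ∃ w, w = ‖W f (dil p P) 0 (X / p)‖ := ⟨_, rfl⟩
    have hw0 : 0 ≤ w := by rw [hw]; exact norm_nonneg _
    rw [← hw] at h2' ⊢
    have h4 : ‖D p‖ ≤ w + 5 * ((X : ℝ) / (p * p)) := by linarith
    rw [norm_mul, Complex.norm_natCast]
    have h5 : ‖D p‖ ^ 2 ≤ 2 * w ^ 2 + 50 * ((X : ℝ) / (p * p)) ^ 2 := by
      have h6 : ‖D p‖ ^ 2 ≤ (w + 5 * ((X : ℝ) / (p * p))) ^ 2 := pow_le_pow_left₀ (norm_nonneg _) h4 2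
      nlinarith [sq_nonneg (w - 5 * ((X : ℝ) / (p * p)))]
    calc (1 / (p : ℝ)) * ((p : ℝ) * ‖D p‖) ^ 2 = p * ‖D p‖ ^ 2 := by field_simp
      _ ≤ p * (2 * w ^ 2 + 50 * ((X : ℝ) / (p * p)) ^ 2) := mul_le_mul_of_nonneg_left h5 hp0.le
      _ = 2 * (p * w ^ 2) + 50 * (X : ℝ) ^ 2 * (1 / (p : ℝ) ^ 3) := by
          field_simp
      _ ≤ 2 * (p * w ^ 2) + 50 * (X : ℝ) ^ 2 * (1 / (p : ℝ) ^ 2) := by
          have h6 : 1 / (p : ℝ) ^ 3 ≤ 1 / (p : ℝ) ^ 2 := by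
            apply one_div_le_one_div_of_le (by positivity)
            exact pow_le_pow_right₀ hp1 (by norm_num)
          have h7 : (0 : ℝ) ≤ 50 * (X : ℝ) ^ 2 := by positivity
          nlinarith [mul_le_mul_of_nonneg_left h6 h7]
  have hZle : ∑ p ∈ I, 1 / (p : ℝ) ^ 2 ≤ Z := hsum.sum_le_tsum I (fun n _ => by positivity)
  have h3 : ∑ p ∈ I, (1 / (p : ℝ)) * ‖(p : ℂ) * D p‖ ^ 2 ≤ 4 * (X : ℝ) ^ 2 + 50 * (X : ℝ) ^ 2 * Z := by
    refine (sum_le_sum hDp).trans ?_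
    rw [sum_add_distrib, ← mul_sum, ← mul_sum]
    have h4 : 50 * (X : ℝ) ^ 2 * ∑ p ∈ I, 1 / (p : ℝ) ^ 2 ≤ 50 * (X : ℝ) ^ 2 * Z :=
      mul_le_mul_of_nonneg_left hZle (by positivity)
    linarith
  have h4 : (∑ p ∈ I, 1 / (p : ℝ)) * ‖A‖ ^ 2 ≤ (24 + 100 * Z) * (X : ℝ) ^ 2 := by
    have h5 : ∀ p ∈ I, (1 / (p : ℝ)) * ‖A‖ ^ 2 ≤
        2 * ((1 / (p : ℝ)) * ‖(p : ℂ) * D p - A‖ ^ 2) + 2 * ((1 / (p : ℝ)) * ‖(p : ℂ) * D p‖ ^ 2) := by
      intro p _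
      have h6 : ‖A‖ ≤ ‖(p : ℂ) * D p - A‖ + ‖(p : ℂ) * D p‖ := by
        have : A = (p : ℂ) * D p - ((p : ℂ) * D p - A) := by ring
        calc ‖A‖ = ‖(p : ℂ) * D p - ((p : ℂ) * D p - A)‖ := by rw [← this]
          _ ≤ ‖(p : ℂ) * D p‖ + ‖(p : ℂ) * D p - A‖ := norm_sub_le _ _
          _ = _ := add_comm _ _
      have h7 : ‖A‖ ^ 2 ≤ 2 * ‖(p : ℂ) * D p - A‖ ^ 2 + 2 * ‖(p : ℂ) * D p‖ ^ 2 := by
        have h8 : ‖A‖ ^ 2 ≤ (‖(p : ℂ) * D p - A‖ + ‖(p : ℂ) * D p‖) ^ 2 :=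
          pow_le_pow_left₀ (norm_nonneg _) h6 2
        nlinarith [sq_nonneg (‖(p : ℂ) * D p - A‖ - ‖(p : ℂ) * D p‖)]
      have h9 : (0 : ℝ) ≤ 1 / (p : ℝ) := by positivity
      nlinarith [mul_le_mul_of_nonneg_left h7 h9]
    rw [sum_mul]
    refine (sum_le_sum h5).trans ?_
    rw [sum_add_distrib, ← mul_sum, ← mul_sum]
    nlinarith
  -- the conclusion
  have hε2 : 0 < ε ^ 2 := by positivity
  have h5 : (24 + 100 * Z) ≤ (∑ p ∈ I, 1 / (p : ℝ)) * ε ^ 2 := (div_le_iff₀ hε2).1 hIA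
  have h6 : 0 < ∑ p ∈ I, 1 / (p : ℝ) := by
    by_contra hcon
    push Not at hcon
    have : (∑ p ∈ I, 1 / (p : ℝ)) * ε ^ 2 ≤ 0 := mul_nonpos_of_nonpos_of_nonneg hcon hε2.le
    linarith
  have h7 : (∑ p ∈ I, 1 / (p : ℝ)) * ‖A‖ ^ 2 ≤ (∑ p ∈ I, 1 / (p : ℝ)) * (ε * X) ^ 2 := by
    calc (∑ p ∈ I, 1 / (p : ℝ)) * ‖A‖ ^ 2 ≤ (24 + 100 * Z) * (X : ℝ) ^ 2 := h4
      _ ≤ ((∑ p ∈ I, 1 / (p : ℝ)) * ε ^ 2) * (X : ℝ) ^ 2 :=
          mul_le_mul_of_nonneg_right h5 (by positivity)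
      _ = _ := by ring
  have h8 : ‖A‖ ^ 2 ≤ (ε * X) ^ 2 := le_of_mul_le_mul_left h7 h6
  exact (pow_le_pow_iff_left₀ (norm_nonneg _) (by positivity) (by norm_num)).1 h8

end Pool.Agent.Helper44K9.FU
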