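import Pool.Agent.Helper44K9.FU.Stm

/-! [PIG] pigeonhole over the levels. -/

set_option autoImplicit false

namespace Pool.Agent.Helper44K9.FU

open Finset

namespace PigL

theorem mm_eq (H₁ H₂ N : ℕ) (F : ℕ → ℕ → ℝ) : MM H₁ H₂ N F =
    ∑ x ∈ Ico H₁ H₂ ×ˢ Icc 1 N, (1 / (x.1 : ℝ) * (1 / (x.2 : ℝ))) * F x.2 x.1 := by
  unfold MM
  rw [Finset.sum_product]
  refine Finset.sum_congr rfl fun H _ => ?_
  rw [Finset.mul_sum]
  exact Finset.sum_congr rfl fun n _ => by ring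

theorem mm_mono {H₁ H₂ N : ℕ} {F G : ℕ → ℕ → ℝ}
    (h : ∀ H ∈ Ico H₁ H₂, ∀ n ∈ Icc 1 N, F n H ≤ G n H) : MM H₁ H₂ N F ≤ MM H₁ H₂ N G := by
  rw [mm_eq, mm_eq]
  refine Finset.sum_le_sum fun x hx => ?_
  obtain ⟨h1, h2⟩ := Finset.mem_product.1 hx
  exact mul_le_mul_of_nonneg_left (h _ h1 _ h2) (by positivity)

theorem mm_add (H₁ H₂ N : ℕ) (F G : ℕ → ℕ → ℝ) :
    MM H₁ H₂ N (fun n H => F n H + G n H) = MM H₁ H₂ N F + MM H₁ H₂ N G := by
  simp only [mm_eq, mul_add, Finset.sum_add_distrib]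

theorem mm_sub (H₁ H₂ N : ℕ) (F G : ℕ → ℕ → ℝ) :
    MM H₁ H₂ N (fun n H => F n H - G n H) = MM H₁ H₂ N F - MM H₁ H₂ N G := by
  simp only [mm_eq, mul_sub, Finset.sum_sub_distrib]

theorem mm_smul (H₁ H₂ N : ℕ) (c : ℝ) (F : ℕ → ℕ → ℝ) :
    MM H₁ H₂ N (fun n H => c * F n H) = c * MM H₁ H₂ N F := by
  simp only [mm_eq, Finset.mul_sum]
  exact Finset.sum_congr rfl fun x _ => by ring

theorem mm_sum (H₁ H₂ N : ℕ) (I : Finset ℕ) (w : ℕ → ℝ) (F : ℕ → ℕ → ℕ → ℝ) :
    ∑ p ∈ I, w p * MM H₁ H₂ N (F p) = MM H₁ H₂ N (fun n H => ∑ p ∈ I, w p * F p n H) := by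
  simp only [mm_eq, Finset.mul_sum]
  rw [Finset.sum_comm]
  exact Finset.sum_congr rfl fun x _ => Finset.sum_congr rfl fun p _ => by ring

end PigL

open PigL

open Classical in
/-- [PIG] -/
theorem pig : S_PIG := by
  intro I w hw hw1 J R H₁ H₂ N κ er r hJ hR hA hB
  set T := MM H₁ H₂ N (fun _ _ => 1) with hT
  have hT0 : 0 ≤ T := by
    rw [hT, mm_eq]
    exact Finset.sum_nonneg fun x _ => by positivity
  set a : ℕ → ℝ := fun j => MM H₁ H₂ N (fun n H => (r j n H : ℝ)) with ha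
  set S : ℕ → ℝ := fun j => ∑ p ∈ I, w p * MM H₁ H₂ N
    (fun n H => if r (j + 1) (n / p) (H / p) ≠ r j n H then 1 else 0) with hS
  have hpt : ∀ x y : ℕ, x ≤ R → y ≤ R → (if x ≠ y then (1 : ℝ) else 0) ≤
      ((x : ℝ) - y) + ((R : ℝ) + 1) * (if x < y then 1 else 0) := by
    intro x y hx hy
    have hx' : (x : ℝ) ≤ R := by exact_mod_cast hx
    have hy' : (y : ℝ) ≤ R := by exact_mod_cast hy
    rcases lt_trichotomy x y with h | h | h
    · have h0 : (0 : ℝ) ≤ x := Nat.cast_nonneg x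
      rw [if_pos h.ne, if_pos h]
      linarith
    · subst h
      simp
    · have h2 : (y : ℝ) + 1 ≤ x := by exact_mod_cast h
      rw [if_pos h.ne', if_neg (by omega)]
      linarith
  have hstep : ∀ j < J, S j ≤ a (j + 1) - a j + er + ((R : ℝ) + 1) * κ * T := by
    intro j hj
    have h1 : S j ≤ ∑ p ∈ I, w p * (MM H₁ H₂ N (fun n H => (r (j + 1) (n / p) (H / p) : ℝ)) - a j +
        ((R : ℝ) + 1) * MM H₁ H₂ N
          (fun n H => if r (j + 1) (n / p) (H / p) < r j n H then 1 else 0)) := by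
      refine Finset.sum_le_sum fun p hp => mul_le_mul_of_nonneg_left ?_ (hw p hp)
      rw [ha]
      simp only
      rw [← mm_sub, ← mm_smul, ← mm_add]
      exact mm_mono fun H _ n _ => hpt _ _ (hR _ _ _) (hR _ _ _)
    have h2 : ∑ p ∈ I, w p * (MM H₁ H₂ N (fun n H => (r (j + 1) (n / p) (H / p) : ℝ)) - a j) ≤
        a (j + 1) - a j + er := by
      calc ∑ p ∈ I, w p * (MM H₁ H₂ N (fun n H => (r (j + 1) (n / p) (H / p) : ℝ)) - a j)
          ≤ ∑ p ∈ I, w p * (a (j + 1) - a j + er) := by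
            refine Finset.sum_le_sum fun p hp => mul_le_mul_of_nonneg_left ?_ (hw p hp)
            have := hA j hj p hp
            simp only [ha]
            linarith
        _ = a (j + 1) - a j + er := by rw [← Finset.sum_mul, hw1, one_mul]
    have h3 : ∑ p ∈ I, w p * MM H₁ H₂ N
        (fun n H => if r (j + 1) (n / p) (H / p) < r j n H then 1 else 0) ≤ κ * T := by
      rw [mm_sum H₁ H₂ N I w (fun p n H => if r (j + 1) (n / p) (H / p) < r j n H then 1 else 0), hT,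
        ← mm_smul]
      refine mm_mono fun H hH n hn => ?_
      rw [mul_one]
      refine le_trans (le_of_eq ?_) (hB j hj H hH n hn)
      rw [Finset.sum_filter]
      exact Finset.sum_congr rfl fun p _ => by split_ifs <;> simp
    have h4 : ∑ p ∈ I, w p * (MM H₁ H₂ N (fun n H => (r (j + 1) (n / p) (H / p) : ℝ)) - a j +
        ((R : ℝ) + 1) * MM H₁ H₂ N
          (fun n H => if r (j + 1) (n / p) (H / p) < r j n H then 1 else 0)) =
        ∑ p ∈ I, w p * (MM H₁ H₂ N (fun n H => (r (j + 1) (n / p) (H / p) : ℝ)) - a j) +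
        ((R : ℝ) + 1) * ∑ p ∈ I, w p * MM H₁ H₂ N
          (fun n H => if r (j + 1) (n / p) (H / p) < r j n H then 1 else 0) := by
      rw [Finset.mul_sum, ← Finset.sum_add_distrib]
      exact Finset.sum_congr rfl fun p _ => by ring
    rw [h4] at h1
    have h5 : ((R : ℝ) + 1) * ∑ p ∈ I, w p * MM H₁ H₂ N
        (fun n H => if r (j + 1) (n / p) (H / p) < r j n H then 1 else 0) ≤
        ((R : ℝ) + 1) * (κ * T) := mul_le_mul_of_nonneg_left h3 (by positivity)
    nlinarith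
  have hJ0 : (0 : ℝ) < J := by exact_mod_cast hJ
  by_contra hcon
  push Not at hcon
  have h1 : ∀ j ∈ Finset.range J, ((R : ℝ) / J + (R + 1) * κ) * T + er <
      a (j + 1) - a j + er + ((R : ℝ) + 1) * κ * T := fun j hj =>
    (hcon j (Finset.mem_range.1 hj)).trans_le (hstep j (Finset.mem_range.1 hj))
  have h2 := Finset.sum_lt_sum_of_nonempty (Finset.nonempty_range_iff.2 (by omega)) h1
  rw [Finset.sum_const, Finset.card_range, nsmul_eq_mul] at h2
  have h3 : ∑ j ∈ Finset.range J, (a (j + 1) - a j + er + ((R : ℝ) + 1) * κ * T) =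
      a J - a 0 + J * (er + ((R : ℝ) + 1) * κ * T) := by
    have h4 : ∀ j ∈ Finset.range J, a (j + 1) - a j + er + ((R : ℝ) + 1) * κ * T =
        (a (j + 1) - a j) + (er + ((R : ℝ) + 1) * κ * T) := fun j _ => by ring
    rw [Finset.sum_congr rfl h4, Finset.sum_add_distrib, Finset.sum_range_sub, Finset.sum_const,
      Finset.card_range, nsmul_eq_mul]
  rw [h3] at h2
  have h5 : a J ≤ R * T := by
    rw [hT, ← mm_smul]
    refine mm_mono fun H _ n _ => ?_
    rw [mul_one]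
    exact_mod_cast hR J n H
  have h6 : 0 ≤ a 0 := by
    simp only [ha]
    rw [mm_eq]
    exact Finset.sum_nonneg fun x _ => by positivity
  have h7 : (J : ℝ) * (((R : ℝ) / J + (R + 1) * κ) * T + er) =
      R * T + J * (er + ((R : ℝ) + 1) * κ * T) := by
    field_simp
    ring
  rw [h7] at h2
  linarith

end Pool.Agent.Helper44K9.FU
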