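import Pool.Agent.Helper44K9.FU.Stm

/-!
# [PUSH] correlations go down to shorter windows (helper38)
-/

set_option autoImplicit false

namespace Pool.Agent.Helper44K9.FU

open Finset Polynomial
open Pool.Agent.H807R2.Dav (ee)

namespace PushL

/-- multiples of `p` in a window -/
theorem reindex (p n H : ℕ) (hp : 0 < p) (a : ℕ → ℂ) :
    ∑ m ∈ (Ioc n (n + H)).filter (fun m => p ∣ m), a m = ∑ m ∈ Ioc (n / p) ((n + H) / p), a (p * m) := by
  symm
  apply sum_nbij (fun m => p * m)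
  · intro m hm
    rw [mem_Ioc] at hm
    rw [mem_filter, mem_Ioc]
    refine ⟨⟨?_, ?_⟩, Nat.dvd_mul_right p m⟩
    · have := (Nat.div_lt_iff_lt_mul hp).1 hm.1
      rwa [mul_comm] at this
    · have := (Nat.le_div_iff_mul_le hp).1 hm.2
      rwa [mul_comm] at this
  · intro x _ y _ hxy
    exact Nat.eq_of_mul_eq_mul_left hp hxy
  · intro m hm
    rw [mem_coe, mem_filter, mem_Ioc] at hm
    obtain ⟨k, hk⟩ := hm.2
    refine ⟨k, ?_, hk.symm⟩
    rw [mem_coe, mem_Ioc]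
    refine ⟨(Nat.div_lt_iff_lt_mul hp).2 ?_, (Nat.le_div_iff_mul_le hp).2 ?_⟩
    · rw [mul_comm, ← hk]; exact hm.1.1
    · rw [mul_comm, ← hk]; exact hm.1.2
  · intro m _
    rfl

/-- the multiples of `p` in the shorter window -/
theorem few (p n H : ℕ) (hp : 0 < p) :
    (((Ioc (n / p) ((n + H) / p)).filter (fun m => p ∣ m)).card : ℝ) ≤ (H : ℝ) / (p * p) + 1 := by
  have h1 : (((Ioc (n / p) ((n + H) / p)).filter (fun m => p ∣ m)).card) =
      (n + H) / p / p - n / p / p := by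
    have h2 : ((Ioc 0 ((n + H) / p)).filter (fun m => p ∣ m)).card =
        ((Ioc 0 (n / p)).filter (fun m => p ∣ m)).card +
          ((Ioc (n / p) ((n + H) / p)).filter (fun m => p ∣ m)).card := by
      rw [← card_union_of_disjoint]
      · congr 1
        rw [← filter_union]
        congr 1
        ext m
        have : n / p ≤ (n + H) / p := Nat.div_le_div_right (Nat.le_add_right n H)
        simp only [mem_union, mem_Ioc]
        generalize n / p = c at this ⊢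
        generalize (n + H) / p = d at this ⊢
        omega
      · apply disjoint_filter_filter
        rw [disjoint_left]
        intro m hm hm'
        rw [mem_Ioc] at hm hm'
        omega
    rw [Nat.Ioc_filter_dvd_card_eq_div, Nat.Ioc_filter_dvd_card_eq_div] at h2
    omega
  have hp0 : (0 : ℝ) < p := by exact_mod_cast hp
  have h3 : (n + H) / p / p - n / p / p ≤ H / (p * p) + 1 := by
    rw [Nat.div_div_eq_div_mul, Nat.div_div_eq_div_mul]
    have h4 : (n + H) / (p * p) ≤ n / (p * p) + H / (p * p) + 1 := by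
      have hpp : 0 < p * p := Nat.mul_pos hp hp
      have h5 := Nat.lt_div_mul_add (a := n) hpp
      have h6 := Nat.lt_div_mul_add (a := H) hpp
      apply Nat.lt_succ_iff.1
      rw [Nat.div_lt_iff_lt_mul hpp]
      nlinarith
    generalize n / (p * p) = c1 at h4 ⊢
    generalize H / (p * p) = c2 at h4 ⊢
    generalize (n + H) / (p * p) = c3 at h4 ⊢
    omega
  rw [h1]
  have h4 : (((n + H) / p / p - n / p / p : ℕ) : ℝ) ≤ ((H / (p * p) + 1 : ℕ) : ℝ) := by
    exact_mod_cast h3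
  refine h4.trans ?_
  push_cast
  have h5 : ((H / (p * p) : ℕ) : ℝ) ≤ (H : ℝ) / ((p * p : ℕ) : ℝ) := Nat.cast_div_le
  push_cast at h5
  linarith

/-- the main estimate -/
theorem main {f : ℕ → ℂ} (hf : Mul1 f) (P : ℝ[X]) (n H p : ℕ) (hp : p.Prime) :
    ‖∑ m ∈ (Ioc n (n + H)).filter (fun m => p ∣ m), f m * ee (P.eval (m : ℝ))‖ ≤
      ‖W f (dil p P) (n / p) (H / p)‖ + 3 + 2 * ((H : ℝ) / (p * p)) := by
  classical
  have hee : ∀ x : ℝ, ‖ee x‖ = 1 := fun x => Pool.Agent.H807R2.Dav.norm_ee x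
  rw [reindex p n H hp.pos fun m => f m * ee (P.eval (m : ℝ))]
  obtain ⟨g, hg⟩ : ∃ g : ℕ → ℂ, g = fun m => f m * ee ((dil p P).eval (m : ℝ)) := ⟨_, rfl⟩
  have hg1 : ∀ m, ‖g m‖ ≤ 1 := fun m => by
    rw [hg]
    simp only
    rw [norm_mul, hee, mul_one]
    exact hf.1 m
  have hev : ∀ m : ℕ, (dil p P).eval (m : ℝ) = P.eval ((p * m : ℕ) : ℝ) := by
    intro m
    unfold dil
    simp
  -- the first error
  have h1 : ‖∑ m ∈ Ioc (n / p) ((n + H) / p), f (p * m) * ee (P.eval ((p * m : ℕ) : ℝ)) -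
      f p * ∑ m ∈ Ioc (n / p) ((n + H) / p), g m‖ ≤ 2 * ((H : ℝ) / (p * p) + 1) := by
    rw [mul_sum, ← sum_sub_distrib]
    have h2 : ∀ m ∈ Ioc (n / p) ((n + H) / p),
        ‖f (p * m) * ee (P.eval ((p * m : ℕ) : ℝ)) - f p * g m‖ ≤ if p ∣ m then 2 else 0 := by
      intro m _
      rw [hg]
      simp only
      rw [hev]
      split_ifs with h3
      · have h4 : f (p * m) * ee (P.eval ((p * m : ℕ) : ℝ)) -
            f p * (f m * ee (P.eval ((p * m : ℕ) : ℝ))) =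
            (f (p * m) - f p * f m) * ee (P.eval ((p * m : ℕ) : ℝ)) := by ring
        rw [h4, norm_mul, hee, mul_one]
        refine (norm_sub_le _ _).trans ?_
        rw [norm_mul]
        have h5 := hf.1 (p * m)
        have h6 : ‖f p‖ * ‖f m‖ ≤ 1 := mul_le_one₀ (hf.1 p) (norm_nonneg _) (hf.1 m)
        linarith
      · rw [hf.2 p m ((Nat.Prime.coprime_iff_not_dvd hp).2 h3)]
        have h4 : f p * f m * ee (P.eval ((p * m : ℕ) : ℝ)) -
            f p * (f m * ee (P.eval ((p * m : ℕ) : ℝ))) = 0 := by ring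
        rw [h4, norm_zero]
    refine (norm_sum_le _ _).trans ((sum_le_sum h2).trans ?_)
    rw [← sum_filter, sum_const, nsmul_eq_mul, mul_comm]
    exact mul_le_mul_of_nonneg_left (few p n H hp.pos) (by norm_num)
  -- the second error
  have h2 : ‖∑ m ∈ Ioc (n / p) ((n + H) / p), g m - W f (dil p P) (n / p) (H / p)‖ ≤ 1 := by
    have h3 : W f (dil p P) (n / p) (H / p) = ∑ m ∈ Ioc (n / p) (n / p + H / p), g m := by
      rw [hg]; rfl
    rw [h3]
    have hpp := hp.pos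
    have h4 : (n + H) / p = n / p + H / p ∨ (n + H) / p = n / p + H / p + 1 := by
      have h5 : n / p + H / p ≤ (n + H) / p := Nat.div_add_div_le_add_div
      have h6 : (n + H) / p ≤ n / p + H / p + 1 := by
        have h5 := Nat.lt_div_mul_add (a := n) hpp
        have h6 := Nat.lt_div_mul_add (a := H) hpp
        apply Nat.lt_succ_iff.1
        rw [Nat.div_lt_iff_lt_mul hpp]
        nlinarith
      omega
    rcases h4 with h4 | h4
    · rw [h4, sub_self, norm_zero]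
      norm_num
    · rw [h4, sum_Ioc_succ_top (Nat.le_add_right _ _), add_sub_cancel_left]
      exact hg1 _
  -- conclusion
  obtain ⟨Bp, hBp⟩ : ∃ Bp : ℂ, Bp = ∑ m ∈ Ioc (n / p) ((n + H) / p), g m := ⟨_, rfl⟩
  rw [← hBp] at h1 h2
  have h3 : ‖f p * Bp‖ ≤ ‖Bp‖ := by
    rw [norm_mul]
    calc ‖f p‖ * ‖Bp‖ ≤ 1 * ‖Bp‖ := mul_le_mul_of_nonneg_right (hf.1 p) (norm_nonneg _)
      _ = ‖Bp‖ := one_mul _
  have h4 : ‖Bp‖ ≤ ‖W f (dil p P) (n / p) (H / p)‖ + 1 := by
    have := norm_sub_norm_le Bp (W f (dil p P) (n / p) (H / p))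
    linarith
  have h5 := norm_sub_norm_le (∑ m ∈ Ioc (n / p) ((n + H) / p),
    f (p * m) * ee (P.eval ((p * m : ℕ) : ℝ))) (f p * Bp)
  linarith

end PushL

open PushL in
theorem push (htk : S_TK) : S_PUSH := by
  classical
  intro I η hη hI
  obtain ⟨H₁, hH₁⟩ := htk I fun p hp => (hI p hp).1
  obtain ⟨H₂, hH₂⟩ := exists_nat_ge (12 * (∑ p ∈ I, (p : ℝ)) / η)
  refine ⟨H₁ + H₂ + 1, fun H hH f hf P n => ?_⟩
  have hee : ∀ x : ℝ, ‖ee x‖ = 1 := fun x => Pool.Agent.H807R2.Dav.norm_ee x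
  have hH0 : (0 : ℝ) < H := by exact_mod_cast (by omega : 0 < H)
  have h1 := hH₁ H (by omega) n (fun m => f m * ee (P.eval (m : ℝ))) (fun m => by
    rw [norm_mul, hee, mul_one]
    exact hf.1 m)
  have hp0 : ∀ p ∈ I, (0 : ℝ) < p := fun p hp => by exact_mod_cast (hI p hp).1.pos
  have hbig : ∀ p ∈ I, 12 * (p : ℝ) ≤ η * H := by
    intro p hp
    have h2 : (p : ℝ) ≤ ∑ p ∈ I, (p : ℝ) :=
      single_le_sum (f := fun p : ℕ => (p : ℝ)) (fun q hq => (hp0 q hq).le) hp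
    have h3 : 12 * (∑ p ∈ I, (p : ℝ)) / η ≤ H := hH₂.trans (by exact_mod_cast (by omega : H₂ ≤ H))
    rw [div_le_iff₀ hη] at h3
    linarith
  obtain ⟨A, hA⟩ : ∃ A : ℂ, A = ∑ m ∈ Ioc n (n + H), f m * ee (P.eval (m : ℝ)) := ⟨_, rfl⟩
  have hWA : W f P n H = A := by rw [hA]; rfl
  have h2 : ∀ p ∈ I.filter (fun p => ‖W f (dil p P) (n / p) (H / p)‖ <
      (‖W f P n H‖ / H - η) * ((H / p : ℕ) : ℝ)),
      (1 / (p : ℝ)) * (η * H / 2) ^ 2 ≤ (1 / (p : ℝ)) * ‖(p : ℂ) *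
        ∑ m ∈ (Ioc n (n + H)).filter (fun m => p ∣ m), f m * ee (P.eval (m : ℝ)) -
        ∑ m ∈ Ioc n (n + H), f m * ee (P.eval (m : ℝ))‖ ^ 2 := by
    intro p hp
    rw [mem_filter] at hp
    obtain ⟨hpI, hlt⟩ := hp
    have hpp := hp0 p hpI
    have hmain := PushL.main hf P n H p (hI p hpI).1
    apply mul_le_mul_of_nonneg_left _ (by positivity)
    apply pow_le_pow_left₀ (by positivity)
    rw [← hA]
    rw [hWA] at hlt
    obtain ⟨Wp, hWp⟩ : ∃ Wp : ℝ, Wp = ‖W f (dil p P) (n / p) (H / p)‖ := ⟨_, rfl⟩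
    rw [← hWp] at hlt hmain
    have hWp0 : 0 ≤ Wp := by rw [hWp]; exact norm_nonneg _
    have hfl0 : (0 : ℝ) ≤ ((H / p : ℕ) : ℝ) := Nat.cast_nonneg _
    have hfl : ((H / p : ℕ) : ℝ) * p ≤ H := by
      have := Nat.div_mul_le_self H p
      exact_mod_cast this
    have hpos : 0 < ‖A‖ / H - η := by
      by_contra hcon
      push Not at hcon
      have := mul_nonpos_of_nonpos_of_nonneg hcon hfl0
      linarith
    have h3 : (p : ℝ) * Wp ≤ ‖A‖ - η * H := by
      calc (p : ℝ) * Wp ≤ p * ((‖A‖ / H - η) * ((H / p : ℕ) : ℝ)) :=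
            mul_le_mul_of_nonneg_left hlt.le hpp.le
        _ = (‖A‖ / H - η) * (((H / p : ℕ) : ℝ) * p) := by ring
        _ ≤ (‖A‖ / H - η) * H := mul_le_mul_of_nonneg_left hfl hpos.le
        _ = ‖A‖ - η * H := by field_simp
    obtain ⟨Ap, hAp⟩ : ∃ Ap : ℂ, Ap = ∑ m ∈ (Ioc n (n + H)).filter (fun m => p ∣ m),
        f m * ee (P.eval (m : ℝ)) := ⟨_, rfl⟩
    rw [← hAp] at hmain ⊢
    have h4 : ‖(p : ℂ) * Ap‖ ≤ p * Wp + 3 * p + 2 * (H / p) := by
      rw [norm_mul, Complex.norm_natCast]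
      calc (p : ℝ) * ‖Ap‖ ≤ p * (Wp + 3 + 2 * ((H : ℝ) / (p * p))) :=
            mul_le_mul_of_nonneg_left hmain hpp.le
        _ = p * Wp + 3 * p + 2 * (H / p) := by field_simp
    have h5 : 2 * ((H : ℝ) / p) ≤ η * H / 4 := by
      have h6 := (hI p hpI).2
      rw [div_le_iff₀ hη] at h6
      have h7 : (H : ℝ) / p * (p * η) = H * η := by field_simp
      have h8 : (H : ℝ) / p * 8 ≤ (H : ℝ) / p * (p * η) :=
        mul_le_mul_of_nonneg_left h6 (by positivity)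
      linarith
    have h6 := hbig p hpI
    have h7 := norm_sub_norm_le A ((p : ℂ) * Ap)
    rw [norm_sub_rev] at h7
    linarith
  have h3 : ∑ p ∈ I.filter (fun p => ‖W f (dil p P) (n / p) (H / p)‖ <
      (‖W f P n H‖ / H - η) * ((H / p : ℕ) : ℝ)), (1 / (p : ℝ)) * (η * H / 2) ^ 2 ≤ 8 * (H : ℝ) ^ 2 := by
    refine (sum_le_sum h2).trans (le_trans ?_ h1)
    exact sum_le_sum_of_subset_of_nonneg (filter_subset _ _) fun p hp _ => by
      have := hp0 p hp
      positivity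
  rw [← sum_mul] at h3
  rw [le_div_iff₀ (by positivity)]
  have h4 : (∑ p ∈ I.filter (fun p => ‖W f (dil p P) (n / p) (H / p)‖ <
      (‖W f P n H‖ / H - η) * ((H / p : ℕ) : ℝ)), 1 / (p : ℝ)) * η ^ 2 * (H : ℝ) ^ 2 ≤
      100 * (H : ℝ) ^ 2 := by
    have h5 : (η * H / 2) ^ 2 = η ^ 2 * (H : ℝ) ^ 2 / 4 := by ring
    rw [h5] at h3
    have h6 : (0 : ℝ) < (H : ℝ) ^ 2 := by positivity
    nlinarith
  exact le_of_mul_le_mul_right h4 (by positivity)

end Pool.Agent.Helper44K9.FU
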