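import Pool.Agent.Helper44K9.FU.Stm
import Pool.Agent.R486.PD.MajorArcs
import Pool.Agent.R486.PD.MinorArcs
import Pool.Agent.R486.PD.ModelMinor

/-!
# Project FU, leaf PW: Weyl sums over primes in a dyadic block.
-/

set_option autoImplicit false

namespace Pool.Agent.Helper44K9.FU

open Finset Polynomial
open Pool.Agent.H807R2.Dav (ee)
open Pool.Agent.R486.PD

namespace PwL

theorem lam_blk (d N : ℕ) (θ : ℝ) :
    ∑ n ∈ Ioc N (2 * N), ((ArithmeticFunction.vonMangoldt n : ℝ) : ℂ) * ee (θ * (n : ℝ) ^ d) =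
      SLam (X ^ d) (2 * N) θ - SLam (X ^ d) N θ := by
  unfold SLam
  have h1 : Icc 1 (2 * N) = Icc 1 N ∪ Ioc N (2 * N) := by
    ext x
    simp only [mem_Icc, mem_union, mem_Ioc]
    omega
  have h2 : Disjoint (Icc 1 N) (Ioc N (2 * N)) := by
    rw [disjoint_left]
    intro x hx hx'
    rw [mem_Icc] at hx
    rw [mem_Ioc] at hx'
    omega
  rw [h1, sum_union h2, add_sub_cancel_left]
  refine sum_congr rfl fun n _ => ?_
  rw [eval_pow, eval_X]
  push_cast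
  rfl

end PwL

open PwL

theorem pw : S_PW := by
  intro d hd ε hε
  have hdeg : (X ^ d : ℤ[X]).natDegree = d := natDegree_X_pow d
  obtain ⟨z, hz⟩ := primeUniform_of minorArcs majorArcs modelMinor (X ^ d) (by rw [hdeg]; exact hd)
    (ε / 8) (by positivity)
  obtain ⟨w, hw⟩ : ∃ w : ℕ, w = ∏ p ∈ (Icc 1 z).filter Nat.Prime, p := ⟨_, rfl⟩
  have hw0 : 0 < w := by
    rw [hw]
    exact prod_pos fun p hp => (mem_filter.1 hp).2.pos
  obtain ⟨N₁, h1⟩ := hz w hw0 (by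
    intro p hp hpp
    rw [hw]
    exact dvd_prod_of_mem (fun p => p) (mem_filter.2 ⟨mem_Icc.2 ⟨hpp.one_lt.le, hp⟩, hpp⟩))
  obtain ⟨C, N₂, h2⟩ := modelMinor (X ^ d) (by rw [hdeg]; exact hd) (ε / 8) (by positivity) w hw0
  refine ⟨C + 1, max (max N₁ N₂) 1, by omega, ?_⟩
  intro N hN θ hS
  have hN1 : N₁ ≤ N := le_trans (le_trans (le_max_left _ _) (le_max_left _ _)) hN
  have hN2 : N₂ ≤ N := le_trans (le_trans (le_max_right _ _) (le_max_left _ _)) hN
  have hN3 : 1 ≤ N := le_trans (le_max_right _ _) hN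
  have hN0 : (0 : ℝ) < N := by exact_mod_cast hN3
  rw [lam_blk] at hS
  have key : ∀ M : ℕ, N ≤ M → M ≤ 2 * N → ε / 2 * N ≤ ‖SLam (X ^ d) M θ‖ →
      ∃ q : ℕ, 1 ≤ q ∧ q ≤ C + 1 ∧ ∃ a : ℤ, |q * θ - a| ≤ ((C + 1 : ℕ) : ℝ) / (N : ℝ) ^ d := by
    intro M hM hM2 hSM
    have hM0 : (N : ℝ) ≤ M := by exact_mod_cast hM
    have hM2' : (M : ℝ) ≤ 2 * N := by exact_mod_cast hM2
    have a1 := h1 M (by omega) θ
    have a2 : ε / 8 * M ≤ ‖SMod (X ^ d) w M θ‖ := by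
      have a3 : ‖SLam (X ^ d) M θ‖ ≤ ‖SLam (X ^ d) M θ - SMod (X ^ d) w M θ‖ +
          ‖SMod (X ^ d) w M θ‖ := by
        have := norm_add_le (SLam (X ^ d) M θ - SMod (X ^ d) w M θ) (SMod (X ^ d) w M θ)
        rwa [sub_add_cancel] at this
      have a4 : ε / 8 * M ≤ ε / 8 * (2 * N) := mul_le_mul_of_nonneg_left hM2' (by positivity)
      linarith
    obtain ⟨q, hq1, hq2, a, ha⟩ := h2 M (by omega) θ a2
    rw [hdeg] at ha
    refine ⟨q, hq1, ?_, a, ha.trans ?_⟩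
    · have : (q : ℝ) ≤ (C : ℕ) := hq2
      have h3 : q ≤ C := by exact_mod_cast this
      omega
    · have h4 : (C : ℝ) / (M : ℝ) ^ d ≤ (C : ℝ) / (N : ℝ) ^ d :=
        div_le_div_of_nonneg_left (by positivity) (by positivity) (pow_le_pow_left₀ hN0.le hM0 d)
      refine h4.trans (div_le_div_of_nonneg_right ?_ (by positivity))
      push_cast
      linarith
  by_cases hc : ε / 2 * N ≤ ‖SLam (X ^ d) N θ‖
  · exact key N le_rfl (by omega) hc
  · push Not at hc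
    apply key (2 * N) (by omega) le_rfl
    have := norm_sub_le (SLam (X ^ d) (2 * N) θ) (SLam (X ^ d) N θ)
    linarith

end Pool.Agent.Helper44K9.FU
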