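import Pool.Agent.Helper44K9.FU.Stm

/-!
# [TK] the dual of the Turan-Kubilius inequality on a window (helper38)
-/

set_option autoImplicit false

namespace Pool.Agent.Helper44K9.FU

open Finset

namespace TkL

/-- the number of multiples of `d` in a window -/
theorem cnt (d n H : ℕ) (hd : 0 < d) :
    |(((Ioc n (n + H)).filter (fun m => d ∣ m)).card : ℝ) - (H : ℝ) / d| ≤ 1 := by
  have h1 : ((Ioc 0 (n + H)).filter (fun m => d ∣ m)).card =
      ((Ioc 0 n).filter (fun m => d ∣ m)).card + ((Ioc n (n + H)).filter (fun m => d ∣ m)).card := by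
    rw [← card_union_of_disjoint]
    · congr 1
      rw [← filter_union]
      congr 1
      ext m
      simp only [mem_union, mem_Ioc]
      omega
    · apply disjoint_filter_filter
      rw [disjoint_left]
      intro m hm hm'
      rw [mem_Ioc] at hm hm'
      omega
  rw [Nat.Ioc_filter_dvd_card_eq_div, Nat.Ioc_filter_dvd_card_eq_div] at h1
  have h2 : (((Ioc n (n + H)).filter (fun m => d ∣ m)).card : ℝ) = ((n + H) / d : ℕ) - (n / d : ℕ) := by
    have : (((n + H) / d : ℕ) : ℝ) = (n / d : ℕ) + (((Ioc n (n + H)).filter (fun m => d ∣ m)).card : ℝ) := by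
      exact_mod_cast h1
    rw [this]; ring
  have hd0 : (0 : ℝ) < d := by exact_mod_cast hd
  have f : ∀ k : ℕ, ((k / d : ℕ) : ℝ) ≤ (k : ℝ) / d ∧ (k : ℝ) / d < ((k / d : ℕ) : ℝ) + 1 := by
    intro k
    refine ⟨Nat.cast_div_le, ?_⟩
    rw [div_lt_iff₀ hd0]
    have := Nat.lt_div_mul_add (a := k) hd
    have h3 : k < (k / d + 1) * d := by
      rw [add_mul, one_mul]
      exact this
    exact_mod_cast h3
  have h3 := f (n + H)
  have h4 := f n
  rw [h2, abs_le]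
  push_cast at h3 ⊢
  rw [add_div] at h3
  constructor <;> linarith [h3.1, h3.2, h4.1, h4.2]

/-- the centred indicator of the multiples of `p` -/
noncomputable def v (p m : ℕ) : ℝ := (if p ∣ m then 1 else 0) - 1 / p

theorem sum_ind (d n H : ℕ) : ∑ m ∈ Ioc n (n + H), (if d ∣ m then (1 : ℝ) else 0) =
    ((Ioc n (n + H)).filter (fun m => d ∣ m)).card := by
  rw [sum_ite, sum_const_zero, add_zero, sum_const, nsmul_eq_mul, mul_one]

theorem diag (p n H : ℕ) (hp : p.Prime) : ∑ m ∈ Ioc n (n + H), v p m * v p m ≤ 2 * (H : ℝ) / p + 1 := by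
  have hp0 : (0 : ℝ) < p := by exact_mod_cast hp.pos
  have hp1 : (1 : ℝ) ≤ p := by exact_mod_cast hp.one_lt.le
  have h1 : ∀ m ∈ Ioc n (n + H), v p m * v p m ≤ (if p ∣ m then (1 : ℝ) else 0) + 1 / p * (1 / p) := by
    intro m _
    unfold v
    split_ifs
    · have : (0 : ℝ) ≤ 1 / p := by positivity
      nlinarith
    · apply le_of_eq; ring
  refine (sum_le_sum h1).trans ?_
  rw [sum_add_distrib, sum_ind, sum_const, Nat.card_Ioc, Nat.add_sub_cancel_left, nsmul_eq_mul]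
  have h2 := (abs_le.1 (cnt p n H hp.pos)).2
  have h3 : (1 : ℝ) / p * (1 / p) ≤ 1 / p := by
    have h4 : (1 : ℝ) / p ≤ 1 := by rw [div_le_one hp0]; exact hp1
    have h5 : (0 : ℝ) ≤ 1 / p := by positivity
    nlinarith
  have h4 : (H : ℝ) * (1 / p * (1 / p)) ≤ H * (1 / p) :=
    mul_le_mul_of_nonneg_left h3 (Nat.cast_nonneg H)
  have h5 : (H : ℝ) * (1 / p) = H / p := by ring
  have h6 : 2 * (H : ℝ) / p = H / p + H / p := by ring
  rw [h5] at h4
  linarith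

theorem offdiag (p q n H : ℕ) (hp : p.Prime) (hq : q.Prime) (hpq : p ≠ q) :
    |∑ m ∈ Ioc n (n + H), v p m * v q m| ≤ 4 := by
  have hp0 : (0 : ℝ) < p := by exact_mod_cast hp.pos
  have hq0 : (0 : ℝ) < q := by exact_mod_cast hq.pos
  have hp1 : (1 : ℝ) ≤ p := by exact_mod_cast hp.one_lt.le
  have hq1 : (1 : ℝ) ≤ q := by exact_mod_cast hq.one_lt.le
  have hc : Nat.Coprime p q := (Nat.coprime_primes hp hq).2 hpq
  have h1 : ∀ m ∈ Ioc n (n + H), v p m * v q m = (if p * q ∣ m then (1 : ℝ) else 0) -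
      1 / q * (if p ∣ m then (1 : ℝ) else 0) - 1 / p * (if q ∣ m then (1 : ℝ) else 0) +
      1 / p * (1 / q) := by
    intro m _
    unfold v
    have h2 : (if p * q ∣ m then (1 : ℝ) else 0) =
        (if p ∣ m then (1 : ℝ) else 0) * (if q ∣ m then (1 : ℝ) else 0) := by
      by_cases h3 : p ∣ m <;> by_cases h4 : q ∣ m
      · rw [if_pos (hc.mul_dvd_of_dvd_of_dvd h3 h4), if_pos h3, if_pos h4, mul_one]
      · rw [if_neg (fun h => h4 ((Nat.dvd_mul_left q p).trans h)), if_neg h4, mul_zero]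
      · rw [if_neg (fun h => h3 ((Nat.dvd_mul_right p q).trans h)), if_neg h3, zero_mul]
      · rw [if_neg (fun h => h3 ((Nat.dvd_mul_right p q).trans h)), if_neg h3, zero_mul]
    rw [h2]
    ring
  rw [sum_congr rfl h1, sum_add_distrib, sum_sub_distrib, sum_sub_distrib, ← mul_sum, ← mul_sum,
    sum_ind, sum_ind, sum_ind, sum_const, Nat.card_Ioc, Nat.add_sub_cancel_left, nsmul_eq_mul]
  have a1 := abs_le.1 (cnt (p * q) n H (Nat.mul_pos hp.pos hq.pos))
  have a2 := abs_le.1 (cnt p n H hp.pos)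
  have a3 := abs_le.1 (cnt q n H hq.pos)
  push_cast at a1
  obtain ⟨x, hx⟩ : ∃ x : ℝ, x = (((Ioc n (n + H)).filter (fun m => p * q ∣ m)).card : ℝ) - H / (p * q) :=
    ⟨_, rfl⟩
  obtain ⟨y, hy⟩ : ∃ y : ℝ, y = (((Ioc n (n + H)).filter (fun m => p ∣ m)).card : ℝ) - H / p :=
    ⟨_, rfl⟩
  obtain ⟨z, hz⟩ : ∃ z : ℝ, z = (((Ioc n (n + H)).filter (fun m => q ∣ m)).card : ℝ) - H / q :=
    ⟨_, rfl⟩
  rw [← hx] at a1
  rw [← hy] at a2
  rw [← hz] at a3
  have e1 : (((Ioc n (n + H)).filter (fun m => p * q ∣ m)).card : ℝ) = x + H / (p * q) := by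
    rw [hx]; ring
  have e2 : (((Ioc n (n + H)).filter (fun m => p ∣ m)).card : ℝ) = y + H / p := by
    rw [hy]; ring
  have e3 : (((Ioc n (n + H)).filter (fun m => q ∣ m)).card : ℝ) = z + H / q := by
    rw [hz]; ring
  rw [e1, e2, e3]
  have e4 : x + (H : ℝ) / (p * q) - 1 / q * (y + H / p) - 1 / p * (z + H / q) + H * (1 / p * (1 / q)) =
      x - 1 / q * y - 1 / p * z := by
    field_simp
    ring
  rw [e4]
  have b1 : |1 / (q : ℝ) * y| ≤ 1 := by
    rw [abs_mul, abs_of_pos (by positivity : (0 : ℝ) < 1 / q)]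
    exact mul_le_one₀ (by rw [div_le_one hq0]; exact hq1) (abs_nonneg _) (abs_le.2 a2)
  have b2 : |1 / (p : ℝ) * z| ≤ 1 := by
    rw [abs_mul, abs_of_pos (by positivity : (0 : ℝ) < 1 / p)]
    exact mul_le_one₀ (by rw [div_le_one hp0]; exact hp1) (abs_nonneg _) (abs_le.2 a3)
  rw [abs_le] at b1 b2 ⊢
  constructor <;> linarith [b1.1, b1.2, b2.1, b2.2, a1.1, a1.2]

/-- the dual inequality, real coefficients -/
theorem dual (I : Finset ℕ) (hI : ∀ p ∈ I, p.Prime) (n H : ℕ) (hH : ∑ p ∈ I, (p : ℝ) ≤ H) (x : ℕ → ℝ) :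
    ∑ m ∈ Ioc n (n + H), (∑ p ∈ I, x p * v p m) ^ 2 ≤ 8 * H * ∑ p ∈ I, x p ^ 2 / p := by
  have h1 : ∑ m ∈ Ioc n (n + H), (∑ p ∈ I, x p * v p m) ^ 2 =
      ∑ p ∈ I, ∑ q ∈ I, x p * x q * ∑ m ∈ Ioc n (n + H), v p m * v q m := by
    have h2 : ∀ m, (∑ p ∈ I, x p * v p m) ^ 2 = ∑ p ∈ I, ∑ q ∈ I, x p * x q * (v p m * v q m) := by
      intro m
      rw [sq, sum_mul_sum]
      exact sum_congr rfl fun p _ => sum_congr rfl fun q _ => by ring
    simp only [h2]
    rw [sum_comm]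
    refine sum_congr rfl fun p _ => ?_
    rw [sum_comm]
    exact sum_congr rfl fun q _ => (mul_sum _ _ _).symm
  rw [h1]
  have h2 : ∀ p ∈ I, ∀ q ∈ I, x p * x q * ∑ m ∈ Ioc n (n + H), v p m * v q m ≤
      (if p = q then x p ^ 2 * (2 * (H : ℝ) / p + 1) else 0) + 4 * (|x p| * |x q|) := by
    intro p hp q hq
    by_cases hpq : p = q
    · subst hpq
      rw [if_pos rfl]
      have h3 := diag p n H (hI p hp)
      have h4 : x p * x p * ∑ m ∈ Ioc n (n + H), v p m * v p m ≤ x p ^ 2 * (2 * (H : ℝ) / p + 1) := by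
        rw [← sq]
        exact mul_le_mul_of_nonneg_left h3 (sq_nonneg _)
      have h5 : 0 ≤ 4 * (|x p| * |x p|) := by positivity
      linarith
    · rw [if_neg hpq, zero_add]
      have h3 := offdiag p q n H (hI p hp) (hI q hq) hpq
      refine (le_abs_self _).trans ?_
      rw [abs_mul, abs_mul]
      have h4 : 0 ≤ |x p| * |x q| := by positivity
      nlinarith
  refine (sum_le_sum fun p hp => sum_le_sum fun q hq => h2 p hp q hq).trans ?_
  have h3 : ∑ p ∈ I, ∑ q ∈ I, ((if p = q then x p ^ 2 * (2 * (H : ℝ) / p + 1) else 0) +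
      4 * (|x p| * |x q|)) = ∑ p ∈ I, x p ^ 2 * (2 * (H : ℝ) / p + 1) + 4 * (∑ p ∈ I, |x p|) ^ 2 := by
    simp only [sum_add_distrib]
    congr 1
    · refine sum_congr rfl fun p hp => ?_
      rw [sum_ite_eq, if_pos hp]
    · rw [sq, sum_mul_sum, mul_sum]
      exact sum_congr rfl fun p _ => (mul_sum _ _ _).symm
  rw [h3]
  obtain ⟨A, hA⟩ : ∃ A : ℝ, A = ∑ p ∈ I, x p ^ 2 / p := ⟨_, rfl⟩
  obtain ⟨B, hB⟩ : ∃ B : ℝ, B = ∑ p ∈ I, (p : ℝ) := ⟨_, rfl⟩
  have hp0 : ∀ p ∈ I, (0 : ℝ) < p := fun p hp => by exact_mod_cast (hI p hp).pos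
  have hA0 : 0 ≤ A := by
    rw [hA]
    exact sum_nonneg fun p hp => div_nonneg (sq_nonneg _) (hp0 p hp).le
  have h4 : (∑ p ∈ I, |x p|) ^ 2 ≤ B * A := by
    have h5 := sum_sq_le_sum_mul_sum_of_sq_eq_mul I (r := fun p => |x p|) (f := fun p => (p : ℝ))
      (g := fun p => x p ^ 2 / p) (fun p hp => (hp0 p hp).le)
      (fun p hp => div_nonneg (sq_nonneg _) (hp0 p hp).le) (fun p hp => by
        have := (hp0 p hp).ne'
        rw [sq_abs]
        field_simp)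
    rw [hA, hB]
    exact h5
  have h5 : ∑ p ∈ I, x p ^ 2 * (2 * (H : ℝ) / p + 1) ≤ 2 * H * A + B * A := by
    have h6 : ∀ p ∈ I, x p ^ 2 * (2 * (H : ℝ) / p + 1) ≤ 2 * H * (x p ^ 2 / p) + B * (x p ^ 2 / p) := by
      intro p hp
      have h7 := hp0 p hp
      have h8 : (p : ℝ) ≤ B := by
        rw [hB]
        exact single_le_sum (f := fun p : ℕ => (p : ℝ)) (fun q hq => (hp0 q hq).le) hp
      have h9 : x p ^ 2 * (2 * (H : ℝ) / p + 1) = 2 * H * (x p ^ 2 / p) + p * (x p ^ 2 / p) := by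
        field_simp
      rw [h9]
      have h10 : 0 ≤ x p ^ 2 / p := div_nonneg (sq_nonneg _) h7.le
      nlinarith
    refine (sum_le_sum h6).trans (le_of_eq ?_)
    rw [sum_add_distrib, ← mul_sum, ← mul_sum, hA]
  rw [← hA]
  rw [← hB] at hH
  have h6 : B * A ≤ H * A := mul_le_mul_of_nonneg_right hH hA0
  nlinarith

end TkL

open TkL in
theorem tk : S_TK := by
  intro I hI
  obtain ⟨H₀, hH₀⟩ := exists_nat_ge (∑ p ∈ I, (p : ℝ))
  refine ⟨H₀, fun H hH n a ha => ?_⟩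
  have hHH : ∑ p ∈ I, (p : ℝ) ≤ H := hH₀.trans (by exact_mod_cast hH)
  have hp0 : ∀ p ∈ I, (0 : ℝ) < p := fun p hp => by exact_mod_cast (hI p hp).pos
  obtain ⟨b, hb⟩ : ∃ b : ℕ → ℂ, b = fun p => ∑ m ∈ Ioc n (n + H), (v p m : ℂ) * a m := ⟨_, rfl⟩
  have h1 : ∀ p ∈ I, (p : ℂ) * ∑ m ∈ (Ioc n (n + H)).filter (fun m => p ∣ m), a m -
      ∑ m ∈ Ioc n (n + H), a m = (p : ℂ) * b p := by
    intro p hp
    have hpc : (p : ℂ) ≠ 0 := by exact_mod_cast (hI p hp).ne_zero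
    rw [hb]
    simp only
    rw [sum_filter, mul_sum, mul_sum, ← sum_sub_distrib]
    refine sum_congr rfl fun m _ => ?_
    unfold v
    split_ifs
    · push_cast
      field_simp
    · push_cast
      field_simp
      ring
  obtain ⟨S, hS⟩ : ∃ S : ℝ, S = ∑ p ∈ I, (p : ℝ) * ‖b p‖ ^ 2 := ⟨_, rfl⟩
  have h2 : ∑ p ∈ I, (1 / (p : ℝ)) * ‖(p : ℂ) * ∑ m ∈ (Ioc n (n + H)).filter (fun m => p ∣ m), a m -
      ∑ m ∈ Ioc n (n + H), a m‖ ^ 2 = S := by
    rw [hS]
    refine sum_congr rfl fun p hp => ?_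
    rw [h1 p hp, norm_mul, Complex.norm_natCast]
    have := (hp0 p hp).ne'
    field_simp
  rw [h2]
  have hS0 : 0 ≤ S := by
    rw [hS]
    exact sum_nonneg fun p hp => mul_nonneg (hp0 p hp).le (sq_nonneg _)
  -- duality
  obtain ⟨c, hc⟩ : ∃ c : ℕ → ℂ, c = fun m => ∑ p ∈ I, ((p : ℂ) * (starRingEnd ℂ) (b p)) * (v p m : ℂ) :=
    ⟨_, rfl⟩
  have h3 : (S : ℂ) = ∑ m ∈ Ioc n (n + H), a m * c m := by
    have h4 : ∀ m, a m * c m = ∑ p ∈ I, ((p : ℂ) * (starRingEnd ℂ) (b p)) * ((v p m : ℂ) * a m) := by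
      intro m
      rw [hc]
      simp only
      rw [mul_sum]
      exact sum_congr rfl fun p _ => by ring
    simp only [h4]
    rw [sum_comm, hS]
    push_cast
    refine sum_congr rfl fun p _ => ?_
    rw [← mul_sum]
    have h5 : ∑ m ∈ Ioc n (n + H), (v p m : ℂ) * a m = b p := by rw [hb]
    rw [h5, mul_assoc, mul_comm ((starRingEnd ℂ) (b p)), Complex.mul_conj, Complex.normSq_eq_norm_sq]
    push_cast
    ring
  have h4 : ∑ m ∈ Ioc n (n + H), ‖c m‖ ^ 2 ≤ 8 * H * S := by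
    have h5 : ∀ m, ‖c m‖ ^ 2 = (∑ p ∈ I, ((p : ℝ) * (b p).re) * v p m) ^ 2 +
        (∑ p ∈ I, ((p : ℝ) * -(b p).im) * v p m) ^ 2 := by
      intro m
      have hre : (c m).re = ∑ p ∈ I, ((p : ℝ) * (b p).re) * v p m := by
        rw [hc]
        simp only
        rw [Complex.re_sum]
        refine sum_congr rfl fun p _ => ?_
        simp [Complex.mul_re, Complex.mul_im]
      have him : (c m).im = ∑ p ∈ I, ((p : ℝ) * -(b p).im) * v p m := by
        rw [hc]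
        simp only
        rw [Complex.im_sum]
        refine sum_congr rfl fun p _ => ?_
        simp [Complex.mul_re, Complex.mul_im]
      rw [← hre, ← him, ← Complex.normSq_eq_norm_sq, Complex.normSq_apply]
      ring
    simp only [h5]
    rw [sum_add_distrib]
    have h6 := dual I hI n H hHH fun p => (p : ℝ) * (b p).re
    have h7 := dual I hI n H hHH fun p => (p : ℝ) * -(b p).im
    have h8 : S = ∑ p ∈ I, ((p : ℝ) * (b p).re) ^ 2 / p + ∑ p ∈ I, ((p : ℝ) * -(b p).im) ^ 2 / p := by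
      rw [hS, ← sum_add_distrib]
      refine sum_congr rfl fun p hp => ?_
      have := (hp0 p hp).ne'
      rw [← Complex.normSq_eq_norm_sq, Complex.normSq_apply]
      field_simp
    rw [h8]
    linarith
  have h5 : S ≤ ∑ m ∈ Ioc n (n + H), ‖c m‖ := by
    have h6 : ‖(S : ℂ)‖ = S := by rw [Complex.norm_real, Real.norm_eq_abs, abs_of_nonneg hS0]
    rw [← h6, h3]
    refine (norm_sum_le _ _).trans (sum_le_sum fun m _ => ?_)
    rw [norm_mul]
    calc ‖a m‖ * ‖c m‖ ≤ 1 * ‖c m‖ := mul_le_mul_of_nonneg_right (ha m) (norm_nonneg _)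
      _ = ‖c m‖ := one_mul _
  have h6 : (∑ m ∈ Ioc n (n + H), ‖c m‖) ^ 2 ≤ H * ∑ m ∈ Ioc n (n + H), ‖c m‖ ^ 2 := by
    have h7 := sq_sum_le_card_mul_sum_sq (s := Ioc n (n + H)) (f := fun m => ‖c m‖)
    rw [Nat.card_Ioc, Nat.add_sub_cancel_left] at h7
    exact h7
  have h7 : S ^ 2 ≤ 8 * (H : ℝ) ^ 2 * S := by
    have h8 : S ^ 2 ≤ (∑ m ∈ Ioc n (n + H), ‖c m‖) ^ 2 := pow_le_pow_left₀ hS0 h5 2
    have h9 : (H : ℝ) * ∑ m ∈ Ioc n (n + H), ‖c m‖ ^ 2 ≤ H * (8 * H * S) :=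
      mul_le_mul_of_nonneg_left h4 (Nat.cast_nonneg H)
    nlinarith
  rcases hS0.eq_or_lt with h8 | h8
  · rw [← h8]
    positivity
  · have h9 : S * S ≤ 8 * (H : ℝ) ^ 2 * S := by nlinarith
    exact le_of_mul_le_mul_right h9 h8

end Pool.Agent.Helper44K9.FU
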