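import Mathlib
import Pool.Agent.H807R2.Dav1

/-!
# Project FU (MP_663568_nt, helper44): multiplicative functions and polynomial phases in almost all short intervals,
the leading coefficient in a small set. Definitions and statements of the leaves.
-/

set_option autoImplicit false

namespace Pool.Agent.Helper44K9.FU

open Finset Polynomial MeasureTheory
open Pool.Agent.H807R2.Dav (ee)

/-- the sum of `f(m) e(P(m))` over `n < m ≤ n + H` -/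
noncomputable def W (f : ℕ → ℂ) (P : ℝ[X]) (n H : ℕ) : ℂ :=
  ∑ m ∈ Ioc n (n + H), f m * ee (P.eval (m : ℝ))

/-- multiplicative functions bounded by one -/
def Mul1 (f : ℕ → ℂ) : Prop := (∀ n, ‖f n‖ ≤ 1) ∧ ∀ a b : ℕ, a.Coprime b → f (a * b) = f a * f b

/-- the numbers `α`, `β` are related, with constant `K`, at the scale `H` -/
def Rel (d K H : ℕ) (α β : ℝ) : Prop :=
  ∃ m : ℕ, 1 ≤ m ∧ m ≤ K ∧ ∃ a : ℤ, |m * (α - β) - a| ≤ K / (H : ℝ) ^ d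

/-- the polynomial `P(p x)` -/
noncomputable def dil (p : ℕ) (P : ℝ[X]) : ℝ[X] := P.comp (C (p : ℝ) * X)

/-- doubly logarithmic sums -/
noncomputable def MM (H₁ H₂ N : ℕ) (F : ℕ → ℕ → ℝ) : ℝ :=
  ∑ H ∈ Ico H₁ H₂, (1 / (H : ℝ)) * ∑ n ∈ Icc 1 N, (1 / (n : ℝ)) * F n H

/-- [WR] the inverse theorem for Weyl sums, real polynomials. From `Pool.Agent.H373R2.NB.IW_all`, and a version of
`Ph_poly` for real polynomials (same file); see `Pool.Agent.R361.MA.weyl_poly` for the interval. -/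
def S_WR : Prop := ∀ d : ℕ, 1 ≤ d → ∀ u : ℝ, 1 ≤ u → ∃ K : ℕ, 1 ≤ K ∧ ∀ (P : ℝ[X]) (n H : ℕ), P.natDegree ≤ d →
  1 ≤ H → (H : ℝ) ≤ u * ‖∑ m ∈ Ioc n (n + H), ee (P.eval (m : ℝ))‖ →
  ∃ m : ℕ, 1 ≤ m ∧ m ≤ K ∧ ∃ a : ℤ, |m * P.coeff d - a| ≤ K / (H : ℝ) ^ d

/-- [BES] `S_WR → S_BES`: at most `R` unrelated phases correlate with a bounded function. Proof: `u = 2/t²`; for
`i ≠ j` the inner product of `e(P_i)` and `e(P_j)` on the window is less than `H/u` (`S_WR` for `P_i - P_j`), and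
`(∑_i |⟨f, e(P_i)⟩|)² ≤ H ∑_{i,j} |⟨e(P_i), e(P_j)⟩| ≤ H (r H + r² H / u)`, so `r ≤ 2/t²`. -/
def S_BES : Prop := ∀ d : ℕ, 1 ≤ d → ∀ t : ℝ, 0 < t → ∃ K R : ℕ, 1 ≤ K ∧ ∀ f : ℕ → ℂ, (∀ n, ‖f n‖ ≤ 1) →
  ∀ (n H r : ℕ) (P : Fin r → ℝ[X]), 1 ≤ H → (∀ i, (P i).natDegree ≤ d) → (∀ i, t * H ≤ ‖W f (P i) n H‖) →
  (∀ i j, i ≠ j → ¬ Rel d K H ((P i).coeff d) ((P j).coeff d)) → r ≤ R

/-- [TK] the dual of the Turán-Kubilius inequality on a window. Dual form: for complex `x_p`,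
`∑_{n<m≤n+H} |∑_p x_p (1_{p|m} - 1/p)|² ≤ 8 H ∑_p |x_p|²/p` if `H` is large (diagonal: at most `H/p + 1 + H/p²`;
`p ≠ q`: at most `4` in absolute value, and `(∑|x_p|)² ≤ (∑_p p) ∑|x_p|²/p`). Perhaps an adaptation of
`Pool.Agent.TH327.Dim.Tk`/`Dual`. -/
def S_TK : Prop := ∀ I : Finset ℕ, (∀ p ∈ I, p.Prime) → ∃ H₀ : ℕ, ∀ H ≥ H₀, ∀ (n : ℕ) (a : ℕ → ℂ),
  (∀ m, ‖a m‖ ≤ 1) →
  ∑ p ∈ I, (1 / (p : ℝ)) * ‖(p : ℂ) * ∑ m ∈ (Ioc n (n + H)).filter (fun m => p ∣ m), a m -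
    ∑ m ∈ Ioc n (n + H), a m‖ ^ 2 ≤ 8 * (H : ℝ) ^ 2

open Classical in
/-- [PUSH] `S_TK → S_PUSH`: correlations go down to the window divided by `p`, for most primes `p`. Proof: apply `S_TK`
to `a_m = f(m) e(P(m))`; the multiples `m = p m'` of `p` in the window give
`f(p) ∑_{m'} f(m') e(P(p m')) + O(number of m' divisible by p)`, the `m'` run through `(n/p, (n+H)/p]`, which differs
from `Ioc (n/p) (n/p + H/p)` by at most one element. So for `H` large and `p ≥ 8/η` the inequality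
`‖W f (dil p P) (n/p) (H/p)‖ < (‖W f P n H‖/H - η) (H/p)` implies `‖p A_p - A‖ > η H / 2`. -/
def S_PUSH : Prop := ∀ (I : Finset ℕ) (η : ℝ), 0 < η → (∀ p ∈ I, p.Prime ∧ 8 / η ≤ p) → ∃ H₀ : ℕ, ∀ H ≥ H₀,
  ∀ f : ℕ → ℂ, Mul1 f → ∀ (P : ℝ[X]) (n : ℕ),
  ∑ p ∈ I.filter (fun p => ‖W f (dil p P) (n / p) (H / p)‖ < (‖W f P n H‖ / H - η) * ((H / p : ℕ) : ℝ)),
    1 / (p : ℝ) ≤ 100 / η ^ 2

/-- [NR] relations after dilation by two different primes come from a relation. Proof: `H/p ≥ H/(2p)` (real numbers), so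
`|(α-β) - a/(m p^d)| ≤ 2^d K/(m H^d)` and the same with `b/(m' q^d)`; the two fractions agree since `H` is large, `p`
does not divide `m' q^d` (as `m' ≤ K < p`), so `p^d` divides `a`. -/
def S_NR : Prop := ∀ d K B : ℕ, 1 ≤ d → 1 ≤ K → ∃ H₀ : ℕ, ∀ H ≥ H₀, ∀ (α β : ℝ) (p q : ℕ), p.Prime → q.Prime →
  p ≠ q → K < p → K < q → p ≤ B → q ≤ B → Rel d K (H / p) ((p : ℝ) ^ d * α) ((p : ℝ) ^ d * β) →
  Rel d K (H / q) ((q : ℝ) ^ d * α) ((q : ℝ) ^ d * β) → Rel d (2 ^ d * K) H α β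

/-- [PW] Weyl sums over primes in a dyadic block. From `Pool.Agent.R486.PD` (`PrimeUniform`, `ModelMinor`, with
`h = X^d`; they are proved there): `‖SLam‖ ≥ ε N` implies `‖SMod‖ ≥ ε N/2`, so `θ` is near a rational number of bounded
denominator. -/
def S_PW : Prop := ∀ d : ℕ, 1 ≤ d → ∀ ε : ℝ, 0 < ε → ∃ C N₀ : ℕ, 1 ≤ C ∧ ∀ N ≥ N₀, ∀ θ : ℝ,
  ε * N ≤ ‖∑ n ∈ Ioc N (2 * N), ((ArithmeticFunction.vonMangoldt n : ℝ) : ℂ) * ee (θ * (n : ℝ) ^ d)‖ →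
  ∃ q : ℕ, 1 ≤ q ∧ q ≤ C ∧ ∃ a : ℤ, |q * θ - a| ≤ C / (N : ℝ) ^ d

/-- [TRIG] trigonometric majorant of a small compact set and of its translates by small rational numbers. Proof: `δ` a
small multiple of `c / K^2`; `E' = ⋃_{m ≤ K, j < m} (E + j/m)` is compact of measure at most `K² δ`; take an open
`U ⊇ E'` of measure at most `c/4`, a continuous `g` with `1_{E'} ≤ g ≤ 1_U`, a trigonometric polynomial at distance at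
most `c'` from `2 g` (`span_fourier_closure_eq_top`), its real part plus `c'`; uniform continuity gives `τ`. -/
def S_TRIG : Prop := ∀ K : ℕ, 1 ≤ K → ∀ c : ℝ, 0 < c → ∃ δ : ℝ, 0 < δ ∧ ∀ E : Set UnitAddCircle, IsCompact E →
  volume E ≤ ENNReal.ofReal δ → ∃ (S : Finset ℤ) (a : ℤ → ℂ) (τ : ℝ), 0 < τ ∧ 0 ∈ S ∧
    (∀ x : ℝ, 0 ≤ (∑ j ∈ S, a j * ee (j * x)).re) ∧ (a 0).re ≤ c ∧
    ∀ x β : ℝ, (β : UnitAddCircle) ∈ E → ∀ m : ℕ, 1 ≤ m → m ≤ K → ∀ b : ℤ, |m * (β - x) - b| ≤ τ →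
      1 ≤ (∑ j ∈ S, a j * ee (j * x)).re

/-- [KAP] compactness -/
def S_KAP : Prop := ∀ E : Set UnitAddCircle, IsCompact E → (∀ x ∈ E, addOrderOf x = 0) → ∀ Q : ℕ,
  ∃ κ : ℝ, 0 < κ ∧ ∀ β : ℝ, (β : UnitAddCircle) ∈ E → ∀ q : ℕ, 1 ≤ q → q ≤ Q → ∀ a : ℤ, κ ≤ |q * β - a|

/-- [CHB] Chebyshev bounds in dyadic blocks. (The prime number theorem is in the library, for example
`Pool.Agent.H373R2.T7.lam_ap` with modulus one; Mathlib has `Chebyshev.psi_...`.) -/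
def S_CHB : Prop := (∃ b : ℝ, 0 < b ∧ ∃ k₀ : ℕ, ∀ k ≥ k₀,
    b / k ≤ ∑ p ∈ (Ioc (2 ^ k) (2 ^ (k + 1))).filter Nat.Prime, 1 / (p : ℝ)) ∧
  ∃ N₀ : ℕ, ∀ N ≥ N₀, ∑ n ∈ Ioc N (2 * N), ArithmeticFunction.vonMangoldt n ≤ 3 * N

open Classical in
/-- [EQ] `S_PW → S_TRIG → S_KAP → S_CHB → S_EQ`: for every `α` few of the `p^d α`, `p` in `I` prime, are near
`E + (1/m) ℤ`, `m ≤ K`. -/
def S_EQ : Prop := ∀ d K : ℕ, 1 ≤ d → 1 ≤ K → ∀ c : ℝ, 0 < c → ∃ δ : ℝ, 0 < δ ∧ ∀ E : Set UnitAddCircle, IsCompact E →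
  volume E ≤ ENNReal.ofReal δ → (∀ x ∈ E, addOrderOf x = 0) → ∀ (z : ℕ) (A : ℝ), ∃ I : Finset ℕ,
  (∀ p ∈ I, p.Prime ∧ z < p) ∧ A ≤ ∑ p ∈ I, 1 / (p : ℝ) ∧ ∃ τ : ℝ, 0 < τ ∧ ∀ α : ℝ,
    ∑ p ∈ I.filter (fun p : ℕ => ∃ β : ℝ, (β : UnitAddCircle) ∈ E ∧ ∃ m : ℕ, 1 ≤ m ∧ m ≤ K ∧ ∃ a : ℤ,
      |m * (β - (p : ℝ) ^ d * α) - a| ≤ τ), 1 / (p : ℝ) ≤ c * ∑ p ∈ I, 1 / (p : ℝ)

/-- [LS] `S_WR → S_TK → S_KAP → S_LS`: long sums (Daboussi, Kátai). -/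
def S_LS : Prop := ∀ d : ℕ, 1 ≤ d → ∀ E : Set UnitAddCircle, IsCompact E → (∀ x ∈ E, addOrderOf x = 0) →
  ∀ ε : ℝ, 0 < ε → ∃ X₀ : ℕ, ∀ X ≥ X₀, ∀ f : ℕ → ℂ, Mul1 f → ∀ P : ℝ[X], P.natDegree ≤ d →
    ((P.coeff d : ℝ) : UnitAddCircle) ∈ E → ‖W f P 0 X‖ ≤ ε * X

/-- [DIL] dilation of doubly logarithmic sums. Proof: for `m ≥ 1` the `n` with `n / p = m` have `∑ 1/n ≤ 1/m`; those
with `n / p = 0` have `∑ 1/n ≤ 1 + log p`; the same for `H`, where `H₁ / p ≤ H / p` and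
`∑_{H₁/p ≤ h < H₁} 1/h ≤ 2 + log p`. -/
def S_DIL : Prop := ∀ (p H₁ H₂ N : ℕ) (R : ℝ) (F : ℕ → ℕ → ℝ), 1 ≤ p → 2 * p ≤ H₁ → H₁ ≤ H₂ →
  (∀ n H, 0 ≤ F n H ∧ F n H ≤ R) →
  MM H₁ H₂ N (fun n H => F (n / p) (H / p)) ≤ MM H₁ H₂ N F +
    R * (4 + 2 * Real.log p) * (∑ H ∈ Ico H₁ H₂, 1 / (H : ℝ) + ∑ n ∈ Icc 1 N, 1 / (n : ℝ))

open Classical in
/-- [PIG] pigeonhole over the levels. Proof: `1[x ≠ y] ≤ (x - y) + (R + 1) 1[x < y]` for natural numbers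
`x, y ≤ R`, with `x = r (j+1) (n/p) (H/p)` and `y = r j n H`; sum over `p`, `n`, `H` and then over `j < J`. -/
def S_PIG : Prop := ∀ (I : Finset ℕ) (w : ℕ → ℝ), (∀ p ∈ I, 0 ≤ w p) → ∑ p ∈ I, w p = 1 →
  ∀ (J R H₁ H₂ N : ℕ) (κ er : ℝ) (r : ℕ → ℕ → ℕ → ℕ), 1 ≤ J → (∀ j n H, r j n H ≤ R) →
  (∀ j < J, ∀ p ∈ I, MM H₁ H₂ N (fun n H => (r (j + 1) (n / p) (H / p) : ℝ)) ≤
    MM H₁ H₂ N (fun n H => (r (j + 1) n H : ℝ)) + er) →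
  (∀ j < J, ∀ H ∈ Ico H₁ H₂, ∀ n ∈ Icc 1 N,
    ∑ p ∈ I.filter (fun p => r (j + 1) (n / p) (H / p) < r j n H), w p ≤ κ) →
  ∃ j < J, ∑ p ∈ I, w p * MM H₁ H₂ N (fun n H => if r (j + 1) (n / p) (H / p) ≠ r j n H then 1 else 0) ≤
    (R / J + (R + 1) * κ) * MM H₁ H₂ N (fun _ _ => 1) + er

/-- [SUB] passing to shorter windows in logarithmic averages. Proof: for `n > C H` and `i < H` we have
`1/n ≤ (1 + 1/C)/(n+i)`, and `∑_{N < m ≤ N + H} 1/m ≤ 1`. -/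
def S_SUB : Prop := ∀ (s s' : ℕ → ℝ) (C H N : ℕ) (η : ℝ), (∀ n, 0 ≤ s' n ∧ s' n ≤ 1) → 1 ≤ C → 1 ≤ H → C * H ≤ N →
  0 ≤ η → (∀ n, s n ≤ (1 / (H : ℝ)) * ∑ i ∈ range H, s' (n + i) + η) →
  ∑ n ∈ Ioc (C * H) N, (1 / (n : ℝ)) * s n ≤
    (1 + 1 / (C : ℝ)) * (∑ n ∈ Icc 1 N, (1 / (n : ℝ)) * s' n + 1) + η * ∑ n ∈ Icc 1 N, 1 / (n : ℝ)

end Pool.Agent.Helper44K9.FU
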