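import Pool.Agent.Helper44K9.FU.Stm

/-! [EQ]: few `p^d α` are near a small set without rational points. -/

set_option autoImplicit false

namespace Pool.Agent.Helper44K9.FU

open Finset Polynomial MeasureTheory
open Pool.Agent.H807R2.Dav (ee norm_ee)

namespace EqL

/-- the prime `p` is bad -/
def Bad (d K : ℕ) (E : Set UnitAddCircle) (τ α : ℝ) (p : ℕ) : Prop :=
  ∃ β : ℝ, (β : UnitAddCircle) ∈ E ∧ ∃ m : ℕ, 1 ≤ m ∧ m ≤ K ∧ ∃ a : ℤ, |m * (β - (p : ℝ) ^ d * α) - a| ≤ τ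

/-- sums over dyadic blocks -/
lemma blocks (F : ℕ → ℝ) (k₁ : ℕ) : ∀ k₂, k₁ ≤ k₂ → ∑ p ∈ (Ioc (2 ^ k₁) (2 ^ k₂)).filter Nat.Prime, F p =
    ∑ k ∈ Ico k₁ k₂, ∑ p ∈ (Ioc (2 ^ k) (2 ^ (k + 1))).filter Nat.Prime, F p := by
  intro k₂ h
  induction k₂, h using Nat.le_induction with
  | base => simp
  | succ k hk ih =>
    rw [sum_Ico_succ_top hk, ← ih]
    have h1 : (2 : ℕ) ^ k₁ ≤ 2 ^ k := Nat.pow_le_pow_right (by norm_num) hk
    have h2 : (2 : ℕ) ^ k ≤ 2 ^ (k + 1) := Nat.pow_le_pow_right (by norm_num) (by omega)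
    have h3 : (Ioc (2 ^ k₁) (2 ^ (k + 1))).filter Nat.Prime =
        (Ioc (2 ^ k₁) (2 ^ k)).filter Nat.Prime ∪ (Ioc (2 ^ k) (2 ^ (k + 1))).filter Nat.Prime := by
      rw [← filter_union, Ioc_union_Ioc_eq_Ioc h1 h2]
    rw [h3, sum_union]
    rw [Finset.disjoint_left]
    intro x hx hy
    simp only [mem_filter, mem_Ioc] at hx hy
    omega

open Classical in
lemma block_le_one (P : ℕ → Prop) (k : ℕ) :
    ∑ p ∈ ((Ioc (2 ^ k) (2 ^ (k + 1))).filter Nat.Prime).filter P, 1 / (p : ℝ) ≤ 1 := by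
  have h1 : ∀ p ∈ ((Ioc (2 ^ k) (2 ^ (k + 1))).filter Nat.Prime).filter P, 1 / (p : ℝ) ≤ 1 / (2 : ℝ) ^ k := by
    intro p hp
    simp only [mem_filter, mem_Ioc] at hp
    have : (2 : ℝ) ^ k ≤ p := by exact_mod_cast hp.1.1.1.le
    exact one_div_le_one_div_of_le (by positivity) this
  refine (sum_le_sum h1).trans ?_
  rw [sum_const, nsmul_eq_mul]
  have h2 : (#(((Ioc (2 ^ k) (2 ^ (k + 1))).filter Nat.Prime).filter P) : ℝ) ≤ (2 : ℝ) ^ k := by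
    have h3 : #(((Ioc (2 ^ k) (2 ^ (k + 1))).filter Nat.Prime).filter P) ≤ #(Ioc (2 ^ k) (2 ^ (k + 1))) :=
      (card_filter_le _ _).trans (card_filter_le _ _)
    rw [Nat.card_Ioc, pow_succ] at h3
    have h4 : #(((Ioc (2 ^ k) (2 ^ (k + 1))).filter Nat.Prime).filter P) ≤ 2 ^ k := by
      rw [pow_succ]; omega
    exact_mod_cast h4
  have h5 : (0 : ℝ) < 2 ^ k := by positivity
  rw [mul_one_div, div_le_one h5]
  exact h2

open Classical in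
/-- a good block -/
lemma good_block {d K : ℕ} {E : Set UnitAddCircle} {c₁ τ α : ℝ} (hc₁ : 0 < c₁)
    {S : Finset ℤ} {a : ℤ → ℂ} (h0S : 0 ∈ S)
    (hpos : ∀ x : ℝ, 0 ≤ (∑ j ∈ S, a j * ee (j * x)).re) (ha0 : (a 0).re ≤ c₁)
    (hmaj : ∀ x β : ℝ, (β : UnitAddCircle) ∈ E → ∀ m : ℕ, 1 ≤ m → m ≤ K → ∀ b : ℤ, |m * (β - x) - b| ≤ τ →
      1 ≤ (∑ j ∈ S, a j * ee (j * x)).re)
    {k : ℕ} (hk : 1 ≤ k)
    (hch : ∑ n ∈ Ioc (2 ^ k) (2 * 2 ^ k), ArithmeticFunction.vonMangoldt n ≤ 3 * ((2 ^ k : ℕ) : ℝ))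
    (hS : ∀ j ∈ S, j ≠ 0 → ‖∑ n ∈ Ioc (2 ^ k) (2 * 2 ^ k), ((ArithmeticFunction.vonMangoldt n : ℝ) : ℂ) *
      ee ((j * α) * (n : ℝ) ^ d)‖ ≤ c₁ / (∑ j ∈ S, ‖a j‖ + 1) * ((2 ^ k : ℕ) : ℝ)) :
    ∑ p ∈ ((Ioc (2 ^ k) (2 ^ (k + 1))).filter Nat.Prime).filter (Bad d K E τ α), 1 / (p : ℝ) ≤
      4 * c₁ / (k * Real.log 2) := by
  set T : ℝ → ℝ := fun x => (∑ j ∈ S, a j * ee (j * x)).re with hT
  set N : ℕ := 2 ^ k with hN
  have hN0 : (0 : ℝ) < N := by rw [hN]; positivity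
  have hl2 : 0 < Real.log 2 := Real.log_pos (by norm_num)
  have hk0 : (0 : ℝ) < k := by exact_mod_cast hk
  -- the sum of Λ T
  have h1 : ∑ n ∈ Ioc N (2 * N), ArithmeticFunction.vonMangoldt n * T ((n : ℝ) ^ d * α) ≤ 4 * c₁ * N := by
    have e1 : ∑ n ∈ Ioc N (2 * N), ArithmeticFunction.vonMangoldt n * T ((n : ℝ) ^ d * α) =
        (∑ j ∈ S, a j * ∑ n ∈ Ioc N (2 * N), ((ArithmeticFunction.vonMangoldt n : ℝ) : ℂ) *
          ee ((j * α) * (n : ℝ) ^ d)).re := by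
      have : ((∑ j ∈ S, a j * ∑ n ∈ Ioc N (2 * N), ((ArithmeticFunction.vonMangoldt n : ℝ) : ℂ) *
          ee ((j * α) * (n : ℝ) ^ d))) =
          ∑ n ∈ Ioc N (2 * N), ((ArithmeticFunction.vonMangoldt n : ℝ) : ℂ) * ∑ j ∈ S, a j * ee (j * ((n : ℝ) ^ d * α)) := by
        simp only [mul_sum]
        rw [sum_comm]
        refine sum_congr rfl fun n _ => sum_congr rfl fun j _ => ?_
        rw [show (j : ℝ) * ((n : ℝ) ^ d * α) = j * α * (n : ℝ) ^ d by ring]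
        ring
      rw [this, Complex.re_sum]
      refine sum_congr rfl fun n _ => ?_
      rw [Complex.re_ofReal_mul]
    rw [e1, Complex.re_sum, ← add_sum_erase S _ h0S]
    have e2 : (a 0 * ∑ n ∈ Ioc N (2 * N), ((ArithmeticFunction.vonMangoldt n : ℝ) : ℂ) *
        ee ((((0 : ℤ) : ℝ) * α) * (n : ℝ) ^ d)).re ≤ c₁ * (3 * N) := by
      have e3 : ∑ n ∈ Ioc N (2 * N), ((ArithmeticFunction.vonMangoldt n : ℝ) : ℂ) *
          ee ((((0 : ℤ) : ℝ) * α) * (n : ℝ) ^ d) = ((∑ n ∈ Ioc N (2 * N), ArithmeticFunction.vonMangoldt n : ℝ) : ℂ) := by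
        push_cast
        refine sum_congr rfl fun n _ => ?_
        rw [zero_mul, zero_mul]
        have : ee 0 = 1 := by unfold ee; simp
        rw [this, mul_one]
      rw [e3, mul_comm, Complex.re_ofReal_mul, mul_comm]
      have e4 : 0 ≤ ∑ n ∈ Ioc N (2 * N), ArithmeticFunction.vonMangoldt n :=
        sum_nonneg fun n _ => ArithmeticFunction.vonMangoldt_nonneg
      calc (a 0).re * ∑ n ∈ Ioc N (2 * N), ArithmeticFunction.vonMangoldt n ≤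
          c₁ * ∑ n ∈ Ioc N (2 * N), ArithmeticFunction.vonMangoldt n := mul_le_mul_of_nonneg_right ha0 e4
        _ ≤ c₁ * (3 * N) := mul_le_mul_of_nonneg_left hch hc₁.le
    have e5 : ∑ j ∈ S.erase 0, (a j * ∑ n ∈ Ioc N (2 * N), ((ArithmeticFunction.vonMangoldt n : ℝ) : ℂ) *
        ee ((j * α) * (n : ℝ) ^ d)).re ≤ c₁ * N := by
      set A : ℝ := ∑ j ∈ S, ‖a j‖ + 1 with hA
      have hA0 : 0 < A := by
        have : 0 ≤ ∑ j ∈ S, ‖a j‖ := sum_nonneg fun _ _ => norm_nonneg _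
        linarith
      calc ∑ j ∈ S.erase 0, (a j * ∑ n ∈ Ioc N (2 * N), ((ArithmeticFunction.vonMangoldt n : ℝ) : ℂ) *
            ee ((j * α) * (n : ℝ) ^ d)).re ≤ ∑ j ∈ S.erase 0, ‖a j‖ * (c₁ / A * N) := by
            refine sum_le_sum fun j hj => ?_
            rw [mem_erase] at hj
            refine (Complex.re_le_norm _).trans ?_
            rw [norm_mul]
            exact mul_le_mul_of_nonneg_left (hS j hj.2 hj.1) (norm_nonneg _)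
        _ = (∑ j ∈ S.erase 0, ‖a j‖) * (c₁ / A * N) := by rw [sum_mul]
        _ ≤ A * (c₁ / A * N) := by
            refine mul_le_mul_of_nonneg_right ?_ (by positivity)
            have : ∑ j ∈ S.erase 0, ‖a j‖ ≤ ∑ j ∈ S, ‖a j‖ :=
              sum_le_sum_of_subset_of_nonneg (erase_subset _ _) fun _ _ _ => norm_nonneg _
            linarith
        _ = c₁ * N := by field_simp
    linarith
  -- compare
  have h2 : ∀ p ∈ ((Ioc (2 ^ k) (2 ^ (k + 1))).filter Nat.Prime).filter (Bad d K E τ α), 1 / (p : ℝ) ≤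
      1 / (N * (k * Real.log 2)) * (ArithmeticFunction.vonMangoldt p * T ((p : ℝ) ^ d * α)) := by
    intro p hp
    simp only [mem_filter, mem_Ioc] at hp
    obtain ⟨⟨⟨hp1, hp2⟩, hpp⟩, β, hβ, m, hm1, hmK, b, hb⟩ := hp
    have h3 := hmaj ((p : ℝ) ^ d * α) β hβ m hm1 hmK b hb
    have h4 : (k : ℝ) * Real.log 2 ≤ Real.log p := by
      rw [← Real.log_pow]
      exact Real.log_le_log (by positivity) (by exact_mod_cast hp1.le)
    have h5 : (N : ℝ) ≤ p := by exact_mod_cast hp1.le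
    rw [ArithmeticFunction.vonMangoldt_apply_prime hpp]
    have h6 : (k : ℝ) * Real.log 2 ≤ Real.log p * T ((p : ℝ) ^ d * α) := by
      have h7 : 0 ≤ Real.log p := le_trans (by positivity) h4
      calc (k : ℝ) * Real.log 2 ≤ Real.log p := h4
        _ = Real.log p * 1 := (mul_one _).symm
        _ ≤ _ := mul_le_mul_of_nonneg_left h3 h7
    calc 1 / (p : ℝ) ≤ 1 / N := one_div_le_one_div_of_le hN0 h5
      _ = 1 / (N * (k * Real.log 2)) * (k * Real.log 2) := by field_simp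
      _ ≤ _ := mul_le_mul_of_nonneg_left h6 (by positivity)
  refine (sum_le_sum h2).trans ?_
  rw [← mul_sum]
  have h3 : ∑ p ∈ ((Ioc (2 ^ k) (2 ^ (k + 1))).filter Nat.Prime).filter (Bad d K E τ α),
      ArithmeticFunction.vonMangoldt p * T ((p : ℝ) ^ d * α) ≤
      ∑ n ∈ Ioc N (2 * N), ArithmeticFunction.vonMangoldt n * T ((n : ℝ) ^ d * α) := by
    refine sum_le_sum_of_subset_of_nonneg ?_ fun n _ _ =>
      mul_nonneg ArithmeticFunction.vonMangoldt_nonneg (hpos _)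
    intro x hx
    simp only [mem_filter, mem_Ioc] at hx
    rw [mem_Ioc]
    refine ⟨hx.1.1.1, ?_⟩
    have := hx.1.1.2
    rw [pow_succ] at this
    rw [hN]; linarith
  calc _ ≤ 1 / (N * (k * Real.log 2)) * (4 * c₁ * N) :=
        mul_le_mul_of_nonneg_left (h3.trans h1) (by positivity)
    _ = 4 * c₁ / (k * Real.log 2) := by field_simp

/-- no bad primes near a rational number -/
lemma no_bad {d K Q : ℕ} {E : Set UnitAddCircle} {κ τ ρ α : ℝ}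
    (hκE : ∀ β : ℝ, (β : UnitAddCircle) ∈ E → ∀ q : ℕ, 1 ≤ q → q ≤ K * Q → ∀ a : ℤ, κ ≤ |q * β - a|)
    (hτ : (Q : ℝ) * τ + K * 2 ^ d * ρ < κ)
    {k q : ℕ} (hq1 : 1 ≤ q) (hqQ : q ≤ Q) {a : ℤ}
    (ha : |q * α - a| ≤ ρ / ((2 : ℝ) ^ k) ^ d) {p : ℕ} (hp : p ≤ 2 ^ (k + 1)) : ¬ Bad d K E τ α p := by
  rintro ⟨β, hβ, m, hm1, hmK, b, hb⟩
  have h1 := hκE β hβ (m * q) (Nat.mul_pos hm1 hq1) (Nat.mul_le_mul hmK hqQ) (q * b + m * p ^ d * a)
  have h2 : ((m * q : ℕ) : ℝ) * β - ((q * b + m * p ^ d * a : ℤ) : ℝ) =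
      q * (m * (β - (p : ℝ) ^ d * α) - b) + m * (p : ℝ) ^ d * (q * α - a) := by
    push_cast; ring
  rw [h2] at h1
  have h3 : |(q : ℝ) * (m * (β - (p : ℝ) ^ d * α) - b)| ≤ Q * τ := by
    rw [abs_mul, Nat.abs_cast]
    have : (q : ℝ) ≤ Q := by exact_mod_cast hqQ
    exact mul_le_mul this hb (abs_nonneg _) (Nat.cast_nonneg _)
  have h4 : |(m : ℝ) * (p : ℝ) ^ d * (q * α - a)| ≤ K * 2 ^ d * ρ := by
    rw [abs_mul, abs_mul, Nat.abs_cast, abs_pow, Nat.abs_cast]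
    have h5 : (m : ℝ) ≤ K := by exact_mod_cast hmK
    have h6 : (p : ℝ) ^ d ≤ (2 * 2 ^ k) ^ d := by
      have : (p : ℝ) ≤ 2 * 2 ^ k := by
        rw [pow_succ] at hp
        have h7 : p ≤ 2 * 2 ^ k := by linarith
        exact_mod_cast h7
      exact pow_le_pow_left₀ (Nat.cast_nonneg _) this _
    calc (m : ℝ) * (p : ℝ) ^ d * |q * α - a| ≤ K * (2 * 2 ^ k) ^ d * (ρ / ((2 : ℝ) ^ k) ^ d) := by
          gcongr
      _ = K * 2 ^ d * ρ := by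
          rw [mul_pow]
          field_simp
  have h5 := abs_add_le ((q : ℝ) * (m * (β - (p : ℝ) ^ d * α) - b)) (m * (p : ℝ) ^ d * (q * α - a))
  linarith

end EqL

open EqL in
theorem eq (hPW : S_PW) (hTR : S_TRIG) (hKA : S_KAP) (hCH : S_CHB) : S_EQ := by
  classical
  intro d K hd hK1 c hc
  obtain ⟨⟨b, hb, k₀, hk₀⟩, N₁, hN₁⟩ := hCH
  set c₁ : ℝ := c * b / 12 with hc₁
  have hc₁0 : 0 < c₁ := by positivity
  obtain ⟨δ, hδ, hE⟩ := hTR K hK1 c₁ hc₁0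
  refine ⟨δ, hδ, fun E hEc hEv hEt z A => ?_⟩
  obtain ⟨S, a, τ₁, hτ₁, h0S, hpos, ha0, hmaj⟩ := hE E hEc hEv
  set ε₁ : ℝ := c₁ / (∑ j ∈ S, ‖a j‖ + 1) with hε₁
  have hε₁0 : 0 < ε₁ := by
    have : 0 ≤ ∑ j ∈ S, ‖a j‖ := sum_nonneg fun _ _ => norm_nonneg _
    positivity
  obtain ⟨C, N₀, hC1, hPWN⟩ := hPW d hd ε₁ hε₁0
  set D₀ : ℕ := ∑ j ∈ S, j.natAbs + 1 with hD₀
  set Q : ℕ := C * D₀ with hQ
  have hQ1 : 1 ≤ Q := Nat.mul_pos hC1 (by omega)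
  have hCQ : C ≤ Q := Nat.le_mul_of_pos_right _ (by omega)
  obtain ⟨κ, hκ, hκE⟩ := hKA E hEc hEt (K * Q)
  have hQr : (0 : ℝ) < Q := by exact_mod_cast hQ1
  have hKr : (0 : ℝ) < K := by exact_mod_cast hK1
  set ρ : ℝ := κ / (4 * (K * 2 ^ d)) with hρ
  have hρ0 : 0 < ρ := by positivity
  set τ : ℝ := min τ₁ (κ / (4 * Q)) with hτ
  have hτ0 : 0 < τ := lt_min hτ₁ (by positivity)
  have hτκ : (Q : ℝ) * τ + K * 2 ^ d * ρ < κ := by
    have h1 : (Q : ℝ) * τ ≤ κ / 4 := by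
      calc (Q : ℝ) * τ ≤ Q * (κ / (4 * Q)) := mul_le_mul_of_nonneg_left (min_le_right _ _) hQr.le
        _ = κ / 4 := by field_simp
    have h2 : (K : ℝ) * 2 ^ d * ρ = κ / 4 := by rw [hρ]; field_simp
    linarith
  obtain ⟨B₂, hB₂⟩ : ∃ B₂ : ℕ, (Q : ℝ) / ρ < 2 ^ B₂ := pow_unbounded_of_one_lt _ (by norm_num)
  -- large k
  obtain ⟨k₁, hk₁0, hk₁1, hk₁N0, hk₁N1, hk₁z⟩ : ∃ k₁ : ℕ, k₀ ≤ k₁ ∧ 1 ≤ k₁ ∧ N₀ ≤ 2 ^ k₁ ∧ N₁ ≤ 2 ^ k₁ ∧ z ≤ 2 ^ k₁ := by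
    refine ⟨k₀ + N₀ + N₁ + z + 1, by omega, by omega, ?_, ?_, ?_⟩
    all_goals exact le_trans (by omega) (Nat.lt_two_pow_self (n := k₀ + N₀ + N₁ + z + 1)).le
  -- divergence
  obtain ⟨k₂, hk₂, hdiv⟩ : ∃ k₂ : ℕ, k₁ ≤ k₂ ∧ max A (2 * B₂ / c) ≤ b * ∑ k ∈ Ico k₁ k₂, 1 / (k : ℝ) := by
    have h1 := Real.tendsto_sum_range_one_div_nat_succ_atTop
    obtain ⟨M, hM⟩ := (h1.eventually_ge_atTop (max A (2 * B₂ / c) / b + ∑ k ∈ range k₁, 1 / ((k : ℝ)))).exists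
    refine ⟨max k₁ (M + 1), le_max_left _ _, ?_⟩
    have h2 : ∑ i ∈ range M, 1 / ((i : ℝ) + 1) = ∑ k ∈ range (M + 1), 1 / (k : ℝ) := by
      rw [sum_range_succ' (fun k : ℕ => 1 / (k : ℝ)) M]
      push_cast; simp
    rw [h2] at hM
    have h3 : ∑ k ∈ range (M + 1), 1 / (k : ℝ) ≤ ∑ k ∈ range (max k₁ (M + 1)), 1 / (k : ℝ) :=
      sum_le_sum_of_subset_of_nonneg (range_subset_range.2 (le_max_right _ _)) fun _ _ _ => by positivity
    have h4 : ∑ k ∈ Ico k₁ (max k₁ (M + 1)), 1 / (k : ℝ) =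
        ∑ k ∈ range (max k₁ (M + 1)), 1 / (k : ℝ) - ∑ k ∈ range k₁, 1 / (k : ℝ) :=
      sum_Ico_eq_sub _ (le_max_left _ _)
    rw [h4]
    have h5 : max A (2 * B₂ / c) / b ≤ ∑ k ∈ range (max k₁ (M + 1)), 1 / (k : ℝ) - ∑ k ∈ range k₁, 1 / (k : ℝ) := by
      linarith
    rw [div_le_iff₀ hb] at h5
    linarith
  set I : Finset ℕ := (Ioc (2 ^ k₁) (2 ^ k₂)).filter Nat.Prime with hI
  set L : ℝ := ∑ p ∈ I, 1 / (p : ℝ) with hL
  have hLb : b * ∑ k ∈ Ico k₁ k₂, 1 / (k : ℝ) ≤ L := by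
    rw [hL, hI, blocks _ k₁ k₂ hk₂, mul_sum]
    refine sum_le_sum fun k hk => ?_
    rw [mem_Ico] at hk
    rw [mul_one_div]
    exact hk₀ k (by omega)
  refine ⟨I, ?_, ?_, τ, hτ0, fun α => ?_⟩
  · intro p hp
    rw [hI, mem_filter, mem_Ioc] at hp
    exact ⟨hp.2, lt_of_le_of_lt hk₁z hp.1.1⟩
  · exact (le_max_left _ _).trans (hdiv.trans hLb)
  -- the main estimate
  have e0 : ∑ p ∈ I.filter (fun p : ℕ => ∃ β : ℝ, (β : UnitAddCircle) ∈ E ∧ ∃ m : ℕ, 1 ≤ m ∧ m ≤ K ∧ ∃ a : ℤ,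
      |m * (β - (p : ℝ) ^ d * α) - a| ≤ τ), 1 / (p : ℝ) =
      ∑ k ∈ Ico k₁ k₂, ∑ p ∈ ((Ioc (2 ^ k) (2 ^ (k + 1))).filter Nat.Prime).filter (Bad d K E τ α), 1 / (p : ℝ) := by
    have h1 := blocks (fun p => if Bad d K E τ α p then 1 / (p : ℝ) else 0) k₁ k₂ hk₂
    rw [sum_filter]
    simp only [sum_filter (p := Bad d K E τ α)]
    exact h1
  rw [e0]
  -- exceptional blocks
  set X : Finset ℕ := (Ico k₁ k₂).filter (fun k =>
    (∃ q : ℕ, 1 ≤ q ∧ q ≤ Q ∧ ∃ a : ℤ, |q * α - a| ≤ Q / ((2 : ℝ) ^ k) ^ d) ∧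
    ∀ q : ℕ, 1 ≤ q → q ≤ Q → ∀ a : ℤ, ρ / ((2 : ℝ) ^ k) ^ d < |q * α - a|) with hX
  have hXcard : #X ≤ B₂ := by
    rcases X.eq_empty_or_nonempty with h | h
    · rw [h]; simp
    set m := X.min' h with hm
    have hm1 : m ∈ X := X.min'_mem h
    have hsub : X ⊆ Ico m (m + B₂) := by
      intro l hl
      rw [mem_Ico]
      have hml : m ≤ l := X.min'_le l hl
      refine ⟨hml, ?_⟩
      by_contra hcon
      push Not at hcon
      rw [hX, mem_filter] at hm1 hl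
      obtain ⟨q, hq1, hqQ, a', ha'⟩ := hl.2.1
      have h1 := hm1.2.2 q hq1 hqQ a'
      have h2 : ρ / ((2 : ℝ) ^ m) ^ d < Q / ((2 : ℝ) ^ l) ^ d := lt_of_lt_of_le h1 ha'
      rw [div_lt_div_iff₀ (by positivity) (by positivity)] at h2
      have h3 : ((2 : ℝ) ^ l) ^ d = ((2 : ℝ) ^ m) ^ d * ((2 : ℝ) ^ (l - m)) ^ d := by
        rw [← mul_pow, ← pow_add]
        congr 2; omega
      rw [h3] at h2
      have h4 : (2 : ℝ) ^ B₂ ≤ ((2 : ℝ) ^ (l - m)) ^ d := by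
        calc (2 : ℝ) ^ B₂ ≤ 2 ^ (l - m) := pow_le_pow_right₀ (by norm_num) (by omega)
          _ ≤ _ := le_self_pow₀ (one_le_pow₀ (by norm_num)) (by omega)
      rw [div_lt_iff₀ hρ0] at hB₂
      have h5 : (0 : ℝ) < ((2 : ℝ) ^ m) ^ d := by positivity
      have h6 : ρ * (((2 : ℝ) ^ m) ^ d * ((2 : ℝ) ^ (l - m)) ^ d) < Q * ((2 : ℝ) ^ m) ^ d := h2
      have h7 : (2 : ℝ) ^ B₂ * ρ ≤ ((2 : ℝ) ^ (l - m)) ^ d * ρ := mul_le_mul_of_nonneg_right h4 hρ0.le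
      nlinarith
    calc #X ≤ #(Ico m (m + B₂)) := card_le_card hsub
      _ = B₂ := by rw [Nat.card_Ico]; omega
  have hblk : ∀ k ∈ Ico k₁ k₂, ∑ p ∈ ((Ioc (2 ^ k) (2 ^ (k + 1))).filter Nat.Prime).filter (Bad d K E τ α), 1 / (p : ℝ) ≤
      4 * c₁ / (k * Real.log 2) + (if k ∈ X then 1 else 0) := by
    intro k hk
    have hk' := mem_Ico.1 hk
    have hl2 : 0 < Real.log 2 := Real.log_pos (by norm_num)
    have hk0 : (0 : ℝ) < k := by exact_mod_cast (by omega : 0 < k)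
    have hnn : 0 ≤ 4 * c₁ / (k * Real.log 2) := by positivity
    by_cases hkX : k ∈ X
    · rw [if_pos hkX]
      have := block_le_one (Bad d K E τ α) k
      linarith
    rw [if_neg hkX, add_zero]
    have h2k : (2 : ℕ) ^ k₁ ≤ 2 ^ k := Nat.pow_le_pow_right (by norm_num) hk'.1
    by_cases hnear : ∃ q : ℕ, 1 ≤ q ∧ q ≤ Q ∧ ∃ a : ℤ, |q * α - a| ≤ Q / ((2 : ℝ) ^ k) ^ d
    · -- no bad primes
      have h1 : ¬ ∀ q : ℕ, 1 ≤ q → q ≤ Q → ∀ a : ℤ, ρ / ((2 : ℝ) ^ k) ^ d < |q * α - a| := by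
        intro h2
        exact hkX (by rw [hX, mem_filter]; exact ⟨hk, hnear, h2⟩)
      push Not at h1
      obtain ⟨q, hq1, hqQ, a', ha'⟩ := h1
      have h3 : ((Ioc (2 ^ k) (2 ^ (k + 1))).filter Nat.Prime).filter (Bad d K E τ α) = ∅ := by
        rw [filter_eq_empty_iff]
        intro p hp
        rw [mem_filter, mem_Ioc] at hp
        exact no_bad hκE hτκ hq1 hqQ ha' hp.1.2
      rw [h3, sum_empty]
      exact hnn
    · refine good_block hc₁0 h0S hpos ha0 (fun x β hβ m hm1 hmK b' hb' =>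
        hmaj x β hβ m hm1 hmK b' (hb'.trans (min_le_left _ _))) (by omega) ?_ ?_
      · exact hN₁ (2 ^ k) (hk₁N1.trans h2k)
      · intro j hj hj0
        by_contra hcon
        push Not at hcon
        obtain ⟨q, hq1, hqC, a', ha'⟩ := hPWN (2 ^ k) (hk₁N0.trans h2k) (j * α) hcon.le
        refine hnear ⟨q * j.natAbs, Nat.mul_pos hq1 (Int.natAbs_pos.2 hj0), ?_, (if 0 ≤ j then a' else -a'), ?_⟩
        · rw [hQ]
          refine Nat.mul_le_mul hqC ?_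
          have : j.natAbs ≤ ∑ j ∈ S, j.natAbs := single_le_sum (f := fun j : ℤ => j.natAbs) (fun _ _ => Nat.zero_le _) hj
          omega
        · have h5 : |((q * j.natAbs : ℕ) : ℝ) * α - ((if 0 ≤ j then a' else -a' : ℤ) : ℝ)| = |q * (j * α) - a'| := by
            have h6 : ((j.natAbs : ℕ) : ℝ) = ((|j| : ℤ) : ℝ) := by
              rw [Int.abs_eq_natAbs, Int.cast_natCast]
            split_ifs with hj1
            · push_cast
              rw [h6, abs_of_nonneg hj1]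
              congr 1; ring
            · push Not at hj1
              push_cast
              rw [h6, abs_of_neg hj1]
              push_cast
              rw [show (q : ℝ) * -(j : ℝ) * α - -(a' : ℝ) = -(q * (j * α) - a') by ring, abs_neg]
          rw [h5]
          refine ha'.trans ?_
          push_cast
          have : (C : ℝ) ≤ Q := by exact_mod_cast hCQ
          gcongr
  refine (sum_le_sum hblk).trans ?_
  rw [sum_add_distrib]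
  have h1 : ∑ k ∈ Ico k₁ k₂, (if k ∈ X then (1 : ℝ) else 0) ≤ B₂ := by
    rw [← sum_filter, sum_const, nsmul_eq_mul, mul_one]
    have : (Ico k₁ k₂).filter (fun k => k ∈ X) ⊆ X := fun k hk => (mem_filter.1 hk).2
    exact_mod_cast (card_le_card this).trans hXcard
  have h2 : ∑ k ∈ Ico k₁ k₂, 4 * c₁ / (k * Real.log 2) = 4 * c₁ / Real.log 2 * ∑ k ∈ Ico k₁ k₂, 1 / (k : ℝ) := by
    rw [mul_sum]
    refine sum_congr rfl fun k _ => ?_
    rw [mul_one_div, div_div, mul_comm (k : ℝ)]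
  have hl2 := Real.log_two_gt_d9
  have h3 : 4 * c₁ / Real.log 2 * ∑ k ∈ Ico k₁ k₂, 1 / (k : ℝ) ≤ c / 2 * L := by
    have h4 : 4 * c₁ / Real.log 2 ≤ c / 2 * b := by
      rw [div_le_iff₀ (by linarith), hc₁]
      have : 0 < c * b := by positivity
      nlinarith
    have h5 : 0 ≤ ∑ k ∈ Ico k₁ k₂, 1 / (k : ℝ) := sum_nonneg fun _ _ => by positivity
    calc 4 * c₁ / Real.log 2 * ∑ k ∈ Ico k₁ k₂, 1 / (k : ℝ) ≤ c / 2 * b * ∑ k ∈ Ico k₁ k₂, 1 / (k : ℝ) :=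
          mul_le_mul_of_nonneg_right h4 h5
      _ = c / 2 * (b * ∑ k ∈ Ico k₁ k₂, 1 / (k : ℝ)) := by ring
      _ ≤ c / 2 * L := mul_le_mul_of_nonneg_left hLb (by positivity)
  have h4 : (B₂ : ℝ) ≤ c / 2 * L := by
    have h5 : 2 * B₂ / c ≤ L := (le_max_right _ _).trans (hdiv.trans hLb)
    rw [div_le_iff₀ hc] at h5
    linarith
  rw [h2]
  linarith

end Pool.Agent.Helper44K9.FU
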