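import Pool.Agent.Helper44K9.FU.Mone

/-! The final theorem from the leaves. -/

set_option autoImplicit false

namespace Pool.Agent.Helper44K9.FU

open Finset Polynomial MeasureTheory
open Pool.Agent.H807R2.Dav (ee norm_ee)

/-- the supremum over all polynomials of degree at most `d` with leading coefficient in `E` -/
noncomputable def wSup (d : ℕ) (E : Set UnitAddCircle) (f : ℕ → ℂ) (n H : ℕ) : ℝ :=
  ⨆ P : {P : ℝ[X] // P.natDegree ≤ d ∧ ((P.coeff d : ℝ) : UnitAddCircle) ∈ E}, ‖W f P.1 n H‖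

namespace FL

lemma W_le {f : ℕ → ℂ} (hf : ∀ n, ‖f n‖ ≤ 1) (P : ℝ[X]) (n H : ℕ) : ‖W f P n H‖ ≤ H := by
  unfold W
  refine (norm_sum_le _ _).trans ?_
  calc ∑ m ∈ Ioc n (n + H), ‖f m * ee (P.eval (m : ℝ))‖ ≤ ∑ m ∈ Ioc n (n + H), (1 : ℝ) := by
        refine sum_le_sum fun m _ => ?_
        rw [norm_mul, norm_ee, mul_one]
        exact hf m
    _ = H := by simp

lemma W_range (f : ℕ → ℂ) (P : ℝ[X]) (n H : ℕ) : W f P n H =
    ∑ h ∈ range H, f (n + h + 1) * ee (P.eval ((n + h + 1 : ℕ) : ℝ)) := by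
  unfold W
  have h1 : Ioc n (n + H) = (range H).image (fun h => n + h + 1) := by
    ext m
    simp only [mem_Ioc, mem_image, mem_range]
    constructor
    · intro h; exact ⟨m - n - 1, by omega, by omega⟩
    · rintro ⟨j, hj, rfl⟩; omega
  rw [h1, sum_image fun a _ b _ hab => by omega]

/-- shifting the window -/
lemma shift {f : ℕ → ℂ} (hf : ∀ n, ‖f n‖ ≤ 1) (P : ℝ[X]) (n H j : ℕ) : ‖W f P n H - W f P (n + j) H‖ ≤ 2 * j := by
  induction j with
  | zero => simp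
  | succ j ih =>
    have h1 : W f P (n + j) H - W f P (n + (j + 1)) H =
        f (n + j + 1) * ee (P.eval ((n + j + 1 : ℕ) : ℝ)) - f (n + j + H + 1) * ee (P.eval ((n + j + H + 1 : ℕ) : ℝ)) := by
      set F : ℕ → ℂ := fun m => f (n + j + m + 1) * ee (P.eval ((n + j + m + 1 : ℕ) : ℝ)) with hF
      have e1 : W f P (n + j) H = ∑ h ∈ range H, F h := W_range f P (n + j) H
      have e2 : W f P (n + (j + 1)) H = ∑ h ∈ range H, F (h + 1) := by
        rw [W_range]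
        refine sum_congr rfl fun h _ => ?_
        simp only [hF]
        rw [show n + (j + 1) + h + 1 = n + j + (h + 1) + 1 by ring]
      have e3 := sum_range_succ F H
      have e4 := sum_range_succ' F H
      rw [e1, e2]
      have e5 : ∑ h ∈ range H, F h - ∑ h ∈ range H, F (h + 1) = F 0 - F H := by
        linear_combination -e3 + e4
      rw [e5]
    have h2 : ‖W f P (n + j) H - W f P (n + (j + 1)) H‖ ≤ 2 := by
      rw [h1]
      refine (norm_sub_le _ _).trans ?_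
      rw [norm_mul, norm_mul, norm_ee, norm_ee, mul_one, mul_one]
      linarith [hf (n + j + 1), hf (n + j + H + 1)]
    calc ‖W f P n H - W f P (n + (j + 1)) H‖ =
        ‖(W f P n H - W f P (n + j) H) + (W f P (n + j) H - W f P (n + (j + 1)) H)‖ := by congr 1; ring
      _ ≤ _ := norm_add_le _ _
      _ ≤ 2 * ((j + 1 : ℕ) : ℝ) := by push_cast; linarith

/-- sub-windows -/
lemma sub_window {f : ℕ → ℂ} (hf : ∀ n, ‖f n‖ ≤ 1) (P : ℝ[X]) (n H H' : ℕ) :
    (H' : ℝ) * ‖W f P n H‖ ≤ ∑ i ∈ range H, ‖W f P (n + i) H'‖ + 2 * (H' : ℝ) ^ 2 := by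
  have h1 : ∑ j ∈ range H', W f P (n + j) H = ∑ i ∈ range H, W f P (n + i) H' := by
    simp only [W_range]
    rw [sum_comm]
    refine sum_congr rfl fun i _ => sum_congr rfl fun j _ => ?_
    rw [show n + j + i + 1 = n + i + j + 1 by ring]
  have h2 : ∑ j ∈ range H', W f P n H = ∑ i ∈ range H, W f P (n + i) H' +
      ∑ j ∈ range H', (W f P n H - W f P (n + j) H) := by
    rw [sum_sub_distrib, h1]; ring
  have h3 : ‖∑ j ∈ range H', W f P n H‖ = H' * ‖W f P n H‖ := by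
    rw [sum_const, card_range, nsmul_eq_mul, norm_mul, Complex.norm_natCast]
  rw [← h3, h2]
  refine (norm_add_le _ _).trans (add_le_add (norm_sum_le _ _) ((norm_sum_le _ _).trans ?_))
  calc ∑ j ∈ range H', ‖W f P n H - W f P (n + j) H‖ ≤ ∑ j ∈ range H', 2 * (H' : ℝ) := by
        refine sum_le_sum fun j hj => (shift hf P n H j).trans ?_
        have : (j : ℝ) ≤ H' := by exact_mod_cast (mem_range.1 hj).le
        linarith
    _ = 2 * (H' : ℝ) ^ 2 := by rw [sum_const, card_range, nsmul_eq_mul]; ring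

lemma wSup_bdd {d : ℕ} {E : Set UnitAddCircle} {f : ℕ → ℂ} (hf : ∀ n, ‖f n‖ ≤ 1) (n H : ℕ) :
    BddAbove (Set.range fun P : {P : ℝ[X] // P.natDegree ≤ d ∧ ((P.coeff d : ℝ) : UnitAddCircle) ∈ E} =>
      ‖W f P.1 n H‖) := by
  refine ⟨H, ?_⟩
  rintro _ ⟨P, rfl⟩
  exact W_le hf P.1 n H

lemma le_wSup {d : ℕ} {E : Set UnitAddCircle} {f : ℕ → ℂ} (hf : ∀ n, ‖f n‖ ≤ 1) (n H : ℕ) {P : ℝ[X]}
    (hP : P.natDegree ≤ d) (hPE : ((P.coeff d : ℝ) : UnitAddCircle) ∈ E) : ‖W f P n H‖ ≤ wSup d E f n H :=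
  le_ciSup (wSup_bdd hf n H) (⟨P, hP, hPE⟩ : {P : ℝ[X] // P.natDegree ≤ d ∧ ((P.coeff d : ℝ) : UnitAddCircle) ∈ E})

lemma wSup_nonneg {d : ℕ} {E : Set UnitAddCircle} {f : ℕ → ℂ} (n H : ℕ) : 0 ≤ wSup d E f n H :=
  Real.iSup_nonneg fun _ => norm_nonneg _

lemma wSup_le {d : ℕ} {E : Set UnitAddCircle} {f : ℕ → ℂ} {n H : ℕ} {x : ℝ} (hx : 0 ≤ x)
    (h : ∀ P : ℝ[X], P.natDegree ≤ d → ((P.coeff d : ℝ) : UnitAddCircle) ∈ E → ‖W f P n H‖ ≤ x) :
    wSup d E f n H ≤ x :=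
  Real.iSup_le (fun P => h P.1 P.2.1 P.2.2) hx

end FL

open FL in
/-- the theorem -/
theorem fin (hBES : S_BES) (hPUSH : S_PUSH) (hNR : S_NR) (hEQ : S_EQ) (hDIL : S_DIL) (hPIG : S_PIG)
    (hSUB : S_SUB) (hLS : S_LS) :
    ∀ d : ℕ, 1 ≤ d → ∀ ε : ℝ, 0 < ε → ∃ δ : ℝ, 0 < δ ∧ ∀ E : Set UnitAddCircle, IsCompact E →
      volume E ≤ ENNReal.ofReal δ → (∀ x ∈ E, addOrderOf x = 0) → ∃ H₀ : ℕ, ∀ f : ℕ → ℂ, Mul1 f →
      ∀ N H : ℕ, H₀ ≤ H → H ≤ N →
        ∑ n ∈ Icc 1 N, (1 / (n : ℝ)) * wSup d E f n H ≤ ε * H * Real.log N := by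
  classical
  intro d hd ε hε
  set ε₁ : ℝ := ε / 16 with hε₁
  have hε₁0 : 0 < ε₁ := by positivity
  obtain ⟨δ, hδ, hM⟩ := mone hBES hPUSH hNR hEQ hDIL hPIG d hd ε₁ hε₁0
  refine ⟨δ, hδ, fun E hEc hEv hEt => ?_⟩
  obtain ⟨H₁, H₂, N₁, hH₁, hmain⟩ := hM E hEc hEv hEt
  set ε₂ : ℝ := ε / 32 with hε₂
  have hε₂0 : 0 < ε₂ := by positivity
  obtain ⟨X₀, hX₀⟩ := hLS d hd E hEc hEt ε₂ hε₂0
  obtain ⟨A, hA⟩ := exists_nat_ge (16 * (H₂ : ℝ) / ε)
  obtain ⟨A', hA'⟩ := exists_nat_ge ((X₀ : ℝ) / ε₂)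
  obtain ⟨A'', hA''⟩ := exists_nat_ge (Real.exp (1 + 4 / ε))
  refine ⟨N₁ + X₀ + A + A' + A'' + H₂ + 1, fun f hf N H hH hN => ?_⟩
  have hH0 : (0 : ℝ) < H := by exact_mod_cast (by omega : 0 < H)
  have hHA : 16 * (H₂ : ℝ) / ε ≤ H := hA.trans (by exact_mod_cast (by omega : A ≤ H))
  have hHA' : (X₀ : ℝ) / ε₂ ≤ H := hA'.trans (by exact_mod_cast (by omega : A' ≤ H))
  have hHA'' : Real.exp (1 + 4 / ε) ≤ N := hA''.trans (by exact_mod_cast (by omega : A'' ≤ N))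
  obtain ⟨H', hH', hsmall⟩ := hmain N (by omega) f hf
  rw [mem_Ico] at hH'
  have hH'0 : (0 : ℝ) < H' := by exact_mod_cast (by omega : 0 < H')
  set hn : ℝ := ∑ n ∈ Icc 1 N, 1 / (n : ℝ) with hhn
  have hn0 : 0 ≤ hn := sum_nonneg fun _ _ => by positivity
  have hlog : hn ≤ 1 + Real.log N := by
    have h1 := harmonic_le_one_add_log N
    refine le_trans (le_of_eq ?_) h1
    rw [harmonic_eq_sum_Icc]
    push_cast
    exact sum_congr rfl fun x _ => one_div _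
  have hlogN : 1 + 4 / ε ≤ Real.log N := by
    rw [Real.le_log_iff_exp_le (lt_of_lt_of_le (Real.exp_pos _) hHA'')]
    exact hHA''
  -- normalized suprema
  set s : ℕ → ℕ → ℝ := fun H n => wSup d E f n H / H with hs
  have hs01 : ∀ H n, 0 ≤ s H n ∧ s H n ≤ 1 := by
    intro H n
    simp only [hs]
    refine ⟨div_nonneg (wSup_nonneg n H) (Nat.cast_nonneg _), ?_⟩
    refine div_le_one_of_le₀ (wSup_le (Nat.cast_nonneg _) fun P _ _ => W_le hf.1 P n H) (Nat.cast_nonneg _)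
  -- small scale
  have hsm : ∑ n ∈ Icc 1 N, (1 / (n : ℝ)) * s H' n ≤ 2 * ε₁ * hn := by
    have h1 : ∀ n, s H' n ≤ (if ∃ P : ℝ[X], P.natDegree ≤ d ∧ ((P.coeff d : ℝ) : UnitAddCircle) ∈ E ∧
        ε₁ * H' ≤ ‖W f P n H'‖ then 1 else 0) + ε₁ := by
      intro n
      split_ifs with h
      · linarith [(hs01 H' n).2]
      · push Not at h
        rw [zero_add]
        simp only [hs]
        rw [div_le_iff₀ hH'0]
        exact wSup_le (by positivity) fun P hP hPE => (h P hP hPE).le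
    calc ∑ n ∈ Icc 1 N, (1 / (n : ℝ)) * s H' n ≤ ∑ n ∈ Icc 1 N, (1 / (n : ℝ)) *
        ((if ∃ P : ℝ[X], P.natDegree ≤ d ∧ ((P.coeff d : ℝ) : UnitAddCircle) ∈ E ∧
        ε₁ * H' ≤ ‖W f P n H'‖ then 1 else 0) + ε₁) :=
          sum_le_sum fun n _ => mul_le_mul_of_nonneg_left (h1 n) (by positivity)
      _ = ∑ n ∈ Icc 1 N, (1 / (n : ℝ)) *
        (if ∃ P : ℝ[X], P.natDegree ≤ d ∧ ((P.coeff d : ℝ) : UnitAddCircle) ∈ E ∧
        ε₁ * H' ≤ ‖W f P n H'‖ then 1 else 0) + hn * ε₁ := by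
          simp only [mul_add]
          rw [sum_add_distrib, hhn, sum_mul]
      _ ≤ 2 * ε₁ * hn := by linarith
  -- large n
  have hlarge : ∑ n ∈ Ioc (1 * H) N, (1 / (n : ℝ)) * s H n ≤
      (1 + 1 / ((1 : ℕ) : ℝ)) * (∑ n ∈ Icc 1 N, (1 / (n : ℝ)) * s H' n + 1) + ε / 8 * hn := by
    refine hSUB (s H) (s H') 1 H N (ε / 8) (fun n => hs01 H' n) le_rfl (by omega) (by omega) (by positivity) fun n => ?_
    have h2 : ∀ P : ℝ[X], P.natDegree ≤ d → ((P.coeff d : ℝ) : UnitAddCircle) ∈ E →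
        ‖W f P n H‖ ≤ ∑ i ∈ range H, s H' (n + i) + 2 * H' := by
      intro P hP hPE
      have h3 := sub_window hf.1 P n H H'
      have h4 : ∑ i ∈ range H, ‖W f P (n + i) H'‖ ≤ H' * ∑ i ∈ range H, s H' (n + i) := by
        rw [mul_sum]
        refine sum_le_sum fun i _ => ?_
        simp only [hs]
        rw [mul_div_cancel₀ _ hH'0.ne']
        exact le_wSup hf.1 (n + i) H' hP hPE
      have h5 : (H' : ℝ) * ‖W f P n H‖ ≤ H' * (∑ i ∈ range H, s H' (n + i) + 2 * H') := by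
        refine h3.trans ?_
        rw [mul_add]
        nlinarith
      exact le_of_mul_le_mul_left h5 hH'0
    have h6 : wSup d E f n H ≤ ∑ i ∈ range H, s H' (n + i) + 2 * H' :=
      wSup_le (add_nonneg (sum_nonneg fun i _ => (hs01 H' (n + i)).1) (by positivity)) h2
    show wSup d E f n H / H ≤ _
    rw [div_le_iff₀ hH0, add_mul, mul_comm (1 / (H : ℝ)), mul_assoc, one_div_mul_cancel hH0.ne', mul_one]
    refine h6.trans (add_le_add le_rfl ?_)
    have h7 : (H' : ℝ) ≤ H₂ := by exact_mod_cast hH'.2.le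
    rw [div_le_iff₀ hε] at hHA
    linarith
  -- small n
  have hsmalln : ∑ n ∈ Icc 1 H, (1 / (n : ℝ)) * s H n ≤ ε / 8 * hn := by
    have h1 : ∀ n ∈ Icc 1 H, s H n ≤ ε / 8 := by
      intro n hn'
      rw [mem_Icc] at hn'
      simp only [hs]
      rw [div_le_iff₀ hH0]
      refine wSup_le (by positivity) fun P hP hPE => ?_
      have h2 : W f P n H = W f P 0 (n + H) - W f P 0 n := by
        unfold W
        rw [Nat.zero_add, Nat.zero_add, eq_sub_iff_add_eq, add_comm]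
        rw [← sum_union]
        · congr 1
          ext m; simp only [mem_union, mem_Ioc]; omega
        · rw [Finset.disjoint_left]
          intro m hm hm'
          rw [mem_Ioc] at hm hm'
          omega
      have h3 : ‖W f P 0 (n + H)‖ ≤ ε₂ * ((n + H : ℕ) : ℝ) := hX₀ (n + H) (by omega) f hf P hP hPE
      have h4 : ‖W f P 0 n‖ ≤ ε₂ * H := by
        by_cases hn2 : X₀ ≤ n
        · refine (hX₀ n hn2 f hf P hP hPE).trans ?_
          have : (n : ℝ) ≤ H := by exact_mod_cast hn'.2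
          exact mul_le_mul_of_nonneg_left this hε₂0.le
        · push Not at hn2
          refine (W_le hf.1 P 0 n).trans ?_
          rw [div_le_iff₀ hε₂0] at hHA'
          have : (n : ℝ) ≤ X₀ := by exact_mod_cast hn2.le
          linarith
      rw [h2]
      refine (norm_sub_le _ _).trans ?_
      push_cast at h3
      have h5 : (n : ℝ) ≤ H := by exact_mod_cast hn'.2
      have h6 : ε₂ * ((n : ℝ) + H) ≤ ε₂ * (2 * H) := mul_le_mul_of_nonneg_left (by linarith) hε₂0.le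
      rw [hε₂] at h3 h4 h6
      nlinarith
    calc ∑ n ∈ Icc 1 H, (1 / (n : ℝ)) * s H n ≤ ∑ n ∈ Icc 1 H, (1 / (n : ℝ)) * (ε / 8) :=
          sum_le_sum fun n hn' => mul_le_mul_of_nonneg_left (h1 n hn') (by positivity)
      _ = ε / 8 * ∑ n ∈ Icc 1 H, 1 / (n : ℝ) := by rw [← sum_mul]; ring
      _ ≤ ε / 8 * hn := by
          refine mul_le_mul_of_nonneg_left ?_ (by positivity)
          exact sum_le_sum_of_subset_of_nonneg (Icc_subset_Icc_right hN) fun _ _ _ => by positivity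
  -- total
  have htot : ∑ n ∈ Icc 1 N, (1 / (n : ℝ)) * wSup d E f n H = H * (∑ n ∈ Icc 1 H, (1 / (n : ℝ)) * s H n +
      ∑ n ∈ Ioc (1 * H) N, (1 / (n : ℝ)) * s H n) := by
    rw [one_mul, ← sum_union]
    · rw [mul_sum]
      have h1 : Icc 1 H ∪ Ioc H N = Icc 1 N := by
        ext m; simp only [mem_union, mem_Icc, mem_Ioc]; omega
      rw [h1]
      refine sum_congr rfl fun n _ => ?_
      simp only [hs]
      field_simp
    · rw [Finset.disjoint_left]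
      intro m hm hm'
      rw [mem_Icc] at hm
      rw [mem_Ioc] at hm'
      omega
  rw [htot]
  have h9 : ∑ n ∈ Icc 1 H, (1 / (n : ℝ)) * s H n + ∑ n ∈ Ioc (1 * H) N, (1 / (n : ℝ)) * s H n ≤
      ε * Real.log N := by
    have h10 : (1 + 1 / ((1 : ℕ) : ℝ)) * (∑ n ∈ Icc 1 N, (1 / (n : ℝ)) * s H' n + 1) ≤ 4 * ε₁ * hn + 2 := by
      rw [show (1 + 1 / ((1 : ℕ) : ℝ)) = 2 by norm_num]
      linarith
    have h11 : 4 * ε₁ * hn + 2 + ε / 8 * hn + ε / 8 * hn ≤ ε * Real.log N := by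
      have h12 : 4 * ε₁ * hn + 2 + ε / 8 * hn + ε / 8 * hn = ε / 2 * hn + 2 := by rw [hε₁]; ring
      rw [h12]
      have h13 : ε / 2 * hn ≤ ε / 2 * (1 + Real.log N) := mul_le_mul_of_nonneg_left hlog (by positivity)
      have h14 : ε / 2 * (1 + 4 / ε) ≤ ε / 2 * Real.log N := mul_le_mul_of_nonneg_left hlogN (by positivity)
      have h15 : ε / 2 * (1 + 4 / ε) = ε / 2 + 2 := by field_simp; ring
      linarith
    linarith
  calc (H : ℝ) * _ ≤ H * (ε * Real.log N) := mul_le_mul_of_nonneg_left h9 hH0.le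
    _ = ε * H * Real.log N := by ring

end Pool.Agent.Helper44K9.FU
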