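import Pool.Agent.Helper44K9.FU.Stm

/-!
# Project FU, leaf BES: at most `R` unrelated phases correlate with a bounded function.
-/

set_option autoImplicit false

namespace Pool.Agent.Helper44K9.FU

open Finset Polynomial
open Pool.Agent.H807R2.Dav (ee norm_ee ee_add)

namespace BesL

theorem ee_conj (x : ℝ) : (starRingEnd ℂ) (ee x) = ee (-x) := by
  unfold ee
  rw [← Complex.exp_conj]
  congr 1
  have h2 : (starRingEnd ℂ) 2 = 2 := Complex.conj_ofNat 2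
  simp only [map_mul, h2, Complex.conj_ofReal, Complex.conj_I]
  push_cast
  ring

theorem cs (s : Finset ℕ) (f g : ℕ → ℂ) (hf : ∀ n, ‖f n‖ ≤ 1) :
    ‖∑ m ∈ s, f m * g m‖ ^ 2 ≤ (#s : ℝ) * ∑ m ∈ s, ‖g m‖ ^ 2 := by
  have h1 : ‖∑ m ∈ s, f m * g m‖ ≤ ∑ m ∈ s, 1 * ‖g m‖ := by
    refine (norm_sum_le _ _).trans (sum_le_sum fun m _ => ?_)
    rw [norm_mul]
    exact mul_le_mul_of_nonneg_right (hf m) (norm_nonneg _)
  have h2 : (∑ m ∈ s, 1 * ‖g m‖) ^ 2 ≤ (∑ m ∈ s, (1 : ℝ) ^ 2) * ∑ m ∈ s, ‖g m‖ ^ 2 :=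
    sum_mul_sq_le_sq_mul_sq s (fun _ => (1 : ℝ)) fun m => ‖g m‖
  have h3 : ∑ m ∈ s, (1 : ℝ) ^ 2 = #s := by simp
  rw [h3] at h2
  exact (pow_le_pow_left₀ (norm_nonneg _) h1 2).trans h2

theorem gram (s : Finset ℕ) (r : ℕ) (c : Fin r → ℂ) (hc : ∀ i, ‖c i‖ ≤ 1) (φ : Fin r → ℕ → ℝ) :
    ∑ m ∈ s, ‖∑ i, c i * ee (φ i m)‖ ^ 2 ≤ ∑ i, ∑ j, ‖∑ m ∈ s, ee (φ i m - φ j m)‖ := by
  have h1 : ((∑ m ∈ s, ‖∑ i, c i * ee (φ i m)‖ ^ 2 : ℝ) : ℂ) =
      ∑ i, ∑ j, c i * (starRingEnd ℂ) (c j) * ∑ m ∈ s, ee (φ i m - φ j m) := by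
    push_cast
    have h2 : ∀ m, ((‖∑ i, c i * ee (φ i m)‖ : ℝ) : ℂ) ^ 2 =
        ∑ i, ∑ j, c i * (starRingEnd ℂ) (c j) * ee (φ i m - φ j m) := by
      intro m
      rw [← Complex.mul_conj', map_sum, sum_mul_sum]
      refine sum_congr rfl fun i _ => sum_congr rfl fun j _ => ?_
      rw [map_mul, ee_conj, sub_eq_add_neg, ee_add]
      ring
    rw [sum_congr rfl fun m _ => h2 m, sum_comm]
    refine sum_congr rfl fun i _ => ?_
    rw [sum_comm]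
    refine sum_congr rfl fun j _ => ?_
    rw [mul_sum]
  have h3 : ∑ m ∈ s, ‖∑ i, c i * ee (φ i m)‖ ^ 2 =
      ‖((∑ m ∈ s, ‖∑ i, c i * ee (φ i m)‖ ^ 2 : ℝ) : ℂ)‖ := by
    rw [Complex.norm_real, Real.norm_eq_abs, abs_of_nonneg]
    positivity
  rw [h3, h1]
  refine (norm_sum_le _ _).trans (sum_le_sum fun i _ => ?_)
  refine (norm_sum_le _ _).trans (sum_le_sum fun j _ => ?_)
  rw [norm_mul, norm_mul, RCLike.norm_conj]
  have h4 : ‖c i‖ * ‖c j‖ ≤ 1 := mul_le_one₀ (hc i) (norm_nonneg _) (hc j)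
  exact mul_le_of_le_one_left (norm_nonneg _) h4

end BesL

open BesL

theorem bes (hWR : S_WR) : S_BES := by
  intro d hd t ht
  obtain ⟨K, hK1, hK⟩ := hWR d hd (max 1 (2 / t ^ 2)) (le_max_left _ _)
  refine ⟨K, ⌈2 / t ^ 2⌉₊, hK1, ?_⟩
  intro f hf n H r P hH hP hW hrel
  have hH0 : (0 : ℝ) < H := by exact_mod_cast hH
  -- off the diagonal
  have hoff : ∀ i j, i ≠ j → ‖∑ m ∈ Ioc n (n + H), ee ((P i).eval (m : ℝ) - (P j).eval (m : ℝ))‖ ≤
      t ^ 2 / 2 * H := by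
    intro i j hij
    by_contra hcon
    push Not at hcon
    apply hrel i j hij
    have h1 := hK (P i - P j) n H ((natDegree_sub_le _ _).trans (max_le (hP i) (hP j))) hH (by
      have e : ∀ m : ℕ, (P i - P j).eval (m : ℝ) = (P i).eval (m : ℝ) - (P j).eval (m : ℝ) :=
        fun m => eval_sub _ _ _
      simp only [e]
      have h2 : (2 / t ^ 2) * (t ^ 2 / 2 * H) = H := by field_simp
      have h3 : (0 : ℝ) < 2 / t ^ 2 := by positivity
      calc (H : ℝ) = (2 / t ^ 2) * (t ^ 2 / 2 * H) := h2.symm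
        _ ≤ (2 / t ^ 2) * ‖∑ m ∈ Ioc n (n + H), ee ((P i).eval (m : ℝ) - (P j).eval (m : ℝ))‖ :=
          mul_le_mul_of_nonneg_left hcon.le h3.le
        _ ≤ _ := mul_le_mul_of_nonneg_right (le_max_right _ _) (norm_nonneg _))
    rw [coeff_sub] at h1
    exact h1
  have hdiag : ∀ i, ‖∑ m ∈ Ioc n (n + H), ee ((P i).eval (m : ℝ) - (P i).eval (m : ℝ))‖ ≤ H := by
    intro i
    refine (norm_sum_le _ _).trans ?_
    simp [norm_ee]
  have hgram : ∑ i, ∑ j, ‖∑ m ∈ Ioc n (n + H), ee ((P i).eval (m : ℝ) - (P j).eval (m : ℝ))‖ ≤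
      r * H + (r : ℝ) ^ 2 * (t ^ 2 / 2 * H) := by
    calc _ ≤ ∑ i : Fin r, ∑ j : Fin r, ((if i = j then (H : ℝ) else 0) + t ^ 2 / 2 * H) := by
          refine sum_le_sum fun i _ => sum_le_sum fun j _ => ?_
          have h0 : (0 : ℝ) ≤ t ^ 2 / 2 * H := by positivity
          by_cases hij : i = j
          · subst hij
            rw [if_pos rfl]
            linarith [hdiag i]
          · rw [if_neg hij, zero_add]
            exact hoff i j hij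
      _ = _ := by
          simp only [sum_add_distrib, sum_ite_eq, mem_univ, if_true, sum_const, card_univ,
            Fintype.card_fin, nsmul_eq_mul]
          ring
  obtain ⟨c, hc⟩ : ∃ c : Fin r → ℂ, c = fun i => (starRingEnd ℂ) (W f (P i) n H) /
    (‖W f (P i) n H‖ : ℂ) := ⟨_, rfl⟩
  have hWpos : ∀ i, 0 < ‖W f (P i) n H‖ := fun i => lt_of_lt_of_le (by positivity) (hW i)
  have hc1 : ∀ i, ‖c i‖ ≤ 1 := by
    intro i
    rw [hc]
    simp only [norm_div, RCLike.norm_conj, Complex.norm_real, norm_norm]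
    rw [div_self (hWpos i).ne']
  have hcW : ∀ i, c i * W f (P i) n H = (‖W f (P i) n H‖ : ℂ) := by
    intro i
    rw [hc]
    have h1 : (‖W f (P i) n H‖ : ℂ) ≠ 0 := by
      exact_mod_cast (hWpos i).ne'
    simp only
    rw [div_mul_eq_mul_div, div_eq_iff h1, mul_comm, Complex.mul_conj', pow_two]
  have hsum : ∑ m ∈ Ioc n (n + H), f m * (∑ i, c i * ee ((P i).eval (m : ℝ))) =
      ((∑ i, ‖W f (P i) n H‖ : ℝ) : ℂ) := by
    push_cast
    rw [sum_congr rfl fun i _ => (hcW i).symm]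
    simp only [mul_sum]
    rw [sum_comm]
    refine sum_congr rfl fun i _ => ?_
    unfold W
    rw [mul_sum]
    refine sum_congr rfl fun m _ => ?_
    ring
  have h5 := cs (Ioc n (n + H)) f (fun m => ∑ i, c i * ee ((P i).eval (m : ℝ))) hf
  rw [hsum, Complex.norm_real, Real.norm_eq_abs, sq_abs, Nat.card_Ioc, Nat.add_sub_cancel_left]
    at h5
  have h6 := gram (Ioc n (n + H)) r c hc1 (fun i m => (P i).eval (m : ℝ))
  have h7 : (r : ℝ) * (t * H) ≤ ∑ i, ‖W f (P i) n H‖ := by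
    calc (r : ℝ) * (t * H) = ∑ _i : Fin r, t * H := by
          rw [sum_const, card_univ, Fintype.card_fin, nsmul_eq_mul]
      _ ≤ _ := sum_le_sum fun i _ => hW i
  have h8 : ((r : ℝ) * (t * H)) ^ 2 ≤ H * (r * H + (r : ℝ) ^ 2 * (t ^ 2 / 2 * H)) := by
    calc ((r : ℝ) * (t * H)) ^ 2 ≤ (∑ i, ‖W f (P i) n H‖) ^ 2 :=
          pow_le_pow_left₀ (by positivity) h7 2
      _ ≤ _ := h5
      _ ≤ _ := mul_le_mul_of_nonneg_left (h6.trans hgram) hH0.le
  have h9 : (r : ℝ) ≤ 2 / t ^ 2 := by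
    rcases Nat.eq_zero_or_pos r with h0 | h0
    · rw [h0, Nat.cast_zero]
      positivity
    · have hr0 : (0 : ℝ) < r := by exact_mod_cast h0
      rw [le_div_iff₀ (by positivity)]
      have h10 : (r : ℝ) * t ^ 2 * (r * (H : ℝ) ^ 2) ≤ 2 * (r * (H : ℝ) ^ 2) := by nlinarith
      exact le_of_mul_le_mul_right h10 (by positivity)
  have h11 : (r : ℝ) ≤ (⌈2 / t ^ 2⌉₊ : ℕ) := h9.trans (Nat.le_ceil _)
  exact_mod_cast h11

end Pool.Agent.Helper44K9.FU
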