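import Pool.Agent.Helper44K9.FU.Stm

/-! [SUB] passing to shorter windows in logarithmic averages. -/

set_option autoImplicit false

namespace Pool.Agent.Helper44K9.FU

open Finset

namespace SubL

/-- the shifted sum -/
theorem shift_le (s' : ℕ → ℝ) (C H N i : ℕ) (hs : ∀ n, 0 ≤ s' n ∧ s' n ≤ 1) (hC : 1 ≤ C)
    (hH : 1 ≤ H) (hN : C * H ≤ N) (hi : i < H) :
    ∑ n ∈ Ioc (C * H) N, (1 / (n : ℝ)) * s' (n + i) ≤
      (1 + 1 / (C : ℝ)) * (∑ n ∈ Icc 1 N, (1 / (n : ℝ)) * s' n + 1) := by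
  have hC0 : (0 : ℝ) < C := by exact_mod_cast hC
  have hH0 : (0 : ℝ) < H := by exact_mod_cast hH
  have h1 : ∀ n ∈ Ioc (C * H) N, (1 / (n : ℝ)) * s' (n + i) ≤
      (1 + 1 / (C : ℝ)) * ((1 / ((n + i : ℕ) : ℝ)) * s' (n + i)) := by
    intro n hn
    rw [Finset.mem_Ioc] at hn
    have hn0 : (0 : ℝ) < n := by
      have : 0 < n := by omega
      exact_mod_cast this
    rw [← mul_assoc]
    refine mul_le_mul_of_nonneg_right ?_ (hs _).1
    have h2 : (C : ℝ) * i ≤ n := by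
      have h3 : C * i ≤ n := by nlinarith [Nat.mul_le_mul_left C hi.le]
      exact_mod_cast h3
    have h4 : (0 : ℝ) ≤ i := Nat.cast_nonneg i
    have h5 : (1 + 1 / (C : ℝ)) * (1 / ((n + i : ℕ) : ℝ)) = (C + 1) / (C * (n + i)) := by
      push_cast
      field_simp
    rw [h5, div_le_div_iff₀ hn0 (by positivity)]
    nlinarith
  refine (Finset.sum_le_sum h1).trans ?_
  rw [← Finset.mul_sum]
  refine mul_le_mul_of_nonneg_left ?_ (by positivity)
  have h2 : ∑ n ∈ Ioc (C * H) N, (1 / ((n + i : ℕ) : ℝ)) * s' (n + i) =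
      ∑ m ∈ Ioc (C * H + i) (N + i), (1 / (m : ℝ)) * s' m := by
    rw [← Finset.image_add_right_Ioc, Finset.sum_image (fun a _ b _ h => by
      exact Nat.add_right_cancel h)]
  rw [h2]
  have h3 : ∑ m ∈ Ioc (C * H + i) (N + i), (1 / (m : ℝ)) * s' m ≤
      ∑ m ∈ Icc 1 N, (1 / (m : ℝ)) * s' m + ∑ m ∈ Ioc N (N + H), (1 / (m : ℝ)) * s' m := by
    rw [← Finset.sum_union (by
      rw [Finset.disjoint_left]
      intro m h4 h5
      rw [Finset.mem_Icc] at h4
      rw [Finset.mem_Ioc] at h5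
      omega)]
    refine Finset.sum_le_sum_of_subset_of_nonneg ?_ fun m _ _ => mul_nonneg (by positivity) (hs m).1
    intro m hm
    rw [Finset.mem_Ioc] at hm
    rw [Finset.mem_union, Finset.mem_Icc, Finset.mem_Ioc]
    omega
  refine h3.trans (add_le_add le_rfl ?_)
  have hN0 : 0 < N := lt_of_lt_of_le (Nat.mul_pos hC hH) hN
  have hN0' : (0 : ℝ) < N := by exact_mod_cast hN0
  have h4 : ∀ m ∈ Ioc N (N + H), (1 / (m : ℝ)) * s' m ≤ 1 / N := by
    intro m hm
    rw [Finset.mem_Ioc] at hm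
    have h5 : (1 / (m : ℝ)) ≤ 1 / N :=
      one_div_le_one_div_of_le hN0' (by exact_mod_cast hm.1.le)
    calc (1 / (m : ℝ)) * s' m ≤ (1 / N) * 1 :=
          mul_le_mul h5 (hs m).2 (hs m).1 (by positivity)
      _ = 1 / N := mul_one _
  refine (Finset.sum_le_card_nsmul _ _ _ h4).trans ?_
  rw [Nat.card_Ioc, nsmul_eq_mul, Nat.add_sub_cancel_left, mul_one_div, div_le_one hN0']
  have h5 : H ≤ N := (Nat.le_mul_of_pos_left H hC).trans hN
  exact_mod_cast h5

end SubL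

open SubL

/-- [SUB] -/
theorem sub : S_SUB := by
  intro s s' C H N η hs hC hH hN hη hss
  have hC0 : (0 : ℝ) < C := by exact_mod_cast hC
  have hH0 : (0 : ℝ) < H := by exact_mod_cast hH
  have h1 : ∑ n ∈ Ioc (C * H) N, (1 / (n : ℝ)) * s n ≤
      ∑ n ∈ Ioc (C * H) N, ((1 / (H : ℝ)) * ∑ i ∈ range H, (1 / (n : ℝ)) * s' (n + i) +
        η * (1 / (n : ℝ))) := by
    refine Finset.sum_le_sum fun n _ => ?_
    refine (mul_le_mul_of_nonneg_left (hss n) (show (0 : ℝ) ≤ 1 / (n : ℝ) by positivity)).trans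
      (le_of_eq ?_)
    rw [Finset.mul_sum, mul_add, Finset.mul_sum, Finset.mul_sum, mul_comm η]
    congr 1
    exact Finset.sum_congr rfl fun i _ => by ring
  refine h1.trans ?_
  rw [Finset.sum_add_distrib, ← Finset.mul_sum, ← Finset.mul_sum, Finset.sum_comm]
  refine add_le_add ?_ (mul_le_mul_of_nonneg_left ?_ hη)
  · have h2 : ∑ i ∈ range H, ∑ n ∈ Ioc (C * H) N, (1 / (n : ℝ)) * s' (n + i) ≤
        H * ((1 + 1 / (C : ℝ)) * (∑ n ∈ Icc 1 N, (1 / (n : ℝ)) * s' n + 1)) := by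
      refine (Finset.sum_le_card_nsmul _ _ _ fun i hi =>
        shift_le s' C H N i hs hC hH hN (Finset.mem_range.1 hi)).trans (le_of_eq ?_)
      rw [Finset.card_range, nsmul_eq_mul]
    refine (mul_le_mul_of_nonneg_left h2 (by positivity)).trans (le_of_eq ?_)
    field_simp
  · refine Finset.sum_le_sum_of_subset_of_nonneg ?_ fun m _ _ => by positivity
    intro m hm
    rw [Finset.mem_Ioc] at hm
    rw [Finset.mem_Icc]
    omega

end Pool.Agent.Helper44K9.FU
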