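import Pool.Agent.Helper44K9.FU.Stm

/-! Lists of unrelated phases; saturation. -/

set_option autoImplicit false

namespace Pool.Agent.Helper44K9.FU

open Finset Polynomial MeasureTheory
open Pool.Agent.H807R2.Dav (ee norm_ee)

/-- a list of `r` unrelated phases which correlate with `f` -/
def Lst (d : ℕ) (f : ℕ → ℂ) (K : ℕ) (t : ℝ) (n H r : ℕ) : Prop :=
  ∃ P : Fin r → ℝ[X], (∀ i, (P i).natDegree ≤ d) ∧ (∀ i, t * H ≤ ‖W f (P i) n H‖) ∧
    ∀ i j, i ≠ j → ¬ Rel d K H ((P i).coeff d) ((P j).coeff d)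

/-- the maximal length of a list -/
noncomputable def rk (d : ℕ) (f : ℕ → ℂ) (K : ℕ) (t : ℝ) (n H : ℕ) : ℕ :=
  if 1 ≤ H then sSup {r | Lst d f K t n H r} else 0

lemma Lst.zero (d : ℕ) (f : ℕ → ℂ) (K : ℕ) (t : ℝ) (n H : ℕ) : Lst d f K t n H 0 :=
  ⟨fun i => i.elim0, fun i => i.elim0, fun i => i.elim0, fun i => i.elim0⟩

lemma Rel.symm' {d K H : ℕ} {α β : ℝ} (h : Rel d K H α β) : Rel d K H β α := by
  obtain ⟨m, h1, h2, a, h3⟩ := h
  refine ⟨m, h1, h2, -a, ?_⟩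
  push_cast
  rw [show (m : ℝ) * (β - α) - -(a : ℝ) = -(m * (α - β) - a) by ring, abs_neg]
  exact h3

lemma Rel.mono {d K K' H : ℕ} {α β : ℝ} (h : Rel d K H α β) (hK : K ≤ K') : Rel d K' H α β := by
  obtain ⟨m, h1, h2, a, h3⟩ := h
  refine ⟨m, h1, h2.trans hK, a, h3.trans ?_⟩
  have : (K : ℝ) ≤ K' := by exact_mod_cast hK
  gcongr

lemma rk_spec {d : ℕ} {f : ℕ → ℂ} {K : ℕ} {t : ℝ} {n H R : ℕ} (hH : 1 ≤ H)
    (hR : ∀ r, Lst d f K t n H r → r ≤ R) :
    Lst d f K t n H (rk d f K t n H) ∧ ∀ r, Lst d f K t n H r → r ≤ rk d f K t n H := by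
  unfold rk
  rw [if_pos hH]
  have hb : BddAbove {r | Lst d f K t n H r} := ⟨R, fun r hr => hR r hr⟩
  exact ⟨Nat.sSup_mem ⟨0, Lst.zero d f K t n H⟩ hb, fun r hr => le_csSup hb hr⟩

lemma rk_le {d : ℕ} {f : ℕ → ℂ} {K : ℕ} {t : ℝ} {n H R : ℕ}
    (hR : 1 ≤ H → ∀ r, Lst d f K t n H r → r ≤ R) : rk d f K t n H ≤ R := by
  by_cases hH : 1 ≤ H
  · exact hR hH _ (rk_spec hH (hR hH)).1
  · unfold rk
    rw [if_neg hH]
    exact Nat.zero_le _

lemma dil_natDegree {p : ℕ} {P : ℝ[X]} {d : ℕ} (h : P.natDegree ≤ d) : (dil p P).natDegree ≤ d := by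
  unfold dil
  refine (natDegree_comp_le).trans ?_
  have : (C (p : ℝ) * X : ℝ[X]).natDegree ≤ 1 := (natDegree_C_mul_le _ _).trans natDegree_X_le
  calc P.natDegree * (C (p : ℝ) * X : ℝ[X]).natDegree ≤ P.natDegree * 1 := Nat.mul_le_mul_left _ this
    _ ≤ d := by omega

lemma dil_coeff (p : ℕ) (P : ℝ[X]) (d : ℕ) : (dil p P).coeff d = (p : ℝ) ^ d * P.coeff d := by
  unfold dil
  rw [comp_C_mul_X_coeff, mul_comm]

/-- saturation: if the dilated list is a list of maximal length, then all phases are related to it -/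
lemma saturated {d : ℕ} {f : ℕ → ℂ} {K : ℕ} {t : ℝ} {n H r : ℕ} {P : Fin r → ℝ[X]} {p : ℕ} {R : ℕ}
    (hH : 1 ≤ H / p) (hR : ∀ r, Lst d f K t (n / p) (H / p) r → r ≤ R)
    (hd : ∀ i, (P i).natDegree ≤ d) (h1 : ∀ i, t * ((H / p : ℕ) : ℝ) ≤ ‖W f (dil p (P i)) (n / p) (H / p)‖)
    (h2 : ∀ i j, i ≠ j → ¬ Rel d K (H / p) ((p : ℝ) ^ d * (P i).coeff d) ((p : ℝ) ^ d * (P j).coeff d)) :
    r ≤ rk d f K t (n / p) (H / p) ∧ (rk d f K t (n / p) (H / p) = r → ∀ Q : ℝ[X], Q.natDegree ≤ d →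
      t * ((H / p : ℕ) : ℝ) ≤ ‖W f Q (n / p) (H / p)‖ →
      ∃ i, Rel d K (H / p) (Q.coeff d) ((p : ℝ) ^ d * (P i).coeff d)) := by
  have hs := rk_spec hH hR
  refine ⟨hs.2 r ⟨fun i => dil p (P i), fun i => dil_natDegree (hd i), h1, fun i j hij => ?_⟩, ?_⟩
  · rw [dil_coeff, dil_coeff]; exact h2 i j hij
  · intro hr Q hQ hQt
    by_contra hcon
    push Not at hcon
    have h3 : Lst d f K t (n / p) (H / p) (r + 1) := by
      refine ⟨Fin.cons Q (fun i => dil p (P i)), ?_, ?_, ?_⟩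
      · intro i
        refine Fin.cases ?_ (fun i => ?_) i
        · simpa using hQ
        · simpa using dil_natDegree (hd i)
      · intro i
        refine Fin.cases ?_ (fun i => ?_) i
        · simpa using hQt
        · simpa using h1 i
      · intro i j
        refine Fin.cases ?_ (fun i => ?_) i
        · refine Fin.cases (fun h => absurd rfl h) (fun j _ => ?_) j
          rw [Fin.cons_zero, Fin.cons_succ, dil_coeff]
          exact hcon j
        · refine Fin.cases (fun _ => ?_) (fun j hij => ?_) j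
          · rw [Fin.cons_zero, Fin.cons_succ, dil_coeff]
            exact fun h => hcon i h.symm'
          · rw [Fin.cons_succ, Fin.cons_succ, dil_coeff, dil_coeff]
            exact h2 i j fun h => hij (by rw [h])
    have := hs.2 _ h3
    omega

end Pool.Agent.Helper44K9.FU
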