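import Pool.Agent.Helper44K9.FU.Stm

/-! [NR] relations after dilation. -/

set_option autoImplicit false

namespace Pool.Agent.Helper44K9.FU

open Finset

/-- [NR] -/
theorem nr : S_NR := by
  intro d K B hd hK
  refine ⟨2 ^ (d + 1) * K ^ 2 * B ^ (2 * d) + 2 * B + 1, ?_⟩
  intro H hH α β p q hp hq hpq hKp hKq hpB hqB h1 h2
  obtain ⟨m, hm1, hmK, a, ha⟩ := h1
  obtain ⟨m', hm1', hmK', b, hb⟩ := h2
  set δ := α - β with hδ
  have hH0 : (0 : ℝ) < H := by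
    have : 0 < H := by omega
    exact_mod_cast this
  have hHd : (0 : ℝ) < (H : ℝ) ^ d := pow_pos hH0 d
  -- one relation
  have key : ∀ (p m : ℕ) (a : ℤ), p.Prime → p ≤ B →
      |(m : ℝ) * ((p : ℝ) ^ d * α - (p : ℝ) ^ d * β) - a| ≤ K / ((H / p : ℕ) : ℝ) ^ d →
      |(m : ℝ) * (p : ℝ) ^ d * δ - a| ≤ 2 ^ d * K * (p : ℝ) ^ d / (H : ℝ) ^ d := by
    intro p m a hp hpB h
    have hp0 : 0 < p := hp.pos
    have hp0' : (0 : ℝ) < p := by exact_mod_cast hp0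
    have h3 : (H : ℝ) / (2 * p) ≤ ((H / p : ℕ) : ℝ) := by
      have h4 : H < (H / p + 1) * p := by
        have := Nat.lt_div_mul_add hp0 (a := H)
        nlinarith [Nat.div_mul_le_self H p, Nat.mod_lt H hp0, Nat.div_add_mod H p]
      have h5 : 2 * p ≤ H := by omega
      have h6 : 2 ≤ H / p := (Nat.le_div_iff_mul_le hp0).2 h5
      rw [div_le_iff₀ (by positivity)]
      have h7 : H ≤ (H / p) * (2 * p) := by nlinarith
      exact_mod_cast h7
    have h8 : (0 : ℝ) < (H : ℝ) / (2 * p) := by positivity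
    have h9 : (K : ℝ) / ((H / p : ℕ) : ℝ) ^ d ≤ K / ((H : ℝ) / (2 * p)) ^ d := by
      gcongr
    have h10 : (K : ℝ) / ((H : ℝ) / (2 * p)) ^ d = 2 ^ d * K * (p : ℝ) ^ d / (H : ℝ) ^ d := by
      rw [div_pow, mul_pow]
      field_simp
    have h11 : (m : ℝ) * ((p : ℝ) ^ d * α - (p : ℝ) ^ d * β) - a =
        (m : ℝ) * (p : ℝ) ^ d * δ - a := by rw [hδ]; ring
    rw [h11] at h
    exact (h.trans h9).trans (le_of_eq h10)
  have ka := key p m a hp hpB ha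
  have kb := key q m' b hq hqB hb
  have hp0' : (0 : ℝ) < p := by exact_mod_cast hp.pos
  have hq0' : (0 : ℝ) < q := by exact_mod_cast hq.pos
  have hpB' : (p : ℝ) ≤ B := by exact_mod_cast hpB
  have hqB' : (q : ℝ) ≤ B := by exact_mod_cast hqB
  have hmK2 : (m : ℝ) ≤ K := by exact_mod_cast hmK
  have hmK2' : (m' : ℝ) ≤ K := by exact_mod_cast hmK'
  -- the fractions agree
  have h3 : |((m' : ℝ) * (q : ℝ) ^ d * a - (m : ℝ) * (p : ℝ) ^ d * b)| < 1 := by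
    have e1 : (m' : ℝ) * (q : ℝ) ^ d * a - (m : ℝ) * (p : ℝ) ^ d * b =
        (m : ℝ) * (p : ℝ) ^ d * ((m' : ℝ) * (q : ℝ) ^ d * δ - b) -
        (m' : ℝ) * (q : ℝ) ^ d * ((m : ℝ) * (p : ℝ) ^ d * δ - a) := by ring
    rw [e1]
    refine (abs_sub _ _).trans_lt ?_
    rw [abs_mul ((m : ℝ) * (p : ℝ) ^ d), abs_mul ((m' : ℝ) * (q : ℝ) ^ d),
      abs_of_nonneg (show (0 : ℝ) ≤ (m : ℝ) * (p : ℝ) ^ d by positivity),
      abs_of_nonneg (show (0 : ℝ) ≤ (m' : ℝ) * (q : ℝ) ^ d by positivity)]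
    have f1 : (m : ℝ) * (p : ℝ) ^ d * |(m' : ℝ) * (q : ℝ) ^ d * δ - b| ≤
        K * B ^ d * (2 ^ d * K * B ^ d / (H : ℝ) ^ d) := by
      refine mul_le_mul ?_ (kb.trans ?_) (abs_nonneg _) (by positivity)
      · gcongr
      · gcongr
    have f2 : (m' : ℝ) * (q : ℝ) ^ d * |(m : ℝ) * (p : ℝ) ^ d * δ - a| ≤
        K * B ^ d * (2 ^ d * K * B ^ d / (H : ℝ) ^ d) := by
      refine mul_le_mul ?_ (ka.trans ?_) (abs_nonneg _) (by positivity)
      · gcongr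
      · gcongr
    have f3 : (H : ℝ) ≤ (H : ℝ) ^ d := by
      have : (1 : ℝ) ≤ H := by
        have : 1 ≤ H := by omega
        exact_mod_cast this
      exact le_self_pow₀ this (by omega)
    have f4 : (2 : ℝ) ^ (d + 1) * K ^ 2 * B ^ (2 * d) < H := by
      have : 2 ^ (d + 1) * K ^ 2 * B ^ (2 * d) < H := by omega
      exact_mod_cast this
    have f5 : (K : ℝ) * B ^ d * (2 ^ d * K * B ^ d / (H : ℝ) ^ d) +
        K * B ^ d * (2 ^ d * K * B ^ d / (H : ℝ) ^ d) =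
        2 ^ (d + 1) * K ^ 2 * B ^ (2 * d) / (H : ℝ) ^ d := by
      rw [pow_succ, two_mul d, pow_add]
      ring
    refine (add_le_add f1 f2).trans_lt ?_
    rw [f5, div_lt_one hHd]
    exact f4.trans_le f3
  have h4 : (m' : ℤ) * (q : ℤ) ^ d * a = (m : ℤ) * (p : ℤ) ^ d * b := by
    have h5 : |((m' : ℤ) * (q : ℤ) ^ d * a - (m : ℤ) * (p : ℤ) ^ d * b : ℤ)| < 1 := by
      have h6 : ((|((m' : ℤ) * (q : ℤ) ^ d * a - (m : ℤ) * (p : ℤ) ^ d * b : ℤ)| : ℤ) : ℝ) < 1 := by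
        push_cast
        exact h3
      exact_mod_cast h6
    have := Int.abs_lt_one_iff.1 h5
    omega
  have h5 : (p : ℤ) ^ d ∣ a := by
    have h6 : (p : ℤ) ^ d ∣ (m' : ℤ) * (q : ℤ) ^ d * a := by
      rw [h4]
      exact ⟨(m : ℤ) * b, by ring⟩
    have h7 : IsCoprime ((p : ℤ) ^ d) ((m' : ℤ) * (q : ℤ) ^ d) := by
      refine IsCoprime.mul_right (IsCoprime.pow_left ?_) (IsCoprime.pow ?_)
      · rw [Nat.isCoprime_iff_coprime, Nat.Prime.coprime_iff_not_dvd hp]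
        intro h8
        have := Nat.le_of_dvd (by omega) h8
        omega
      · rw [Nat.isCoprime_iff_coprime]
        exact (Nat.coprime_primes hp hq).2 hpq
    exact h7.dvd_of_dvd_mul_left h6
  obtain ⟨a', rfl⟩ := h5
  refine ⟨m, hm1, hmK.trans (Nat.le_mul_of_pos_left _ (by positivity)), a', ?_⟩
  have h6 : (m : ℝ) * (p : ℝ) ^ d * δ - (((p : ℤ) ^ d * a' : ℤ) : ℝ) =
      (p : ℝ) ^ d * ((m : ℝ) * δ - a') := by
    push_cast
    ring
  rw [h6, abs_mul, abs_of_nonneg (show (0 : ℝ) ≤ (p : ℝ) ^ d by positivity)] at ka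
  have h7 : (p : ℝ) ^ d * |(m : ℝ) * δ - a'| ≤ (p : ℝ) ^ d * (2 ^ d * K / (H : ℝ) ^ d) := by
    refine ka.trans (le_of_eq ?_)
    ring
  have h8 := le_of_mul_le_mul_left h7 (by positivity)
  push_cast
  exact h8

end Pool.Agent.Helper44K9.FU
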