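import Pool.Agent.Helper44K9.FU.Stm
import Pool.Agent.H373R2.NB.Weyl

/-!
# Project FU, leaf WR: the inverse theorem for Weyl sums of real polynomials.
-/

set_option autoImplicit false

namespace Pool.Agent.Helper44K9.FU

open Finset Polynomial
open Pool.Agent.H373R2.NB (Ph IW IW_all)

namespace WrL

theorem ee_eq (x : ℝ) : Pool.Agent.H807R2.Dav.ee x = Pool.Agent.Helper602.MK.ee x := by
  unfold Pool.Agent.H807R2.Dav.ee Pool.Agent.Helper602.MK.ee
  congr 1
  try push_cast
  try ring

/-- polynomial phases of real polynomials -/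
theorem ph_real (d : ℕ) : ∀ f : ℝ[X], f.natDegree ≤ d →
    Ph d ((d.factorial : ℝ) * f.coeff d) (fun n => f.eval (n : ℝ)) := by
  induction d with
  | zero =>
    intro f hf n
    have h1 : f = C (f.coeff 0) := eq_C_of_natDegree_le_zero hf
    show f.eval (n : ℝ) = _
    conv_lhs => rw [h1]
    rw [eval_C]
    simp
  | succ d ih =>
    intro f hf h
    set g : ℝ[X] := taylor (h : ℝ) f - f with hg
    have hcoef : ∀ j, d ≤ j → (taylor (h : ℝ) f).coeff j =
        f.coeff j + (if j = d then ((d : ℝ) + 1) * f.coeff (d + 1) * h else 0) := by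
      intro j hj
      rw [taylor_coeff]
      have h1 : (hasseDeriv j f).natDegree < 2 := by
        have := natDegree_hasseDeriv_le f j
        omega
      rw [eval_eq_sum_range' h1, sum_range_succ, sum_range_succ, sum_range_zero, hasseDeriv_coeff,
        hasseDeriv_coeff]
      rcases eq_or_ne j d with h2 | h2
      · subst h2
        rw [if_pos rfl, zero_add, zero_add, Nat.choose_self, add_comm 1 j,
          Nat.choose_succ_self_right]
        push_cast
        ring
      · rw [if_neg h2]
        have h3 : f.coeff (1 + j) = 0 := coeff_eq_zero_of_natDegree_lt (by omega)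
        rw [h3, zero_add, zero_add, Nat.choose_self]
        push_cast
        ring
    have hgd : g.natDegree ≤ d := by
      rw [natDegree_le_iff_coeff_eq_zero]
      intro j hj
      rw [hg, coeff_sub, hcoef j (by omega), if_neg (by omega)]
      ring
    have hgc : g.coeff d = ((d : ℝ) + 1) * f.coeff (d + 1) * h := by
      rw [hg, coeff_sub, hcoef d le_rfl, if_pos rfl]; ring
    have h1 := ih g hgd
    have h2 : (fun n : ℕ => g.eval (n : ℝ)) = fun n : ℕ =>
        f.eval ((n + h : ℕ) : ℝ) - f.eval (n : ℝ) := by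
      funext n
      rw [hg, eval_sub, taylor_eval]
      push_cast
      ring
    have h3 : (d.factorial : ℝ) * g.coeff d =
        (h : ℝ) * (((d + 1).factorial : ℝ) * f.coeff (d + 1)) := by
      rw [hgc, Nat.factorial_succ]; push_cast; ring
    rw [h2, h3] at h1
    exact h1

end WrL

open WrL

theorem wr : S_WR := by
  intro d hd u hu
  obtain ⟨c, k, hc, hI⟩ := IW_all d hd
  have hd1 : 1 ≤ d.factorial := Nat.factorial_pos d
  have hcu : (0 : ℝ) ≤ c * u ^ k := by positivity
  refine ⟨⌈(c : ℝ) * u ^ k⌉₊ * d.factorial, ?_, ?_⟩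
  · have h1 : 0 < ⌈(c : ℝ) * u ^ k⌉₊ := by
      apply Nat.ceil_pos.2
      have : (0 : ℝ) < c := by exact_mod_cast hc
      positivity
    exact Nat.mul_pos h1 hd1
  intro P n H hP hH hS
  have h1 : ∑ m ∈ Ioc n (n + H), Pool.Agent.H807R2.Dav.ee (P.eval (m : ℝ)) =
      ∑ i ∈ range H, Pool.Agent.Helper602.MK.ee ((taylor ((n : ℝ) + 1) P).eval (i : ℝ)) := by
    have e : Ioc n (n + H) = Ico (n + 1) (n + 1 + H) := by
      ext x
      rw [mem_Ioc, mem_Ico]
      omega
    rw [e, Finset.sum_Ico_eq_sum_range]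
    have e2 : n + 1 + H - (n + 1) = H := by omega
    rw [e2]
    refine sum_congr rfl fun i _ => ?_
    rw [ee_eq, taylor_eval]
    congr 2
    push_cast
    ring
  rw [h1] at hS
  have hdeg : (taylor ((n : ℝ) + 1) P).natDegree ≤ d := by rw [natDegree_taylor]; exact hP
  have hcoef : (taylor ((n : ℝ) + 1) P).coeff d = P.coeff d := by
    rw [taylor_coeff]
    have h2 : (hasseDeriv d P).natDegree < 1 := by
      have := natDegree_hasseDeriv_le P d
      omega
    rw [eval_eq_sum_range' h2, sum_range_one, hasseDeriv_coeff]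
    simp
  obtain ⟨q, hq1, hq2, a, ha⟩ := hI H u _ _ hH hu (ph_real d _ hdeg) hS
  rw [hcoef] at ha
  have hceil : (c : ℝ) * u ^ k ≤ ⌈(c : ℝ) * u ^ k⌉₊ := Nat.le_ceil _
  refine ⟨q * d.factorial, Nat.mul_pos hq1 hd1, ?_, a, ?_⟩
  · apply Nat.mul_le_mul_right
    exact_mod_cast hq2.trans hceil
  · have e : (((q * d.factorial : ℕ) : ℝ)) * P.coeff d = q * ((d.factorial : ℝ) * P.coeff d) := by
      push_cast; ring
    rw [e]
    refine ha.trans ?_
    apply div_le_div_of_nonneg_right _ (by positivity)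
    refine hceil.trans ?_
    rw [Nat.cast_mul]
    have : (1 : ℝ) ≤ (d.factorial : ℝ) := by exact_mod_cast hd1
    nlinarith [Nat.cast_nonneg (α := ℝ) ⌈(c : ℝ) * u ^ k⌉₊]

end Pool.Agent.Helper44K9.FU
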